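import Pool.Agent.Q256.EC.Stm

/-!
# Project EC, job DC2
-/

set_option autoImplicit false

namespace Pool.Agent.Q262.EC_DC2

open MvPolynomial Topology Pool.Agent.Q256.EC
open Filter (Tendsto atTop)

theorem bound_poly {K : Type} [NormedField K] (ψ : Polynomial K) :
    ∃ B : ℝ, 0 ≤ B ∧ ∀ t : K, ‖t‖ ≤ 1 → ‖ψ.eval t‖ ≤ B := by
  refine ⟨∑ i ∈ ψ.support, ‖ψ.coeff i‖, Finset.sum_nonneg fun _ _ => norm_nonneg _, fun t ht => ?_⟩
  rw [Polynomial.eval_eq_sum, Polynomial.sum]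
  refine (norm_sum_le _ _).trans (Finset.sum_le_sum fun i _ => ?_)
  rw [norm_mul, norm_pow]
  exact mul_le_of_le_one_right (norm_nonneg _) (pow_le_one₀ (norm_nonneg _) ht)

/-- the values of a sequence with a nonzero expansion are nonzero for large `n` -/
theorem ne_zero_of_coeff {K : Type} [NormedField K] (t a : ℕ → K) (ht : Tendsto t atTop (𝓝 0))
    (ht0 : ∀ n, t n ≠ 0) (k : ℕ) (φ : Polynomial K) (C : ℝ)
    (h : ∀ n, ‖a n - φ.eval (t n)‖ ≤ C * ‖t n‖ ^ k) (hφ : ∃ j, j < k ∧ φ.coeff j ≠ 0) :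
    ∀ᶠ n in atTop, a n ≠ 0 := by
  classical
  let j := Nat.find hφ
  have hj : j < k ∧ φ.coeff j ≠ 0 := Nat.find_spec hφ
  have hmin : ∀ d, d < j → φ.coeff d = 0 := by
    intro d hd
    by_contra hc
    exact Nat.find_min hφ hd ⟨hd.trans hj.1, hc⟩
  obtain ⟨ψ, hψ⟩ := Polynomial.X_pow_dvd_iff.2 hmin
  have h0 : ψ.coeff 0 ≠ 0 := by
    have h1 := hj.2
    rw [hψ, Polynomial.coeff_X_pow_mul', if_pos le_rfl, Nat.sub_self] at h1
    exact h1
  have hlim : Tendsto (fun n => ‖ψ.eval (t n)‖ - C * ‖t n‖ ^ (k - j)) atTop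
      (𝓝 (‖ψ.eval 0‖ - C * ‖(0 : K)‖ ^ (k - j))) := by
    refine Tendsto.sub ?_ ?_
    · exact ((ψ.continuous.tendsto 0).comp ht).norm
    · exact (ht.norm.pow (k - j)).const_mul C
  have hpos : 0 < ‖ψ.eval 0‖ - C * ‖(0 : K)‖ ^ (k - j) := by
    rw [norm_zero, zero_pow (by omega), mul_zero, sub_zero, ← Polynomial.coeff_zero_eq_eval_zero]
    exact norm_pos_iff.2 h0
  filter_upwards [hlim.eventually (lt_mem_nhds hpos)] with n hn ha
  have h1 := h n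
  rw [ha, zero_sub, norm_neg, hψ, Polynomial.eval_mul, Polynomial.eval_pow, Polynomial.eval_X,
    norm_mul, norm_pow] at h1
  have h2 : ‖t n‖ ^ k = ‖t n‖ ^ j * ‖t n‖ ^ (k - j) := by
    rw [← pow_add, Nat.add_sub_cancel' hj.1.le]
  have h3 : 0 < ‖t n‖ ^ j := pow_pos (norm_pos_iff.2 (ht0 n)) j
  have h4 : ‖t n‖ ^ j * ‖ψ.eval (t n)‖ ≤ ‖t n‖ ^ j * (C * ‖t n‖ ^ (k - j)) := by
    calc ‖t n‖ ^ j * ‖ψ.eval (t n)‖ ≤ C * ‖t n‖ ^ k := h1
      _ = _ := by rw [h2]; ring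
  have h5 := le_of_mul_le_mul_left h4 h3
  linarith

/-- enlarge the constant for finitely many `n` -/
theorem enlarge (a δ : ℕ → ℝ) (hδ : ∀ n, 0 < δ n) (ha : ∀ n, 0 ≤ a n) (m k : ℕ) (C : ℝ)
    (h : ∀ n, a (n + m) ≤ C * δ (n + m) ^ k) : ∃ C' : ℝ, 0 ≤ C' ∧ ∀ n, |a n| ≤ C' * δ n ^ k := by
  have hs : 0 ≤ ∑ n ∈ Finset.range m, a n / δ n ^ k :=
    Finset.sum_nonneg fun n _ => div_nonneg (ha n) (pow_nonneg (hδ n).le k)
  refine ⟨max C 0 + ∑ n ∈ Finset.range m, a n / δ n ^ k, add_nonneg (le_max_right _ _) hs, fun n => ?_⟩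
  rw [abs_of_nonneg (ha n)]
  have hp : 0 < δ n ^ k := pow_pos (hδ n) k
  by_cases hn : n < m
  · have h1 : a n / δ n ^ k ≤ max C 0 + ∑ n ∈ Finset.range m, a n / δ n ^ k := by
      have h2 := Finset.single_le_sum (f := fun n => a n / δ n ^ k)
        (fun n _ => div_nonneg (ha n) (pow_nonneg (hδ n).le k)) (Finset.mem_range.2 hn)
      have h3 : (0 : ℝ) ≤ max C 0 := le_max_right _ _
      linarith
    exact (div_le_iff₀ hp).1 h1
  · obtain ⟨q, rfl⟩ : ∃ q, n = q + m := ⟨n - m, by omega⟩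
    refine (h q).trans (mul_le_mul_of_nonneg_right ?_ hp.le)
    have h3 : C ≤ max C 0 := le_max_left _ _
    linarith

theorem dc2 : S_PRJ → S_CON → S_TEI → S_TEV → S_DC2 := by
  intro hPRJ hCON hTEI hTEV K _ _ ι _ _ g u w hO hdeg hw0 σ hσ hσ1 hSm G
  obtain ⟨E, B, v, hME, hEM, hBM, hv⟩ := hPRJ K ι (lin g) hdeg
  obtain ⟨C, n0, hC⟩ := hCON K ι g u w hO E B hME hEM hBM σ hσ hσ1 hSm
  choose t ht using fun n => hv (w n)
  have hwlim : Tendsto (fun n => ‖w n‖) atTop (𝓝 0) := by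
    obtain ⟨C1, hC1⟩ := hSm 1
    have h1 : Tendsto (fun n : ℕ => C1 * (σ ^ 1) ^ n) atTop (𝓝 (C1 * 0)) := by
      rw [pow_one]
      exact (tendsto_pow_atTop_nhds_zero_of_lt_one hσ.le hσ1).const_mul C1
    rw [mul_zero] at h1
    refine squeeze_zero (fun n => norm_nonneg _) (fun n => ?_) h1
    exact (le_abs_self _).trans (hC1 n)
  have hwpos : ∀ n, 0 < ‖w n‖ := fun n => norm_pos_iff.2 (hw0 n)
  -- for large `n` the vector `w n` is close to `E w n`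
  have hev1 : ∀ᶠ n in atTop, ‖w n‖ ≤ 2 * (‖t n‖ * ‖v‖) ∧ ‖t n‖ * ‖v‖ ≤ 2 * ‖w n‖ := by
    have h1 : Tendsto (fun n => C * ‖w n‖) atTop (𝓝 (C * 0)) := hwlim.const_mul C
    rw [mul_zero] at h1
    filter_upwards [h1.eventually (gt_mem_nhds (show (0 : ℝ) < 1 / 2 by norm_num)),
      Filter.eventually_ge_atTop n0] with n h2 h3
    have h4 := hC n h3
    have h5 : C * ‖w n‖ ^ 2 ≤ 1 / 2 * ‖w n‖ := by
      rw [pow_two, ← mul_assoc]
      exact mul_le_mul_of_nonneg_right h2.le (norm_nonneg _)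
    have h6 : ‖E.mulVec (w n)‖ = ‖t n‖ * ‖v‖ := by rw [ht n, norm_smul]
    have h7 : ‖w n‖ ≤ ‖w n - E.mulVec (w n)‖ + ‖E.mulVec (w n)‖ := by
      have := norm_add_le (w n - E.mulVec (w n)) (E.mulVec (w n))
      rwa [sub_add_cancel] at this
    have h8 : ‖E.mulVec (w n)‖ ≤ ‖w n‖ + ‖w n - E.mulVec (w n)‖ := by
      have := norm_sub_le (w n) (w n - E.mulVec (w n))
      rwa [sub_sub_cancel] at this
    rw [h6] at h7 h8
    constructor <;> linarith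
  have hvne : v ≠ 0 := by
    intro h0
    obtain ⟨n, hn⟩ := hev1.exists
    rw [h0, norm_zero, mul_zero, mul_zero] at hn
    exact absurd hn.1 (not_le.2 (hwpos n))
  have hvpos : 0 < ‖v‖ := norm_pos_iff.2 hvne
  have hev2 : ∀ᶠ n in atTop, ‖t n‖ ≤ 1 := by
    have h1 := hwlim.eventually (gt_mem_nhds (show (0 : ℝ) < ‖v‖ / 2 by positivity))
    filter_upwards [hev1, h1] with n h2 h3
    have h4 : ‖t n‖ * ‖v‖ ≤ 1 * ‖v‖ := by linarith [h2.2]
    exact le_of_mul_le_mul_right h4 hvpos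
  obtain ⟨m, hm⟩ := Filter.eventually_atTop.1 (hev1.and hev2)
  have hm1 : ∀ n, ‖w (n + m)‖ ≤ 2 * (‖t (n + m)‖ * ‖v‖) := fun n => (hm (n + m) (by omega)).1.1
  have hm2 : ∀ n, ‖t (n + m)‖ * ‖v‖ ≤ 2 * ‖w (n + m)‖ := fun n => (hm (n + m) (by omega)).1.2
  have hm3 : ∀ n, ‖t (n + m)‖ ≤ 1 := fun n => (hm (n + m) (by omega)).2
  have htne : ∀ n, t (n + m) ≠ 0 := by
    intro n h0
    have h1 := hm1 n
    rw [h0, norm_zero, zero_mul, mul_zero] at h1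
    exact absurd h1 (not_le.2 (hwpos _))
  have htlim : Tendsto (fun n => t (n + m)) atTop (𝓝 0) := by
    rw [tendsto_zero_iff_norm_tendsto_zero]
    have h1 : Tendsto (fun n => 2 / ‖v‖ * ‖w (n + m)‖) atTop (𝓝 (2 / ‖v‖ * 0)) :=
      ((Filter.tendsto_add_atTop_iff_nat m).2 hwlim).const_mul _
    rw [mul_zero] at h1
    refine squeeze_zero (fun n => norm_nonneg _) (fun n => ?_) h1
    rw [div_mul_eq_mul_div, le_div_iff₀ hvpos]
    exact hm2 n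
  have hO' : Orb g u (fun n => w (n + m)) := by
    refine ⟨hO.g0, hO.u0, fun n i => ?_, fun n => hO.unit _, fun n => hO.le _⟩
    have h1 := hO.step (n + m) i
    have h2 : n + 1 + m = n + m + 1 := by omega
    rw [h2]
    exact h1
  have hle : ∀ n, ‖w (n + m)‖ ≤ 2 * ‖v‖ * ‖t (n + m)‖ := fun n => (hm1 n).trans (le_of_eq (by ring))
  have hTe : ∀ k : ℕ, 1 ≤ k → Te (fun n => t (n + m)) k (fun n => eval (w (n + m)) G) := by
    intro k hk
    refine (hTEV K (fun n => t (n + m)) hm3 ι (2 * ‖v‖) k (fun n => w (n + m)) hk hle ?_ G).1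
    intro i
    exact hTEI K ι g u (fun n => w (n + m)) hO' E B v (fun n => t (n + m)) (2 * ‖v‖) hEM hBM hvne
      (fun n => ht (n + m)) hm3 hle k i
  choose! φ Cφ hφ using hTe
  by_cases hcase : ∃ k, 1 ≤ k ∧ ∃ j, j < k ∧ (φ k).coeff j ≠ 0
  · left
    obtain ⟨k, hk, hj⟩ := hcase
    have h1 := ne_zero_of_coeff (fun n => t (n + m)) (fun n => eval (w (n + m)) G) htlim htne k (φ k)
      (Cφ k) (hφ k hk) hj
    obtain ⟨n1, hn1⟩ := Filter.eventually_atTop.1 h1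
    refine ⟨n1 + m, fun n hn => ?_⟩
    have h2 := hn1 (n - m) (by omega)
    rwa [Nat.sub_add_cancel (by omega)] at h2
  · right
    push Not at hcase
    have hk1 : ∀ k : ℕ, 1 ≤ k → ∃ C' : ℝ, 0 ≤ C' ∧ ∀ n, |‖eval (w n) G‖| ≤ C' * ‖w n‖ ^ k := by
      intro k hk
      obtain ⟨ψ, hψ⟩ := Polynomial.X_pow_dvd_iff.2 (hcase k hk)
      obtain ⟨Bd, hBd, hBd2⟩ := bound_poly ψ
      refine enlarge (fun n => ‖eval (w n) G‖) (fun n => ‖w n‖) hwpos (fun n => norm_nonneg _) m k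
        ((|Cφ k| + Bd) * (2 / ‖v‖) ^ k) fun n => ?_
      have h1 := hφ k hk n
      have h2 : ‖(φ k).eval (t (n + m))‖ ≤ Bd * ‖t (n + m)‖ ^ k := by
        rw [hψ, Polynomial.eval_mul, Polynomial.eval_pow, Polynomial.eval_X, norm_mul, norm_pow,
          mul_comm]
        exact mul_le_mul_of_nonneg_right (hBd2 _ (hm3 n)) (pow_nonneg (norm_nonneg _) k)
      have h3 : ‖eval (w (n + m)) G‖ ≤ ‖eval (w (n + m)) G - (φ k).eval (t (n + m))‖ +
          ‖(φ k).eval (t (n + m))‖ := by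
        have := norm_add_le (eval (w (n + m)) G - (φ k).eval (t (n + m))) ((φ k).eval (t (n + m)))
        rwa [sub_add_cancel] at this
      have h4 : Cφ k * ‖t (n + m)‖ ^ k ≤ |Cφ k| * ‖t (n + m)‖ ^ k :=
        mul_le_mul_of_nonneg_right (le_abs_self _) (pow_nonneg (norm_nonneg _) k)
      have h5 : ‖t (n + m)‖ ^ k ≤ (2 / ‖v‖) ^ k * ‖w (n + m)‖ ^ k := by
        rw [← mul_pow]
        refine pow_le_pow_left₀ (norm_nonneg _) ?_ k
        rw [div_mul_eq_mul_div, le_div_iff₀ hvpos]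
        exact hm2 n
      have h6 : (|Cφ k| + Bd) * ‖t (n + m)‖ ^ k ≤
          (|Cφ k| + Bd) * ((2 / ‖v‖) ^ k * ‖w (n + m)‖ ^ k) :=
        mul_le_mul_of_nonneg_left h5 (add_nonneg (abs_nonneg _) hBd)
      show ‖eval (w (n + m)) G‖ ≤ (|Cφ k| + Bd) * (2 / ‖v‖) ^ k * ‖w (n + m)‖ ^ k
      simp only at h1
      nlinarith [h1, h2, h3, h4, h6]
    intro k
    rcases Nat.eq_zero_or_pos k with rfl | hk
    · obtain ⟨C', hC', h⟩ := hk1 1 le_rfl
      refine ⟨C', fun n => (h n).trans ?_⟩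
      rw [pow_one, pow_zero]
      exact mul_le_mul_of_nonneg_left (hO.le n) hC'
    · obtain ⟨C', _, h⟩ := hk1 k hk
      exact ⟨C', h⟩

end Pool.Agent.Q262.EC_DC2
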