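import Pool.Agent.Q256.EC.Stm

/-!
# Project EC, job NUL
-/

set_option autoImplicit false

namespace Pool.Agent.Q262.EC_NUL

open MvPolynomial Pool.Agent.Q256.EC
open Pool.Agent.Q170.GP (Prim tht exists_power tht_injective)

/-- a linear form which vanishes at `y` and is one at `g` -/
theorem form {ι : Type} (g y : ι → ℂ) (i0 : ι) (hg : g i0 ≠ 0) (h : ¬ ∃ c : ℂ, y = c • g) :
    ∃ l : MvPolynomial ι ℂ, l.IsHomogeneous 1 ∧ (∀ c : ℂ, eval (c • y) l = 0) ∧ eval g l = 1 := by
  have h1 : ∃ a b, y a * g b - y b * g a ≠ 0 := by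
    by_contra hc
    push Not at hc
    apply h
    refine ⟨y i0 / g i0, ?_⟩
    funext a
    rw [Pi.smul_apply, smul_eq_mul, div_mul_eq_mul_div, eq_div_iff hg]
    linear_combination hc a i0
  obtain ⟨a, b, hab⟩ := h1
  refine ⟨C ((y a * g b - y b * g a)⁻¹) * (C (y a) * X b - C (y b) * X a), ?_, ?_, ?_⟩
  · have h2 : (C (y a) * X b - C (y b) * X a : MvPolynomial ι ℂ).IsHomogeneous 1 := by
      refine IsHomogeneous.sub ?_ ?_
      · have := (isHomogeneous_C ι (y a)).mul (isHomogeneous_X ℂ b)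
        simpa using this
      · have := (isHomogeneous_C ι (y b)).mul (isHomogeneous_X ℂ a)
        simpa using this
    have := (isHomogeneous_C ι ((y a * g b - y b * g a)⁻¹)).mul h2
    simpa using this
  · intro c
    simp only [map_mul, map_sub, eval_C, eval_X, Pi.smul_apply, smul_eq_mul]
    ring
  · simp only [map_mul, map_sub, eval_C, eval_X]
    exact inv_mul_cancel₀ hab

theorem nul : S_NUL := by
  intro p _ θ N J γ P hγ hP
  classical
  obtain ⟨i0, hi0⟩ := hγ
  have hg : tht θ (γ i0) ≠ 0 := by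
    intro h0
    have : γ i0 = 0 := tht_injective θ (by rw [h0, map_zero])
    rw [this] at hi0
    exact not_isUnit_zero hi0
  let g : Fin (N + 1) → ℂ := fun i => tht θ (γ i)
  have hform : ∀ y : Fin (N + 1) → ℂ, ∃ l : MvPolynomial (Fin (N + 1)) ℂ, l.IsHomogeneous 1 ∧
      ((¬ ∃ c : ℂ, y = c • g) → (∀ c : ℂ, eval (c • y) l = 0) ∧ eval g l = 1) := by
    intro y
    by_cases h : ∃ c : ℂ, y = c • g
    · exact ⟨0, isHomogeneous_zero _ _ _, fun h' => absurd h h'⟩
    · obtain ⟨l, h1, h2⟩ := form g y i0 hg h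
      exact ⟨l, h1, fun _ => h2⟩
  choose l hl1 hl2 using hform
  let P' : Finset (Fin (N + 1) → ℂ) := P.filter fun y => ¬ ∃ c : ℂ, y = c • g
  have key : ∀ a b : Fin (N + 1), ∃ e : ℕ,
      ((C (g b) * X a - C (g a) * X b) * ∏ y ∈ P', l y) ^ e ∈
          Ideal.span ((fun G => map (tht θ) G) '' J) := by
    intro a b
    apply exists_power
    intro x hx
    have hx' : ∀ G ∈ J, eval x (map (tht θ) G) = 0 := fun G hG => hx _ ⟨G, hG, rfl⟩
    rw [map_mul, map_sub, map_mul, map_mul, eval_C, eval_C, eval_X, eval_X]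
    by_cases hx0 : x = 0
    · rw [hx0]
      simp
    · obtain ⟨y, hy, c, hc⟩ := hP x hx0 hx'
      by_cases hy' : ∃ c : ℂ, y = c • g
      · obtain ⟨c', hc'⟩ := hy'
        have : g b * x a - g a * x b = 0 := by
          rw [hc, hc']
          simp only [Pi.smul_apply, smul_eq_mul]
          ring
        rw [this, zero_mul]
      · have h1 : y ∈ P' := Finset.mem_filter.2 ⟨hy, hy'⟩
        have h2 : eval x (l y) = 0 := by
          rw [hc]
          exact (hl2 y hy').1 c
        rw [map_prod, Finset.prod_eq_zero h1 h2, mul_zero]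
  choose e he using key
  refine ⟨P'.card, ∑ a, ∑ b, e a b, ∏ y ∈ P', l y, ?_, ?_, ?_⟩
  · have := IsHomogeneous.prod P' l (fun _ => 1) fun y _ => hl1 y
    simpa using this
  · rw [map_prod]
    exact Finset.prod_eq_one fun y hy => (hl2 y (Finset.mem_filter.1 hy).2).2
  · intro a b
    have h1 : e a b ≤ ∑ a, ∑ b, e a b :=
      (Finset.single_le_sum (f := fun b => e a b) (fun _ _ => Nat.zero_le _) (Finset.mem_univ b)).trans
        (Finset.single_le_sum (f := fun a => ∑ b, e a b) (fun _ _ => Nat.zero_le _) (Finset.mem_univ a))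
    rw [← Nat.sub_add_cancel h1, pow_add]
    exact Ideal.mul_mem_left _ _ (he a b)

end Pool.Agent.Q262.EC_NUL
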