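import Pool.Agent.Q262.CycMain

/-!
Consequences of the formula for the largest height of a divisor of `X^{p q^b} - 1`.
-/

set_option autoImplicit false

open Polynomial Finset

namespace Q262.Hgt

theorem isGreatest_maxDivisorHeight (n : ℕ) (hn : 0 < n) :
    IsGreatest (divisorHeights n) (maxDivisorHeight n) := by
  have hb := (divisorHeights_finite n hn).bddAbove
  exact ⟨Nat.sSup_mem ⟨height 1, 1, one_dvd _, rfl⟩ hb, fun h hh => le_csSup hb hh⟩

theorem maxDivisorHeight_eq {p q : ℕ} (hp : p.Prime) (hq : q.Prime) (hpq : p < q) (b : ℕ) :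
    maxDivisorHeight (p * q ^ (b + 1)) = p * MM p q b :=
  (isGreatest_maxDivisorHeight _ (Nat.mul_pos hp.pos (pow_pos hq.pos _))).unique
    (main_formula hp hq hpq b)

/-! ### `p = 2` -/

theorem cyc_two_mul {q : ℕ} (hq : q.Prime) (h2 : q ≠ 2) :
    cyclotomic (2 * q) ℤ = ∑ i ∈ range q, (-X : ℤ[X]) ^ i := by
  have hodd : Odd q := hq.odd_of_ne_two h2
  have h1 := cyc_expand_p Nat.prime_two hq (lt_of_le_of_ne hq.two_le (Ne.symm h2))
  have e2 : cyclotomic 2 ℤ = X + 1 := cyclotomic_two ℤ
  rw [e2, map_add, expand_X, map_one] at h1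
  have h3 : (X + 1 : ℤ[X]) * ∑ i ∈ range q, (-X : ℤ[X]) ^ i = X ^ q + 1 := by
    have h4 := mul_neg_geom_sum (-X : ℤ[X]) q
    rw [hodd.neg_pow] at h4
    have e5 : (1 - -X : ℤ[X]) = X + 1 := by ring
    have e6 : (1 - -X ^ q : ℤ[X]) = X ^ q + 1 := by ring
    rw [e5, e6] at h4
    exact h4
  have hne : (X + 1 : ℤ[X]) ≠ 0 := by
    rw [← e2]; exact cyclotomic_ne_zero 2 ℤ
  exact mul_left_cancel₀ hne (by rw [← h1, h3])

theorem MM_two {q : ℕ} (hq : q.Prime) (h2 : q ≠ 2) (b : ℕ) : MM 2 q b = 1 := by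
  have h2q : 2 < q := lt_of_le_of_ne hq.two_le (Ne.symm h2)
  have hq0 := hq.pos
  obtain ⟨u, hu⟩ := exists_inv Nat.prime_two hq h2q
  apply le_antisymm
  · have key : ∀ b, ∀ g, g ∣ EE 2 q b → height g ≤ 1 := by
      intro b
      induction b with
      | zero =>
        intro g hg
        rw [EE_zero] at hg
        rw [height_assoc (associated_one_iff_isUnit.2 (isUnit_of_dvd_one hg))]
        exact height_one.le
      | succ b ih =>
        intro f hf
        rw [EE_succ hq] at hf
        obtain ⟨A, f', hA, hf', rfl⟩ := exists_dvd_and_dvd_of_dvd_mul hf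
        obtain ⟨g, hg, hassoc⟩ := dvd_expand_EE Nat.prime_two hq b f' hf'
        rw [height_assoc (hassoc.mul_left A)]
        obtain ⟨c, A3, hA3, rfl⟩ := dvd_prime_mul_cases (cyc_prime q hq0) hA
        rw [← mul_one (cyclotomic (2 * q) ℤ)] at hA3
        obtain ⟨d, A4, hA4, rfl⟩ := dvd_prime_mul_cases (cyc_prime (2 * q) (by omega)) hA3
        have hunit : IsUnit A4 := isUnit_of_dvd_one hA4
        have e : (if c then cyclotomic q ℤ else 1) * ((if d then cyclotomic (2 * q) ℤ else 1) * A4)
            * expand ℤ q g = ((if c then cyclotomic q ℤ else 1) *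
              (if d then cyclotomic (2 * q) ℤ else 1) * expand ℤ q g) * A4 := by ring
        rw [e, height_assoc (associated_mul_unit_left _ _ hunit)]
        have hg1 := ih g hg
        have dq : ∀ B : ℤ[X], B.natDegree < q → height B ≤ 1 → height (B * expand ℤ q g) ≤ 1 := by
          intro B h1 h2
          calc height (B * expand ℤ q g) ≤ height B * height g :=
                height_mul_expand_le_of_degree hq0 B g h1
            _ ≤ 1 * 1 := Nat.mul_le_mul h2 hg1
            _ = 1 := one_mul _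
        cases c <;> cases d <;> simp only [if_true, if_false, Bool.false_eq_true, one_mul, mul_one]
        · exact (height_expand hq0 g).trans hg1
        · apply dq
          · rw [natDegree_cyclotomic, Nat.totient_mul
              ((Nat.coprime_primes Nat.prime_two hq).2 h2q.ne), Nat.totient_two, one_mul,
              Nat.totient_prime hq]
            omega
          · rw [cyc_two_mul hq h2, height_le_iff]
            intro n
            have e : ∀ i, (-X : ℤ[X]) ^ i = C ((-1) ^ i) * X ^ i := by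
              intro i
              rw [neg_pow, map_pow, map_neg, map_one]
            rw [finsetSum_coeff]
            simp only [e, coeff_C_mul, coeff_X_pow, mul_ite, mul_one, mul_zero]
            rw [Finset.sum_ite_eq]
            split_ifs
            · rw [abs_pow]; simp
            · simp
        · apply dq
          · rw [natDegree_cyclotomic, Nat.totient_prime hq]; omega
          · have := Fact.mk hq
            rw [cyclotomic_prime]
            exact height_geom_le q
        · rw [cyc_q_pq Nat.prime_two hq h2q]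
          rw [height_le_iff]
          intro n
          rw [← zc_nat, zc_F1 hq0 hu]
          exact (abs_zc_le _ _).trans (by exact_mod_cast hg1)
    obtain ⟨g, hg, hM⟩ := exists_MM Nat.prime_two hq h2q b
    rw [← hM]
    exact key b g hg
  · have := le_MM Nat.prime_two hq h2q b (one_dvd (EE 2 q b))
    rwa [height_one] at this

/-- `B(2 q^b) = 2` for every odd prime `q` and every `b ≥ 1`. -/
theorem two_mul_pow {q b : ℕ} (hq : q.Prime) (h2 : q ≠ 2) (hb : 1 ≤ b) :
    IsGreatest (divisorHeights (2 * q ^ b)) 2 := by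
  obtain ⟨c, rfl⟩ : ∃ c, b = c + 1 := ⟨b - 1, by omega⟩
  have h := main_formula Nat.prime_two hq (lt_of_le_of_ne hq.two_le (Ne.symm h2)) c
  rwa [MM_two hq h2, mul_one] at h

/-! ### The lower bound -/

theorem le_two_mul_MM {p q : ℕ} (hp : p.Prime) (hq : q.Prime) (hpq : p < q) :
    p ≤ 2 * MM p q 2 := by
  have i1 := Fact.mk hp
  have i2 := Fact.mk hq
  have hp0 := hp.pos
  have hp2 := hp.two_le
  have hq0 := hq.pos
  have hdvd : cyclotomic (p * q) ℤ * expand ℤ q (cyclotomic q ℤ) ∣ EE p q 2 := by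
    rw [EE_succ hq, EE_succ hq, EE_zero, map_one, mul_one, map_mul]
    exact ⟨cyclotomic q ℤ * expand ℤ q (cyclotomic (p * q) ℤ), by ring⟩
  refine le_trans ?_ (Nat.mul_le_mul_left 2 (le_MM hp hq hpq 2 hdvd))
  set g := cyclotomic (p * q) ℤ * expand ℤ q (cyclotomic q ℤ) with hg
  -- `Φ_p g = (Φ_p Φ_q)(x^q)`
  have h1 : cyclotomic p ℤ * g = expand ℤ q (cyclotomic p ℤ * cyclotomic q ℤ) := by
    rw [map_mul, cyc_expand_p hp hq hpq, hg]; ring
  have hT : (cyclotomic p ℤ * cyclotomic q ℤ).coeff (p - 1) = p := by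
    rw [cyclotomic_prime ℤ p, cyclotomic_prime ℤ q, coeff_geom_mul]
    rw [Finset.sum_congr rfl (g := fun _ => (1 : ℤ))]
    · simp
    · intro i hi
      rw [Finset.mem_range] at hi
      rw [if_pos (by omega), coeff_geom, if_pos (by omega)]
  have h2 : ∑ i ∈ range p, g.coeff (q * (p - 1) - i) = p := by
    have h3 : (cyclotomic p ℤ * g).coeff (q * (p - 1)) = p := by
      rw [h1, coeff_expand hq0, if_pos (dvd_mul_right _ _), Nat.mul_div_cancel_left _ hq0, hT]
    rw [cyclotomic_prime ℤ p, coeff_geom_mul] at h3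
    rw [← h3]
    apply Finset.sum_congr rfl
    intro i hi
    rw [Finset.mem_range] at hi
    rw [if_pos]
    have : p - 1 ≤ q * (p - 1) := Nat.le_mul_of_pos_left _ hq0
    omega
  have h3 : ∑ i ∈ range p, g.coeff (q * (p - 1) + 1 - i) = 0 := by
    have h3 : (cyclotomic p ℤ * g).coeff (q * (p - 1) + 1) = 0 := by
      rw [h1, coeff_expand hq0, if_neg]
      intro hd
      have : q ∣ 1 := (Nat.dvd_add_right (dvd_mul_right q (p - 1))).1 hd
      exact hq.one_lt.ne' (Nat.dvd_one.1 this)
    rw [cyclotomic_prime ℤ p, coeff_geom_mul] at h3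
    rw [← h3]
    apply Finset.sum_congr rfl
    intro i hi
    rw [Finset.mem_range] at hi
    rw [if_pos]
    have : p - 1 ≤ q * (p - 1) := Nat.le_mul_of_pos_left _ hq0
    omega
  -- the difference of the two windows
  have hle : p - 1 ≤ q * (p - 1) := Nat.le_mul_of_pos_left _ hq0
  obtain ⟨r, hr⟩ : ∃ r, p = r + 1 := ⟨p - 1, by omega⟩
  have h4 : g.coeff (q * (p - 1) + 1) - g.coeff (q * (p - 1) - (p - 1)) = -p := by
    rw [hr] at h2 h3
    rw [Finset.sum_range_succ] at h2
    rw [Finset.sum_range_succ'] at h3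
    rw [hr]
    have h5 : ∑ i ∈ range r, g.coeff (q * (r + 1 - 1) + 1 - (i + 1))
        = ∑ i ∈ range r, g.coeff (q * (r + 1 - 1) - i) := by
      apply Finset.sum_congr rfl
      intro i _
      congr 1
      omega
    rw [h5] at h3
    have e1 : q * (r + 1 - 1) + 1 - 0 = q * (r + 1 - 1) + 1 := by omega
    have e2 : r + 1 - 1 = r := by omega
    rw [e1] at h3
    simp only [e2] at h2 h3 ⊢
    linarith
  have h5 := abs_coeff_le g (q * (p - 1) + 1)
  have h6 := abs_coeff_le g (q * (p - 1) - (p - 1))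
  rw [abs_le] at h5 h6
  have h7 : (p : ℤ) ≤ 2 * height g := by linarith
  exact_mod_cast h7

/-- `B(p q^b) ≥ p (p + 1) / 2` for odd primes `p < q` and `b ≥ 3`. -/
theorem three_le {p q b : ℕ} (hp : p.Prime) (hq : q.Prime) (h2 : p ≠ 2) (hpq : p < q)
    (hb : 3 ≤ b) : p * (p + 1) ≤ 2 * maxDivisorHeight (p * q ^ b) := by
  obtain ⟨c, rfl⟩ : ∃ c, b = c + 1 := ⟨b - 1, by omega⟩
  rw [maxDivisorHeight_eq hp hq hpq]
  have h1 := le_two_mul_MM hp hq hpq
  have h3 := MM_mono hp hq hpq (show 2 ≤ c by omega)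
  have hodd : Odd p := hp.odd_of_ne_two h2
  obtain ⟨k, hk⟩ := hodd
  have h4 : p + 1 ≤ 2 * MM p q c := by omega
  calc p * (p + 1) ≤ p * (2 * MM p q c) := Nat.mul_le_mul_left _ h4
    _ = 2 * (p * MM p q c) := by ring

end Q262.Hgt
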