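import Pool.Agent.Q262.CycStep

/-!
The largest height of a divisor of `X^{p q^b} - 1`, for primes `p < q`, is `p` times the largest
height of a divisor of `∏_{1 ≤ i < b} Φ_{q^i} Φ_{p q^i}`.
-/

set_option autoImplicit false

open Polynomial Finset

namespace Q262.Hgt

/-- `∏_{1 ≤ i ≤ b} Φ_{q^i} Φ_{p q^i}`. -/
noncomputable def EE (p q b : ℕ) : ℤ[X] :=
  ∏ i ∈ range b, (cyclotomic (q ^ (i + 1)) ℤ * cyclotomic (p * q ^ (i + 1)) ℤ)

/-- Largest height of a divisor of `EE p q b`. -/
noncomputable def MM (p q b : ℕ) : ℕ := sSup {h | ∃ g : ℤ[X], g ∣ EE p q b ∧ height g = h}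

theorem divisorHeights_finite (n : ℕ) (hn : 0 < n) : (divisorHeights n).Finite := by
  apply ((n.divisors.powerset).image (fun t => height (∏ d ∈ t, cyclotomic d ℤ))).finite_toSet.subset
  rintro h ⟨f, hf, rfl⟩
  rw [← prod_cyclotomic_eq_X_pow_sub_one hn] at hf
  obtain ⟨t, ht, hassoc⟩ := dvd_prod_assoc n.divisors (fun d => cyclotomic d ℤ)
    (fun i hi => cyc_prime i (Nat.pos_of_mem_divisors hi)) f hf
  rw [Finset.coe_image, Set.mem_image]
  exact ⟨t, by simpa using ht, (height_assoc hassoc).symm⟩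

section

variable {p q : ℕ}

theorem expand_cyc_pow (hq : q.Prime) (i : ℕ) :
    expand ℤ q (cyclotomic (q ^ (i + 1)) ℤ) = cyclotomic (q ^ (i + 2)) ℤ := by
  rw [cyclotomic_expand_eq_cyclotomic hq (dvd_pow_self q (by omega))]
  rfl

theorem expand_cyc_p_pow (hq : q.Prime) (i : ℕ) :
    expand ℤ q (cyclotomic (p * q ^ (i + 1)) ℤ) = cyclotomic (p * q ^ (i + 2)) ℤ := by
  rw [cyclotomic_expand_eq_cyclotomic hq ((dvd_pow_self q (by omega)).mul_left p), mul_assoc]
  rfl

theorem EE_zero : EE p q 0 = 1 := by simp [EE]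

theorem EE_succ' (b : ℕ) : EE p q (b + 1) =
    cyclotomic (q ^ (b + 1)) ℤ * (cyclotomic (p * q ^ (b + 1)) ℤ * EE p q b) := by
  rw [EE, Finset.prod_range_succ, ← EE]; ring

theorem EE_succ (hq : q.Prime) (b : ℕ) : EE p q (b + 1) =
    (cyclotomic q ℤ * cyclotomic (p * q) ℤ) * expand ℤ q (EE p q b) := by
  rw [EE, Finset.prod_range_succ', EE, map_prod]
  rw [mul_comm]
  congr 1
  · simp
  · apply Finset.prod_congr rfl
    intro i _
    rw [map_mul, expand_cyc_pow hq, expand_cyc_p_pow hq]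

theorem X_pow_sub_one_eq (hp : p.Prime) (hq : q.Prime) (hpq : p < q) (b : ℕ) :
    (X : ℤ[X]) ^ (p * q ^ b) - 1 = cyclotomic 1 ℤ * (cyclotomic p ℤ * EE p q b) := by
  induction b with
  | zero =>
    have := Fact.mk hp
    rw [EE_zero, mul_one, cyclotomic_one, cyclotomic_prime, mul_geom_sum]
    simp
  | succ b ih =>
    have h1 : (X : ℤ[X]) ^ (p * q ^ (b + 1)) - 1 = expand ℤ q (X ^ (p * q ^ b) - 1) := by
      rw [map_sub, map_pow, expand_X, map_one, ← pow_mul]
      congr 2
      ring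
    rw [h1, ih, map_mul, map_mul, cyc_expand_one hq, cyc_expand_p hp hq hpq, EE_succ hq]
    ring

theorem dvd_expand_EE (hp : p.Prime) (hq : q.Prime) (b : ℕ) :
    ∀ f, f ∣ expand ℤ q (EE p q b) → ∃ g, g ∣ EE p q b ∧ Associated f (expand ℤ q g) := by
  induction b with
  | zero =>
    intro f hf
    refine ⟨1, one_dvd _, ?_⟩
    rw [EE_zero, map_one] at hf
    rw [map_one]
    exact associated_one_iff_isUnit.2 (isUnit_of_dvd_one hf)
  | succ b ih =>
    intro f hf
    rw [EE_succ', map_mul, map_mul, expand_cyc_pow hq, expand_cyc_p_pow hq] at hf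
    obtain ⟨a, f1, hf1, rfl⟩ := dvd_prime_mul_cases (cyc_prime _ (by positivity [hq.pos])) hf
    obtain ⟨c, f2, hf2, rfl⟩ := dvd_prime_mul_cases
      (cyc_prime _ (Nat.mul_pos hp.pos (pow_pos hq.pos _))) hf1
    obtain ⟨g, hg, hassoc⟩ := ih f2 hf2
    refine ⟨(if a then cyclotomic (q ^ (b + 1)) ℤ else 1) *
      ((if c then cyclotomic (p * q ^ (b + 1)) ℤ else 1) * g), ?_, ?_⟩
    · rw [EE_succ']
      refine mul_dvd_mul ?_ (mul_dvd_mul ?_ hg)
      · cases a <;> simp
      · cases c <;> simp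
    · rw [map_mul, map_mul]
      have e1 : expand ℤ q (if a then cyclotomic (q ^ (b + 1)) ℤ else 1)
          = (if a then cyclotomic (q ^ (b + 2)) ℤ else 1) := by
        cases a <;> simp [expand_cyc_pow hq]
      have e2 : expand ℤ q (if c then cyclotomic (p * q ^ (b + 1)) ℤ else 1)
          = (if c then cyclotomic (p * q ^ (b + 2)) ℤ else 1) := by
        cases c
        · simp
        · simp only [if_true]
          exact expand_cyc_p_pow hq b
      rw [e1, e2]
      exact (hassoc.mul_left _).mul_left _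

theorem EE_dvd (hp : p.Prime) (hq : q.Prime) (hpq : p < q) (b : ℕ) :
    EE p q b ∣ X ^ (p * q ^ b) - 1 := by
  rw [X_pow_sub_one_eq hp hq hpq]
  exact (dvd_mul_left _ _).mul_left _

theorem MM_set_bdd (hp : p.Prime) (hq : q.Prime) (hpq : p < q) (b : ℕ) :
    BddAbove {h | ∃ g : ℤ[X], g ∣ EE p q b ∧ height g = h} := by
  apply ((divisorHeights_finite (p * q ^ b)
    (Nat.mul_pos hp.pos (pow_pos hq.pos _))).subset ?_).bddAbove
  rintro h ⟨g, hg, rfl⟩
  exact ⟨g, hg.trans (EE_dvd hp hq hpq b), rfl⟩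

theorem le_MM (hp : p.Prime) (hq : q.Prime) (hpq : p < q) (b : ℕ) {g : ℤ[X]}
    (hg : g ∣ EE p q b) : height g ≤ MM p q b :=
  le_csSup (MM_set_bdd hp hq hpq b) ⟨g, hg, rfl⟩

theorem exists_MM (hp : p.Prime) (hq : q.Prime) (hpq : p < q) (b : ℕ) :
    ∃ g, g ∣ EE p q b ∧ height g = MM p q b :=
  Nat.sSup_mem (s := {h | ∃ g : ℤ[X], g ∣ EE p q b ∧ height g = h})
    ⟨height 1, 1, one_dvd _, rfl⟩ (MM_set_bdd hp hq hpq b)

theorem MM_mono (hp : p.Prime) (hq : q.Prime) (hpq : p < q) {b c : ℕ} (h : b ≤ c) :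
    MM p q b ≤ MM p q c := by
  obtain ⟨g, hg, hM⟩ := exists_MM hp hq hpq b
  rw [← hM]
  apply le_MM hp hq hpq
  apply hg.trans
  unfold EE
  exact Finset.prod_dvd_prod_of_subset _ _ _ (Finset.range_mono h)

theorem upper_step (hp : p.Prime) (hq : q.Prime) (hpq : p < q) (b : ℕ)
    (ih : ∀ f, f ∣ X ^ (p * q ^ b) - 1 → height f ≤ p * MM p q b) :
    ∀ f, f ∣ X ^ (p * q ^ (b + 1)) - 1 → height f ≤ p * MM p q b := by
  intro f hf
  rw [X_pow_sub_one_eq hp hq hpq, EE_succ hq] at hf
  have e : cyclotomic 1 ℤ * (cyclotomic p ℤ *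
      (cyclotomic q ℤ * cyclotomic (p * q) ℤ * expand ℤ q (EE p q b)))
      = (cyclotomic 1 ℤ * (cyclotomic p ℤ * (cyclotomic q ℤ * cyclotomic (p * q) ℤ)))
        * expand ℤ q (EE p q b) := by ring
  rw [e] at hf
  obtain ⟨A, f', hA, hf', rfl⟩ := exists_dvd_and_dvd_of_dvd_mul hf
  obtain ⟨g, hg, hassoc⟩ := dvd_expand_EE hp hq b f' hf'
  rw [height_assoc (hassoc.mul_left A)]
  have := step_bound hp hq hpq (EE p q b) (MM p q b) (p * MM p q b)
    (fun g hg => le_MM hp hq hpq b hg)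
    (fun h hh => ih h (by rw [X_pow_sub_one_eq hp hq hpq]; exact hh)) A g hg hA
  simpa using this

theorem upper_all (hp : p.Prime) (hq : q.Prime) (hpq : p < q) (b : ℕ) :
    ∀ f, f ∣ X ^ (p * q ^ b) - 1 → height f ≤ p * MM p q b := by
  induction b with
  | zero =>
    intro f hf
    have h1 : height f ≤ 1 := by
      rw [X_pow_sub_one_eq hp hq hpq, EE_zero] at hf
      obtain ⟨a, A1, hA1, rfl⟩ := dvd_prime_mul_cases (cyc_prime 1 one_pos) hf
      obtain ⟨b, A2, hA2, rfl⟩ := dvd_prime_mul_cases (cyc_prime p hp.pos) hA1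
      have hu : IsUnit A2 := isUnit_of_dvd_one hA2
      have hassoc : Associated ((if a then cyclotomic 1 ℤ else 1) *
          ((if b then cyclotomic p ℤ else 1) * A2))
          ((if a then cyclotomic 1 ℤ else 1) * (if b then cyclotomic p ℤ else 1)) := by
        rw [← mul_assoc]
        exact associated_mul_unit_left _ _ hu
      rw [height_assoc hassoc]
      have := Fact.mk hp
      cases a <;> cases b <;> simp only [if_true, if_false, Bool.false_eq_true, one_mul, mul_one]
      · exact height_one.le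
      · rw [cyclotomic_prime]; exact height_geom_le p
      · rw [height_le_iff, cyclotomic_one]
        intro n
        rw [coeff_sub, coeff_X, coeff_one]
        split_ifs <;> first | omega | simp
      · have e : cyclotomic 1 ℤ * cyclotomic p ℤ = X ^ p - 1 := by
          rw [cyclotomic_one, cyclotomic_prime]
          exact mul_geom_sum X p
        rw [e, height_le_iff]
        intro n
        rw [coeff_sub, coeff_X_pow, coeff_one]
        have := hp.pos
        split_ifs <;> first | omega | simp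
    have h2 : 1 ≤ MM p q 0 := by
      have := le_MM hp hq hpq 0 (one_dvd (EE p q 0))
      rwa [height_one] at this
    calc height f ≤ 1 * 1 := by simpa using h1
      _ ≤ p * MM p q 0 := Nat.mul_le_mul hp.pos h2
  | succ b ih =>
    intro f hf
    exact (upper_step hp hq hpq b ih f hf).trans
      (Nat.mul_le_mul_left _ (MM_mono hp hq hpq (Nat.le_succ b)))

theorem coeff_geom_mul (n m : ℕ) (F : ℤ[X]) :
    ((∑ i ∈ range m, (X : ℤ[X]) ^ i) * F).coeff n
      = ∑ i ∈ range m, (if i ≤ n then F.coeff (n - i) else 0) := by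
  rw [Finset.sum_mul, finsetSum_coeff]
  apply Finset.sum_congr rfl
  intro i _
  rw [X_pow_mul, coeff_mul_X_pow']

theorem coeff_geom_expand (hq : 0 < q) (g : ℤ[X]) (n : ℕ) :
    ((∑ i ∈ range q, (X : ℤ[X]) ^ i) * expand ℤ q g).coeff n = g.coeff (n / q) := by
  rw [coeff_geom_mul]
  rw [Finset.sum_eq_single (n % q)]
  · rw [if_pos (Nat.mod_le _ _), coeff_expand hq, if_pos (Nat.dvd_sub_mod n)]
    congr 1
    have h1 := Nat.div_add_mod n q
    have h2 : n - n % q = q * (n / q) := by omega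
    rw [h2, Nat.mul_div_cancel_left _ hq]
  · intro i hi hne
    rw [Finset.mem_range] at hi
    split_ifs with h
    · rw [coeff_expand hq, if_neg]
      intro hd
      apply hne
      have h6 : i ≡ n [MOD q] := (Nat.modEq_iff_dvd' h).2 hd
      have h7 : i % q = n % q := h6
      rw [← h7, Nat.mod_eq_of_lt hi]
    · rfl
  · intro h
    exact absurd (Finset.mem_range.2 (Nat.mod_lt n hq)) h

theorem lower (hp : p.Prime) (hq : q.Prime) (hpq : p < q) (g : ℤ[X]) :
    p * height g ≤ height (cyclotomic p ℤ * (cyclotomic q ℤ * expand ℤ q g)) := by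
  obtain ⟨k, hk⟩ := exists_coeff g
  have h1 := abs_coeff_le (cyclotomic p ℤ * (cyclotomic q ℤ * expand ℤ q g)) (q - 1 + q * k)
  have h2 : (cyclotomic p ℤ * (cyclotomic q ℤ * expand ℤ q g)).coeff (q - 1 + q * k)
      = p * g.coeff k := by
    have i1 := Fact.mk hp
    have i2 := Fact.mk hq
    rw [cyclotomic_prime ℤ p, cyclotomic_prime ℤ q, coeff_geom_mul]
    rw [Finset.sum_congr rfl (g := fun _ => g.coeff k)]
    · simp
    · intro i hi
      rw [Finset.mem_range] at hi
      rw [if_pos (by omega), coeff_geom_expand hq.pos]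
      congr 1
      have h3 : q - 1 + q * k - i = (q - 1 - i) + q * k := by omega
      rw [h3, Nat.add_mul_div_left _ _ hq.pos, Nat.div_eq_of_lt (by omega), zero_add]
  rw [h2, abs_mul, hk, Nat.abs_cast] at h1
  exact_mod_cast h1

theorem lower_dvd (hp : p.Prime) (hq : q.Prime) (hpq : p < q) (b : ℕ) (g : ℤ[X])
    (hg : g ∣ EE p q b) :
    cyclotomic p ℤ * (cyclotomic q ℤ * expand ℤ q g) ∣ X ^ (p * q ^ (b + 1)) - 1 := by
  obtain ⟨c, hc⟩ := hg
  rw [X_pow_sub_one_eq hp hq hpq, EE_succ hq, hc, map_mul]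
  refine ⟨cyclotomic 1 ℤ * cyclotomic (p * q) ℤ * expand ℤ q c, ?_⟩
  ring

/-- The main formula: the largest height of a divisor of `X^{p q^{b+1}} - 1`. -/
theorem main_formula (hp : p.Prime) (hq : q.Prime) (hpq : p < q) (b : ℕ) :
    IsGreatest (divisorHeights (p * q ^ (b + 1))) (p * MM p q b) := by
  have hup := upper_step hp hq hpq b (upper_all hp hq hpq b)
  constructor
  · obtain ⟨g, hg, hM⟩ := exists_MM hp hq hpq b
    refine ⟨cyclotomic p ℤ * (cyclotomic q ℤ * expand ℤ q g), lower_dvd hp hq hpq b g hg, ?_⟩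
    apply le_antisymm
    · exact hup _ (lower_dvd hp hq hpq b g hg)
    · rw [← hM]
      exact lower hp hq hpq g
  · rintro h ⟨f, hf, rfl⟩
    exact hup f hf

end

end Q262.Hgt
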