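import Pool.Agent.Q262.Height

/-!
Heights of `Φ_{pq}(x) g(x^q)` and `(1-x) Φ_{pq}(x) g(x^q)`.
-/

set_option autoImplicit false

open Polynomial Finset

namespace Q262.Hgt

/-- Coefficients indexed by integers. -/
def zc (f : ℤ[X]) (n : ℤ) : ℤ := if 0 ≤ n then f.coeff n.toNat else 0

theorem zc_neg {f : ℤ[X]} {n : ℤ} (h : n < 0) : zc f n = 0 := by
  rw [zc, if_neg (by omega)]

theorem zc_nat (f : ℤ[X]) (n : ℕ) : zc f n = f.coeff n := by
  rw [zc, if_pos (by positivity), Int.toNat_natCast]

theorem abs_zc_le (f : ℤ[X]) (n : ℤ) : |zc f n| ≤ height f := by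
  rw [zc]
  split_ifs
  · exact abs_coeff_le _ _
  · simp

theorem zc_one_sub_mul (f : ℤ[X]) (k : ℕ) (n : ℤ) :
    zc ((1 - X ^ k) * f) n = zc f n - zc f (n - k) := by
  rcases lt_or_ge n 0 with h | h
  · rw [zc_neg h, zc_neg h, zc_neg (by omega)]; rfl
  · obtain ⟨m, rfl⟩ := Int.eq_ofNat_of_zero_le h
    rw [zc_nat, zc_nat, sub_mul, one_mul, coeff_sub, X_pow_mul, coeff_mul_X_pow']
    congr 1
    split_ifs with h2
    · rw [← Nat.cast_sub h2, zc_nat]
    · rw [zc_neg (by omega)]

variable (p q : ℕ) (u : ℤ)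

/-- The residue `n u mod q`. -/
def io (n : ℤ) : ℤ := (n * u) % q

/-- `(n - p (n u mod q)) / q`. -/
def ka (n : ℤ) : ℤ := (n - p * io q u n) / q

section

variable {p q u}

theorem io_nonneg (hq : 0 < q) (n : ℤ) : 0 ≤ io q u n :=
  Int.emod_nonneg _ (by exact_mod_cast hq.ne')

theorem io_lt (hq : 0 < q) (n : ℤ) : io q u n < q :=
  Int.emod_lt_of_pos _ (by exact_mod_cast hq)

theorem io_dvd (hu : (q : ℤ) ∣ p * u - 1) (n : ℤ) : (q : ℤ) ∣ n - p * io q u n := by
  have h1 : (q : ℤ) ∣ n * u - io q u n := by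
    unfold io
    exact Int.dvd_self_sub_emod
  have h2 : n - p * io q u n = p * (n * u - io q u n) - n * (p * u - 1) := by ring
  rw [h2]
  exact dvd_sub (Dvd.dvd.mul_left h1 _) (Dvd.dvd.mul_left hu _)

theorem ka_mul (hu : (q : ℤ) ∣ p * u - 1) (n : ℤ) : (q : ℤ) * ka p q u n = n - p * io q u n := by
  unfold ka
  exact Int.mul_ediv_cancel' (io_dvd hu n)

theorem io_unique (hq : 0 < q) (hu : (q : ℤ) ∣ p * u - 1) (n i : ℤ) (h0 : 0 ≤ i) (h1 : i < q)
    (hd : (q : ℤ) ∣ n - p * i) : i = io q u n := by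
  have h2 : (q : ℤ) ∣ i - io q u n := by
    have h3 := io_dvd hu n
    have h4 : (q : ℤ) ∣ p * (i - io q u n) := by
      have : p * (i - io q u n) = (n - p * io q u n) - (n - p * i) := by ring
      rw [this]
      exact dvd_sub h3 hd
    have h5 : i - io q u n = u * (p * (i - io q u n)) - (i - io q u n) * (p * u - 1) := by ring
    rw [h5]
    exact dvd_sub (Dvd.dvd.mul_left h4 _) (Dvd.dvd.mul_left hu _)
  have h6 := io_nonneg (u := u) hq n
  have h7 := io_lt (u := u) hq n
  have h8 : i - io q u n = 0 := by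
    apply Int.eq_zero_of_abs_lt_dvd h2
    rw [abs_lt]; constructor <;> omega
  omega

theorem io_sub (n : ℤ) : io q u (n - q) = io q u n := by
  unfold io
  have : (n - q) * u = n * u + q * (-u) := by ring
  rw [this, Int.add_mul_emod_self_left]

theorem ka_sub (hq : 0 < q) (n : ℤ) : ka p q u (n - q) = ka p q u n - 1 := by
  unfold ka
  rw [io_sub]
  have hq' : (q : ℤ) ≠ 0 := by exact_mod_cast hq.ne'
  have : n - (q : ℤ) - p * io q u n = (n - p * io q u n) + q * (-1) := by ring
  rw [this, Int.add_mul_ediv_left _ _ hq']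
  ring

theorem ka_neg (hq : 0 < q) (hu : (q : ℤ) ∣ p * u - 1) {n : ℤ} (hn : n < 0) : ka p q u n < 0 := by
  have h1 := ka_mul hu n
  have h2 := io_nonneg (u := u) hq n
  have h3 : (0 : ℤ) ≤ p * io q u n := by positivity
  have h4 : (q : ℤ) * ka p q u n < 0 := by omega
  by_contra h5
  push Not at h5
  have : (0 : ℤ) ≤ q * ka p q u n := by positivity
  omega

theorem io_step (hq : 0 < q) (n : ℤ) :
    io q u n - io q u (n - 1) = u % q ∨ io q u n - io q u (n - 1) = u % q - q := by
  have h1 : (q : ℤ) ∣ (io q u n - io q u (n - 1)) - u % q := by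
    have a1 : (q : ℤ) ∣ n * u - io q u n := by unfold io; exact Int.dvd_self_sub_emod
    have a2 : (q : ℤ) ∣ (n - 1) * u - io q u (n - 1) := by unfold io; exact Int.dvd_self_sub_emod
    have a3 : (q : ℤ) ∣ u - u % q := Int.dvd_self_sub_emod
    have : (io q u n - io q u (n - 1)) - u % q
      = ((n - 1) * u - io q u (n - 1)) - (n * u - io q u n) + (u - u % q) := by ring
    rw [this]
    exact dvd_add (dvd_sub a2 a1) a3
  have hq' : (0 : ℤ) < q := by exact_mod_cast hq
  have b1 := io_nonneg (u := u) hq n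
  have b2 := io_lt (u := u) hq n
  have b3 := io_nonneg (u := u) hq (n - 1)
  have b4 := io_lt (u := u) hq (n - 1)
  have b5 := Int.emod_nonneg u hq'.ne'
  have b6 := Int.emod_lt_of_pos u hq'
  obtain ⟨c, hc⟩ := h1
  have hc1 : c < 1 := by
    by_contra h
    push Not at h
    have : (q : ℤ) * 1 ≤ q * c := by nlinarith
    omega
  have hc2 : -2 < c := by
    by_contra h
    push Not at h
    have : (q : ℤ) * c ≤ q * (-2) := by nlinarith
    omega
  have hc3 : c = 0 ∨ c = -1 := by omega
  rcases hc3 with rfl | rfl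
  · left; omega
  · right; omega

/-- `|κ n - κ (n-1)| ≤ p`. -/
theorem ka_step_abs (hp : 0 < p) (hq : 0 < q) (hu : (q : ℤ) ∣ p * u - 1) (n : ℤ) :
    |ka p q u n - ka p q u (n - 1)| ≤ p := by
  have h1 := ka_mul hu n
  have h2 := ka_mul hu (n - 1)
  have b1 := io_nonneg (u := u) hq n
  have b2 := io_lt (u := u) hq n
  have b3 := io_nonneg (u := u) hq (n - 1)
  have b4 := io_lt (u := u) hq (n - 1)
  have hq' : (0 : ℤ) < q := by exact_mod_cast hq
  have hp' : (0 : ℤ) < p := by exact_mod_cast hp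
  have h3 : (q : ℤ) * (ka p q u n - ka p q u (n - 1)) = 1 - p * (io q u n - io q u (n - 1)) := by
    rw [mul_sub, h1, h2]; ring
  have b5 : io q u n - io q u (n - 1) ≤ q - 1 := by omega
  have b6 : -(q - 1 : ℤ) ≤ io q u n - io q u (n - 1) := by omega
  have b7 : (p : ℤ) * (io q u n - io q u (n - 1)) ≤ p * (q - 1) :=
    mul_le_mul_of_nonneg_left b5 hp'.le
  have b8 : (p : ℤ) * (-(q - 1)) ≤ p * (io q u n - io q u (n - 1)) :=
    mul_le_mul_of_nonneg_left b6 hp'.le
  rw [abs_le]
  constructor
  · have : (q : ℤ) * (-p) ≤ q * (ka p q u n - ka p q u (n - 1)) := by rw [h3]; nlinarith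
    exact le_of_mul_le_mul_left this hq'
  · have : (q : ℤ) * (ka p q u n - ka p q u (n - 1)) ≤ q * p := by rw [h3]; nlinarith
    exact le_of_mul_le_mul_left this hq'

/-- `|κ n - κ (n-1)| + |κ (n-1) - κ (n-2)| ≤ p`. -/
theorem ka_two_step (hp : 2 ≤ p) (hq : 0 < q) (hu : (q : ℤ) ∣ p * u - 1) (n : ℤ) :
    |ka p q u n - ka p q u (n - 1)| + |ka p q u (n - 1) - ka p q u (n - 2)| ≤ p := by
  have h1 := ka_mul hu n
  have h2 := ka_mul hu (n - 1)
  have h2' := ka_mul hu (n - 2)
  have hq' : (0 : ℤ) < q := by exact_mod_cast hq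
  have hp' : (2 : ℤ) ≤ p := by exact_mod_cast hp
  have b1 := io_nonneg (u := u) hq n
  have b2 := io_lt (u := u) hq n
  have b3 := io_nonneg (u := u) hq (n - 2)
  have b4 := io_lt (u := u) hq (n - 2)
  -- sum
  have hs : |ka p q u n - ka p q u (n - 2)| ≤ p := by
    have h3 : (q : ℤ) * (ka p q u n - ka p q u (n - 2)) = 2 - p * (io q u n - io q u (n - 2)) := by
      rw [mul_sub, h1, h2']; ring
    have b5 : io q u n - io q u (n - 2) ≤ q - 1 := by omega
    have b6 : -(q - 1 : ℤ) ≤ io q u n - io q u (n - 2) := by omega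
    have b7 : (p : ℤ) * (io q u n - io q u (n - 2)) ≤ p * (q - 1) :=
      mul_le_mul_of_nonneg_left b5 (by omega)
    have b8 : (p : ℤ) * (-(q - 1)) ≤ p * (io q u n - io q u (n - 2)) :=
      mul_le_mul_of_nonneg_left b6 (by omega)
    rw [abs_le]
    constructor
    · have : (q : ℤ) * (-p) ≤ q * (ka p q u n - ka p q u (n - 2)) := by rw [h3]; nlinarith
      exact le_of_mul_le_mul_left this hq'
    · have : (q : ℤ) * (ka p q u n - ka p q u (n - 2)) ≤ q * p := by rw [h3]; nlinarith
      exact le_of_mul_le_mul_left this hq'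
  -- difference
  have hd : |(ka p q u n - ka p q u (n - 1)) - (ka p q u (n - 1) - ka p q u (n - 2))| ≤ p := by
    have h3 : (q : ℤ) * ((ka p q u n - ka p q u (n - 1)) - (ka p q u (n - 1) - ka p q u (n - 2)))
        = -p * ((io q u n - io q u (n - 1)) - (io q u (n - 1) - io q u (n - 2))) := by
      rw [mul_sub, mul_sub, mul_sub, h1, h2, h2']; ring
    have s1 := io_step (u := u) hq n
    have s2 := io_step (u := u) hq (n - 1)
    have e : n - 1 - 1 = n - 2 := by ring
    rw [e] at s2
    have s3 : (io q u n - io q u (n - 1)) - (io q u (n - 1) - io q u (n - 2)) = 0 ∨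
        (io q u n - io q u (n - 1)) - (io q u (n - 1) - io q u (n - 2)) = q ∨
        (io q u n - io q u (n - 1)) - (io q u (n - 1) - io q u (n - 2)) = -q := by
      rcases s1 with s1 | s1 <;> rcases s2 with s2 | s2 <;> omega
    have key : ∀ x : ℤ, (q : ℤ) * x = q * p ∨ (q : ℤ) * x = -(q * p) ∨ (q : ℤ) * x = 0 →
        |x| ≤ p := by
      intro x hx
      have hqn : (q : ℤ) ≠ 0 := hq'.ne'
      rcases hx with hx | hx | hx
      · have : x = p := mul_left_cancel₀ hqn hx
        rw [this, abs_of_nonneg (by positivity)]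
      · have : x = -p := mul_left_cancel₀ hqn (by rw [hx]; ring)
        rw [this, abs_neg, abs_of_nonneg (by positivity)]
      · have : x = 0 := by
          rcases mul_eq_zero.1 hx with h | h
          · exact absurd h hqn
          · exact h
        rw [this]; simp
    apply key
    rw [h3]
    rcases s3 with s3 | s3 | s3 <;> rw [s3]
    · right; right; ring
    · right; left; ring
    · left; ring
  set a := ka p q u n - ka p q u (n - 1) with ha
  set b := ka p q u (n - 1) - ka p q u (n - 2) with hb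
  have hab : ka p q u n - ka p q u (n - 2) = a + b := by rw [ha, hb]; ring
  rw [hab] at hs
  rw [abs_le] at hs hd
  rcases abs_cases a with ⟨e1, _⟩ | ⟨e1, _⟩ <;> rcases abs_cases b with ⟨e2, _⟩ | ⟨e2, _⟩ <;>
    rw [e1, e2] <;> omega

end

/-- Partial sums of the coefficients. -/
def ps (g : ℤ[X]) (k : ℤ) : ℤ := ∑ m ∈ range (k + 1).toNat, g.coeff m

theorem ps_neg {g : ℤ[X]} {k : ℤ} (h : k < 0) : ps g k = 0 := by
  have : (k + 1).toNat = 0 := by omega
  rw [ps, this]; simp

theorem ps_sub (g : ℤ[X]) (k : ℤ) : ps g k - ps g (k - 1) = zc g k := by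
  rcases lt_or_ge k 0 with h | h
  · rw [ps_neg h, ps_neg (by omega), zc_neg h]; rfl
  · obtain ⟨m, rfl⟩ := Int.eq_ofNat_of_zero_le h
    rw [zc_nat, ps, ps]
    have h1 : ((m : ℤ) + 1).toNat = m + 1 := by omega
    have h2 : ((m : ℤ) - 1 + 1).toNat = m := by omega
    rw [h1, h2, Finset.sum_range_succ]
    ring

theorem ps_lip (g : ℤ[X]) (a b : ℤ) : |ps g a - ps g b| ≤ |a - b| * height g := by
  have key : ∀ (n : ℕ) (b : ℤ), |ps g (b + n) - ps g b| ≤ n * height g := by
    intro n
    induction n with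
    | zero => intro b; simp
    | succ n ih =>
      intro b
      have h1 := ih b
      have h2 : ps g (b + (n + 1 : ℕ)) - ps g (b + n) = zc g (b + (n + 1 : ℕ)) := by
        rw [← ps_sub]
        congr 2
        push_cast; ring
      have h3 := abs_zc_le g (b + (n + 1 : ℕ))
      calc |ps g (b + (n + 1 : ℕ)) - ps g b|
          = |(ps g (b + (n + 1 : ℕ)) - ps g (b + n)) + (ps g (b + n) - ps g b)| := by ring_nf
        _ ≤ |ps g (b + (n + 1 : ℕ)) - ps g (b + n)| + |ps g (b + n) - ps g b| := abs_add_le _ _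
        _ ≤ height g + n * height g := by rw [h2]; exact add_le_add h3 h1
        _ = ((n + 1 : ℕ) : ℤ) * height g := by push_cast; ring
  rcases le_total a b with h | h
  · obtain ⟨n, hn⟩ := Int.eq_ofNat_of_zero_le (sub_nonneg.2 h)
    have : b = a + n := by omega
    rw [this, abs_sub_comm, show a - (a + (n : ℤ)) = -n by ring, abs_neg, Nat.abs_cast]
    exact key n a
  · obtain ⟨n, hn⟩ := Int.eq_ofNat_of_zero_le (sub_nonneg.2 h)
    have : a = b + n := by omega
    rw [this, show b + (n : ℤ) - b = n by ring, Nat.abs_cast]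
    exact key n b

variable {p q u}

/-- Coefficients of `Φ_q(x^p) g(x^q)`. -/
theorem zc_F1 (hq : 0 < q) (hu : (q : ℤ) ∣ p * u - 1) (g : ℤ[X]) (n : ℤ) :
    zc ((∑ i ∈ range q, (X : ℤ[X]) ^ (p * i)) * expand ℤ q g) n = zc g (ka p q u n) := by
  rcases lt_or_ge n 0 with h | h
  · rw [zc_neg h, zc_neg (ka_neg hq hu h)]
  · obtain ⟨m, rfl⟩ := Int.eq_ofNat_of_zero_le h
    rw [zc_nat, Finset.sum_mul, finsetSum_coeff]
    have hi0 := io_nonneg (u := u) hq m
    have hi1 := io_lt (u := u) hq m
    have hk := ka_mul hu m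
    have hterm : ∀ i ∈ range q, (X ^ (p * i) * expand ℤ q g).coeff m
        = if i = (io q u m).toNat then zc g (ka p q u m) else 0 := by
      intro i hi
      rw [Finset.mem_range] at hi
      rw [X_pow_mul, coeff_mul_X_pow', coeff_expand hq]
      by_cases hle : p * i ≤ m
      · rw [if_pos hle]
        by_cases hd : q ∣ m - p * i
        · rw [if_pos hd]
          have hd' : (q : ℤ) ∣ (m : ℤ) - p * i := by
            have := Int.natCast_dvd_natCast.2 hd
            rw [Nat.cast_sub hle] at this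
            push_cast at this
            exact this
          have he := io_unique hq hu m i (by positivity) (by exact_mod_cast hi) hd'
          rw [if_pos (by omega)]
          obtain ⟨c, hc⟩ := hd
          have h3 : (q : ℤ) * ka p q u m = q * c := by
            rw [hk, ← he]
            have h4 : ((m - p * i : ℕ) : ℤ) = ((q * c : ℕ) : ℤ) := by rw [hc]
            rw [Nat.cast_sub hle] at h4
            push_cast at h4
            exact h4
          have h5 : ka p q u m = c := mul_left_cancel₀ (by exact_mod_cast hq.ne') h3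
          rw [h5, zc_nat, hc, Nat.mul_div_cancel_left _ hq]
        · rw [if_neg hd, if_neg]
          intro he
          apply hd
          have h3 : (i : ℤ) = io q u m := by omega
          have h4 : (q : ℤ) ∣ ((m - p * i : ℕ) : ℤ) := by
            rw [Nat.cast_sub hle]
            push_cast
            rw [h3]
            exact io_dvd hu m
          exact_mod_cast h4
      · rw [if_neg hle]
        split_ifs with he
        · have h3 : (i : ℤ) = io q u m := by omega
          rw [zc_neg]
          have h4 : (m : ℤ) < p * i := by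
            have : m < p * i := by omega
            exact_mod_cast this
          rw [h3] at h4
          have h5 : (q : ℤ) * ka p q u m < 0 := by rw [hk]; linarith
          by_contra h6
          push Not at h6
          have : (0 : ℤ) ≤ q * ka p q u m := by positivity
          omega
        · rfl
    rw [Finset.sum_congr rfl hterm, Finset.sum_ite_eq', if_pos]
    rw [Finset.mem_range]
    omega

/-- Telescoping along `n, n - q, n - 2q, …`. -/
theorem telescope (hq : 0 < q) (A B : ℤ → ℤ) (hA : ∀ n, n < 0 → A n = 0)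
    (hB : ∀ n, n < 0 → B n = 0) (h : ∀ n, A n - A (n - q) = B n - B (n - q)) : ∀ n, A n = B n := by
  have key : ∀ N : ℕ, ∀ n : ℤ, n < N → A n = B n := by
    intro N
    induction N with
    | zero =>
      intro n hn
      rw [hA n (by simpa using hn), hB n (by simpa using hn)]
    | succ N ih =>
      intro n hn
      have h1 : A (n - q) = B (n - q) := by
        apply ih
        push_cast at hn
        omega
      have h2 := h n
      rw [h1] at h2
      linarith
  intro n
  exact key (n.toNat + 1) n (by push_cast; omega)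

theorem height_phi_pq (hp : 2 ≤ p) (hq : 0 < q) (hu : (q : ℤ) ∣ p * u - 1) (f g : ℤ[X])
    (hf : (1 - X ^ q) * f = (1 - X) * ((∑ i ∈ range q, (X : ℤ[X]) ^ (p * i)) * expand ℤ q g)) :
    height f ≤ p * height g := by
  have h1 : ∀ n, zc f n = ps g (ka p q u n) - ps g (ka p q u (n - 1)) := by
    apply telescope hq
    · intro n hn; exact zc_neg hn
    · intro n hn
      rw [ps_neg (ka_neg hq hu hn), ps_neg (ka_neg hq hu (by omega))]; rfl
    · intro n
      have h2 := zc_one_sub_mul f q n
      rw [hf, ← pow_one (X : ℤ[X])] at h2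
      have h3 := zc_one_sub_mul ((∑ i ∈ range q, ((X : ℤ[X]) ^ 1) ^ (p * i)) * expand ℤ q g) 1 n
      rw [h3] at h2
      simp only [pow_one] at h2
      rw [zc_F1 hq hu, zc_F1 hq hu, ← ps_sub, ← ps_sub] at h2
      have e1 : ka p q u (n - q) = ka p q u n - 1 := ka_sub hq n
      have e2 : ka p q u (n - q - 1) = ka p q u (n - 1) - 1 := by
        rw [← ka_sub hq]; congr 1; ring
      rw [e1, e2, ← h2]
      push_cast
      ring
  rw [height_le_iff]
  intro n
  rw [← zc_nat, h1]
  refine (ps_lip _ _ _).trans ?_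
  push_cast
  exact mul_le_mul_of_nonneg_right (ka_step_abs (by omega) hq hu _) (by positivity)

theorem height_phi_one_pq (hp : 2 ≤ p) (hq : 0 < q) (hu : (q : ℤ) ∣ p * u - 1) (f g : ℤ[X])
    (hf : (1 - X ^ q) * f =
      (1 - X) * ((1 - X) * ((∑ i ∈ range q, (X : ℤ[X]) ^ (p * i)) * expand ℤ q g))) :
    height f ≤ p * height g := by
  have h1 : ∀ n, zc f n = (ps g (ka p q u n) - ps g (ka p q u (n - 1)))
      - (ps g (ka p q u (n - 1)) - ps g (ka p q u (n - 2))) := by
    apply telescope hq
    · intro n hn; exact zc_neg hn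
    · intro n hn
      rw [ps_neg (ka_neg hq hu hn), ps_neg (ka_neg hq hu (n := n - 1) (by omega)),
        ps_neg (ka_neg hq hu (n := n - 2) (by omega))]; rfl
    · intro n
      have h2 := zc_one_sub_mul f q n
      rw [hf, ← pow_one (X : ℤ[X])] at h2
      have h3 := zc_one_sub_mul ((1 - (X : ℤ[X]) ^ 1) *
        ((∑ i ∈ range q, ((X : ℤ[X]) ^ 1) ^ (p * i)) * expand ℤ q g)) 1 n
      have h4 := zc_one_sub_mul ((∑ i ∈ range q, ((X : ℤ[X]) ^ 1) ^ (p * i)) * expand ℤ q g) 1 n
      have h5 := zc_one_sub_mul ((∑ i ∈ range q, ((X : ℤ[X]) ^ 1) ^ (p * i)) * expand ℤ q g) 1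
        (n - (1 : ℕ))
      rw [h3, h4, h5] at h2
      simp only [pow_one] at h2
      rw [zc_F1 hq hu, zc_F1 hq hu, zc_F1 hq hu, ← ps_sub, ← ps_sub, ← ps_sub] at h2
      have e1 : ka p q u (n - q) = ka p q u n - 1 := ka_sub hq n
      have e2 : ka p q u (n - q - 1) = ka p q u (n - 1) - 1 := by
        rw [← ka_sub hq]; congr 1; ring
      have e3 : ka p q u (n - q - 2) = ka p q u (n - 2) - 1 := by
        rw [← ka_sub hq]; congr 1; ring
      have e4 : n - ((1 : ℕ) : ℤ) - ((1 : ℕ) : ℤ) = n - 2 := by push_cast; ring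
      rw [e4] at h2
      rw [e1, e2, e3, ← h2]
      push_cast
      ring
  rw [height_le_iff]
  intro n
  rw [← zc_nat, h1]
  have a1 := ps_lip g (ka p q u n) (ka p q u ((n : ℤ) - 1))
  have a2 := ps_lip g (ka p q u ((n : ℤ) - 1)) (ka p q u ((n : ℤ) - 2))
  have a3 := ka_two_step hp hq hu n
  calc |(ps g (ka p q u n) - ps g (ka p q u ((n : ℤ) - 1)))
      - (ps g (ka p q u ((n : ℤ) - 1)) - ps g (ka p q u ((n : ℤ) - 2)))|
      ≤ |ps g (ka p q u n) - ps g (ka p q u ((n : ℤ) - 1))|
        + |ps g (ka p q u ((n : ℤ) - 1)) - ps g (ka p q u ((n : ℤ) - 2))| := abs_sub _ _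
    _ ≤ (|ka p q u n - ka p q u ((n : ℤ) - 1)| + |ka p q u ((n : ℤ) - 1) - ka p q u ((n : ℤ) - 2)|)
        * height g := by rw [add_mul]; exact add_le_add a1 a2
    _ ≤ p * height g := mul_le_mul_of_nonneg_right a3 (by positivity)
    _ = ((p * height g : ℕ) : ℤ) := by push_cast; ring

end Q262.Hgt
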