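import Pool.Agent.Q262.CycRows

/-!
The sixteen cases: heights of `A(x) g(x^q)` with `A ∣ Φ_1 Φ_p Φ_q Φ_{pq}`.
-/

set_option autoImplicit false

open Polynomial Finset

namespace Q262.Hgt

theorem dvd_prime_mul_cases {P B f : ℤ[X]} (hP : Prime P) (h : f ∣ P * B) :
    ∃ (a : Bool) (g : ℤ[X]), g ∣ B ∧ f = (if a then P else 1) * g := by
  by_cases hd : P ∣ f
  · obtain ⟨g, rfl⟩ := hd
    exact ⟨true, g, (mul_dvd_mul_iff_left hP.ne_zero).1 h, by simp⟩
  · refine ⟨false, f, ?_, by simp⟩
    have hrel : IsRelPrime f P := by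
      intro c hcf hca
      rcases hP.irreducible.dvd_iff.1 hca with h | h
      · exact h
      · exact absurd (h.dvd.trans hcf) hd
    exact hrel.dvd_of_dvd_mul_left h

theorem cyc_prime (n : ℕ) (hn : 0 < n) : Prime (cyclotomic n ℤ) :=
  (cyclotomic.irreducible hn).prime

theorem height_expand {q : ℕ} (hq : 0 < q) (g : ℤ[X]) : height (expand ℤ q g) ≤ height g := by
  rw [height_le_iff]
  intro n
  rw [coeff_expand hq]
  split_ifs
  · exact abs_coeff_le _ _
  · simp

theorem coeff_geom (p n : ℕ) :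
    (∑ i ∈ range p, (X : ℤ[X]) ^ i).coeff n = if n < p then 1 else 0 := by
  rw [finsetSum_coeff]
  simp only [coeff_X_pow]
  rw [Finset.sum_ite_eq]
  simp [Finset.mem_range]

theorem height_geom_mul (p : ℕ) (F : ℤ[X]) :
    height ((∑ i ∈ range p, (X : ℤ[X]) ^ i) * F) ≤ p * height F := by
  rw [height_le_iff]
  intro n
  rw [Finset.sum_mul, finsetSum_coeff]
  calc |∑ i ∈ range p, ((X : ℤ[X]) ^ i * F).coeff n|
      ≤ ∑ i ∈ range p, |((X : ℤ[X]) ^ i * F).coeff n| := Finset.abs_sum_le_sum_abs _ _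
    _ ≤ ∑ _i ∈ range p, (height F : ℤ) := by
        apply Finset.sum_le_sum
        intro i _
        rw [X_pow_mul, coeff_mul_X_pow']
        split_ifs
        · exact abs_coeff_le _ _
        · simp
    _ = ((p * height F : ℕ) : ℤ) := by simp

theorem height_X_sub_one_mul (F : ℤ[X]) : height ((X - 1) * F) ≤ 2 * height F := by
  rw [height_le_iff]
  intro n
  rw [sub_mul, one_mul, coeff_sub]
  have h1 := abs_coeff_le F n
  have h2 : |((X : ℤ[X]) * F).coeff n| ≤ (height F : ℤ) := by
    cases n with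
    | zero => simp
    | succ n => rw [coeff_X_mul]; exact abs_coeff_le _ _
  calc |(X * F).coeff n - F.coeff n| ≤ |(X * F).coeff n| + |F.coeff n| := abs_sub _ _
    _ ≤ ((2 * height F : ℕ) : ℤ) := by push_cast; linarith

theorem height_geom_le (p : ℕ) : height (∑ i ∈ range p, (X : ℤ[X]) ^ i) ≤ 1 := by
  rw [height_le_iff]
  intro n
  rw [coeff_geom]
  split_ifs <;> simp

section

variable {p q : ℕ}

theorem cyc_expand_one (hq : q.Prime) :
    expand ℤ q (cyclotomic 1 ℤ) = cyclotomic 1 ℤ * cyclotomic q ℤ := by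
  rw [cyclotomic_expand_eq_cyclotomic_mul hq (by
    intro h; exact hq.one_lt.ne' (Nat.dvd_one.1 h)), one_mul, mul_comm]

theorem cyc_expand_p (hp : p.Prime) (hq : q.Prime) (hpq : p < q) :
    expand ℤ q (cyclotomic p ℤ) = cyclotomic p ℤ * cyclotomic (p * q) ℤ := by
  rw [cyclotomic_expand_eq_cyclotomic_mul hq (by
    intro h; exact absurd (Nat.le_of_dvd hp.pos h) (by omega)), mul_comm]

theorem cyc_q_pq (hp : p.Prime) (hq : q.Prime) (hpq : p < q) :
    cyclotomic q ℤ * cyclotomic (p * q) ℤ = ∑ i ∈ range q, (X : ℤ[X]) ^ (p * i) := by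
  have h1 : ¬ p ∣ q := by
    intro h
    rcases (Nat.dvd_prime hq).1 h with h | h
    · exact hp.one_lt.ne' h
    · omega
  have h2 := cyclotomic_expand_eq_cyclotomic_mul (n := q) hp h1 ℤ
  rw [mul_comm q p, mul_comm] at h2
  rw [← h2]
  have := Fact.mk hq
  rw [cyclotomic_prime, map_sum]
  apply Finset.sum_congr rfl
  intro i _
  rw [map_pow, expand_X, ← pow_mul]

theorem one_sub_cyc_q (hq : q.Prime) : (1 - X) * cyclotomic q ℤ = 1 - X ^ q := by
  have := Fact.mk hq
  rw [cyclotomic_prime]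
  exact mul_neg_geom_sum X q

theorem exists_inv (hp : p.Prime) (hq : q.Prime) (hpq : p < q) : ∃ u : ℤ, (q : ℤ) ∣ p * u - 1 := by
  have h1 : IsCoprime (p : ℤ) (q : ℤ) := by
    rw [Nat.isCoprime_iff_coprime]
    exact (Nat.coprime_primes hp hq).2 hpq.ne
  obtain ⟨a, b, h⟩ := h1
  exact ⟨a, -b, by linarith⟩

theorem step_bound (hp : p.Prime) (hq : q.Prime) (hpq : p < q) (E : ℤ[X]) (M N : ℕ)
    (hM : ∀ g, g ∣ E → height g ≤ M)
    (hN : ∀ h, h ∣ cyclotomic 1 ℤ * (cyclotomic p ℤ * E) → height h ≤ N)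
    (A g : ℤ[X]) (hg : g ∣ E)
    (hA : A ∣ cyclotomic 1 ℤ * (cyclotomic p ℤ * (cyclotomic q ℤ * cyclotomic (p * q) ℤ))) :
    height (A * expand ℤ q g) ≤ max (p * M) N := by
  have hq0 := hq.pos
  have hp0 := hp.pos
  have hp2 := hp.two_le
  obtain ⟨u, hu⟩ := exists_inv hp hq hpq
  obtain ⟨a, A1, hA1, rfl⟩ := dvd_prime_mul_cases (cyc_prime 1 one_pos) hA
  obtain ⟨b, A2, hA2, rfl⟩ := dvd_prime_mul_cases (cyc_prime p hp0) hA1
  obtain ⟨c, A3, hA3, rfl⟩ := dvd_prime_mul_cases (cyc_prime q hq0) hA2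
  rw [← mul_one (cyclotomic (p * q) ℤ)] at hA3
  obtain ⟨d, A4, hA4, rfl⟩ := dvd_prime_mul_cases (cyc_prime (p * q) (Nat.mul_pos hp0 hq0)) hA3
  have hunit : IsUnit A4 := isUnit_of_dvd_one hA4
  have hassoc : Associated
      ((if a then cyclotomic 1 ℤ else 1) * ((if b then cyclotomic p ℤ else 1) *
        ((if c then cyclotomic q ℤ else 1) * ((if d then cyclotomic (p * q) ℤ else 1) * A4)))
        * expand ℤ q g)
      (((if a then cyclotomic 1 ℤ else 1) * ((if b then cyclotomic p ℤ else 1) *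
        ((if c then cyclotomic q ℤ else 1) * (if d then cyclotomic (p * q) ℤ else 1))))
        * expand ℤ q g) := by
    have h1 : ((if a then cyclotomic 1 ℤ else 1) * ((if b then cyclotomic p ℤ else 1) *
        ((if c then cyclotomic q ℤ else 1) * ((if d then cyclotomic (p * q) ℤ else 1) * A4)))
        * expand ℤ q g)
      = (((if a then cyclotomic 1 ℤ else 1) * ((if b then cyclotomic p ℤ else 1) *
        ((if c then cyclotomic q ℤ else 1) * (if d then cyclotomic (p * q) ℤ else 1))))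
        * expand ℤ q g) * A4 := by ring
    rw [h1]
    exact (associated_mul_unit_left _ _ hunit)
  rw [height_assoc hassoc]
  -- constants
  have hgM := hM g hg
  have hMle : M ≤ p * M := Nat.le_mul_of_pos_left _ hp0
  have dq : ∀ B : ℤ[X], B.natDegree < q → height B ≤ 1 → ∀ h : ℤ[X],
      height (B * expand ℤ q h) ≤ height h := by
    intro B h1 h2 h
    calc height (B * expand ℤ q h) ≤ height B * height h := height_mul_expand_le_of_degree hq0 B h h1
      _ ≤ 1 * height h := Nat.mul_le_mul_right _ h2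
      _ = height h := one_mul _
  have d1 : (1 : ℤ[X]).natDegree < q := by simpa using hq0
  have h1 : height (1 : ℤ[X]) ≤ 1 := height_one.le
  have eX1 : cyclotomic 1 ℤ = X - 1 := cyclotomic_one ℤ
  have dX1 : (cyclotomic 1 ℤ).natDegree < q := by
    rw [natDegree_cyclotomic]; simpa using hq.one_lt
  have hX1 : height (cyclotomic 1 ℤ) ≤ 1 := by
    rw [height_le_iff, eX1]
    intro n
    rw [coeff_sub, coeff_X, coeff_one]
    split_ifs <;> first | omega | simp
  have dP : (cyclotomic p ℤ).natDegree < q := by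
    rw [natDegree_cyclotomic, Nat.totient_prime hp]; omega
  have hP : height (cyclotomic p ℤ) ≤ 1 := by
    have := Fact.mk hp
    rw [cyclotomic_prime]
    exact height_geom_le p
  have dQ : (cyclotomic q ℤ).natDegree < q := by
    rw [natDegree_cyclotomic, Nat.totient_prime hq]; omega
  have hQ : height (cyclotomic q ℤ) ≤ 1 := by
    have := Fact.mk hq
    rw [cyclotomic_prime]
    exact height_geom_le q
  have e1 := cyc_expand_one hq
  have ep := cyc_expand_p hp hq hpq
  have eS := cyc_q_pq hp hq hpq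
  have eQ := one_sub_cyc_q hq
  have hS : height ((∑ i ∈ range q, (X : ℤ[X]) ^ (p * i)) * expand ℤ q g) ≤ height g := by
    rw [height_le_iff]
    intro n
    rw [← zc_nat, zc_F1 hq0 hu]
    exact abs_zc_le _ _
  have hN1 : height (cyclotomic 1 ℤ * g) ≤ N := by
    apply hN
    apply mul_dvd_mul_left
    exact hg.trans (dvd_mul_left _ _)
  have hNp : height (cyclotomic p ℤ * g) ≤ N := by
    apply hN
    exact (mul_dvd_mul_left _ hg).trans (dvd_mul_left _ _)
  have hN1p : height (cyclotomic 1 ℤ * (cyclotomic p ℤ * g)) ≤ N := by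
    apply hN
    exact mul_dvd_mul_left _ (mul_dvd_mul_left _ hg)
  have eqr : ∀ s t : ℤ[X], s = t → height s = height t := fun s t h => by rw [h]
  cases a <;> cases b <;> cases c <;> cases d <;>
    simp only [if_true, if_false, Bool.false_eq_true, one_mul, mul_one]
  · -- 0000
    have := dq 1 d1 h1 g
    rw [one_mul] at this
    exact (this.trans (hgM.trans hMle)).trans (le_max_left _ _)
  · -- 0001
    refine (height_phi_pq hp2 hq0 hu _ g ?_).trans
      ((Nat.mul_le_mul_left _ hgM).trans (le_max_left _ _))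
    rw [← eS, ← eQ]; ring
  · -- 0010
    exact ((dq _ dQ hQ g).trans (hgM.trans hMle)).trans (le_max_left _ _)
  · -- 0011
    rw [eS]
    exact (hS.trans (hgM.trans hMle)).trans (le_max_left _ _)
  · -- 0100
    exact ((dq _ dP hP g).trans (hgM.trans hMle)).trans (le_max_left _ _)
  · -- 0101
    rw [← ep, ← map_mul]
    exact ((height_expand hq0 _).trans hNp).trans (le_max_right _ _)
  · -- 0110
    have hcp : cyclotomic p ℤ = ∑ i ∈ range p, (X : ℤ[X]) ^ i := by
      have := Fact.mk hp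
      exact cyclotomic_prime ℤ p
    rw [mul_assoc, hcp]
    refine (height_geom_mul p _).trans (le_trans ?_ (le_max_left _ _))
    exact Nat.mul_le_mul_left _ ((dq _ dQ hQ g).trans hgM)
  · -- 0111
    have : cyclotomic p ℤ * (cyclotomic q ℤ * cyclotomic (p * q) ℤ) * expand ℤ q g
        = cyclotomic q ℤ * expand ℤ q (cyclotomic p ℤ * g) := by
      rw [map_mul, ep]; ring
    rw [this]
    exact ((dq _ dQ hQ _).trans hNp).trans (le_max_right _ _)
  · -- 1000
    exact ((dq _ dX1 hX1 g).trans (hgM.trans hMle)).trans (le_max_left _ _)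
  · -- 1001
    have : cyclotomic 1 ℤ * cyclotomic (p * q) ℤ * expand ℤ q g
        = -((1 - X) * (cyclotomic (p * q) ℤ * expand ℤ q g)) := by
      rw [eX1]; ring
    rw [this, height_neg]
    refine (height_phi_one_pq hp2 hq0 hu _ g ?_).trans
      ((Nat.mul_le_mul_left _ hgM).trans (le_max_left _ _))
    rw [← eS, ← eQ]; ring
  · -- 1010
    rw [← e1, ← map_mul]
    exact ((height_expand hq0 _).trans hN1).trans (le_max_right _ _)
  · -- 1011
    rw [eS, mul_assoc, eX1]
    refine (height_X_sub_one_mul _).trans (le_trans ?_ (le_max_left _ _))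
    exact Nat.mul_le_mul hp2 (hS.trans hgM)
  · -- 1100
    have e : cyclotomic 1 ℤ * cyclotomic p ℤ = X ^ p - 1 := by
      have := Fact.mk hp
      rw [eX1, cyclotomic_prime]
      exact mul_geom_sum X p
    rw [e]
    have dd : (X ^ p - 1 : ℤ[X]).natDegree < q := by
      rw [← C_1, natDegree_X_pow_sub_C]; exact hpq
    have hh : height (X ^ p - 1 : ℤ[X]) ≤ 1 := by
      rw [height_le_iff]
      intro n
      rw [coeff_sub, coeff_X_pow, coeff_one]
      split_ifs <;> first | omega | simp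
    exact ((dq _ dd hh g).trans (hgM.trans hMle)).trans (le_max_left _ _)
  · -- 1101
    have : cyclotomic 1 ℤ * (cyclotomic p ℤ * cyclotomic (p * q) ℤ) * expand ℤ q g
        = cyclotomic 1 ℤ * expand ℤ q (cyclotomic p ℤ * g) := by
      rw [map_mul, ep]; ring
    rw [this]
    exact ((dq _ dX1 hX1 _).trans hNp).trans (le_max_right _ _)
  · -- 1110
    have : cyclotomic 1 ℤ * (cyclotomic p ℤ * cyclotomic q ℤ) * expand ℤ q g
        = cyclotomic p ℤ * expand ℤ q (cyclotomic 1 ℤ * g) := by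
      rw [map_mul, e1]; ring
    rw [this]
    exact ((dq _ dP hP _).trans hN1).trans (le_max_right _ _)
  · -- 1111
    have : cyclotomic 1 ℤ * (cyclotomic p ℤ * (cyclotomic q ℤ * cyclotomic (p * q) ℤ))
        * expand ℤ q g = expand ℤ q (cyclotomic 1 ℤ * (cyclotomic p ℤ * g)) := by
      rw [map_mul, map_mul, e1, ep]; ring
    rw [this]
    exact ((height_expand hq0 _).trans hN1p).trans (le_max_right _ _)

end

end Q262.Hgt
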