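import Pool.Agent.Q262.ShiftMain

/-!
The cyclovarieties and their points on the unit torus.
-/

set_option autoImplicit false

open Polynomial

namespace Q262.CycloVar

/-- `ζ_k = e^{2πi/k}`. -/
noncomputable def zeta (k : ℕ) : ℂ := Complex.exp (2 * Real.pi * Complex.I / k)

/-- The set `A_k ⊂ ℤ^d`, `d = φ(k)`: all integer vectors `(a_0, …, a_{d-1})` such that
`∑ a_j ζ_k^j` is a `k`-th root of unity. -/
def A (k : ℕ) : Set (Fin (Nat.totient k) → ℤ) :=
  {a | (∑ j, (a j : ℂ) * zeta k ^ (j : ℕ)) ^ k = 1}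

/-- The Laurent polynomial `F_k(x) = ∑_{a ∈ A_k} x^a`. -/
noncomputable def F (k : ℕ) (x : Fin (Nat.totient k) → ℂ) : ℂ :=
  ∑ᶠ a ∈ A k, ∏ j, x j ^ a j

/-- The complex points of the cyclovariety `C_k`: the `(x_0, x)` with nonzero coordinates and
`x_0 + F_k(x) = 0`. -/
def cyclovariety (k : ℕ) : Set (ℂ × (Fin (Nat.totient k) → ℂ)) :=
  {p | p.1 ≠ 0 ∧ (∀ j, p.2 j ≠ 0) ∧ p.1 + F k p.2 = 0}

/-- The unit torus `𝕋^{d+1}`. -/
def unitTorus (k : ℕ) : Set (ℂ × (Fin (Nat.totient k) → ℂ)) :=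
  {p | ‖p.1‖ = 1 ∧ ∀ j, ‖p.2 j‖ = 1}

/-- Coefficient vector of `X^r` modulo `Φ_k`. -/
noncomputable def expVec (k r : ℕ) : Fin (Nat.totient k) → ℤ :=
  fun s => ((X : ℤ[X]) ^ r %ₘ cyclotomic k ℤ).coeff s

lemma natDegree_rem_lt {k : ℕ} (hk : 0 < k) (r : ℕ) :
    ((X : ℤ[X]) ^ r %ₘ cyclotomic k ℤ).natDegree < Nat.totient k := by
  have h1 : (cyclotomic k ℤ).natDegree = Nat.totient k := natDegree_cyclotomic k ℤ
  rw [← h1]
  apply natDegree_modByMonic_lt _ (cyclotomic.monic k ℤ)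
  intro h
  have := natDegree_cyclotomic k ℤ
  rw [h, natDegree_one] at this
  exact absurd this.symm (Nat.totient_pos.mpr hk).ne'

lemma zeta_prim {k : ℕ} (hk : 0 < k) : IsPrimitiveRoot (zeta k) k :=
  Complex.isPrimitiveRoot_exp k hk.ne'

lemma eval_rem {k : ℕ} (hk : 0 < k) (r : ℕ) :
    ∑ j, (expVec k r j : ℂ) * zeta k ^ (j : ℕ) = zeta k ^ r := by
  have h0 : aeval (zeta k) (cyclotomic k ℤ) = 0 := by
    have := (zeta_prim hk).isRoot_cyclotomic hk
    rw [aeval_def, eval₂_eq_eval_map, map_cyclotomic]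
    exact this
  have h1 : aeval (zeta k) ((X : ℤ[X]) ^ r %ₘ cyclotomic k ℤ) = zeta k ^ r := by
    have := modByMonic_add_div ((X : ℤ[X]) ^ r) (cyclotomic k ℤ)
    have h2 := congrArg (aeval (zeta k)) this
    rw [map_add, map_mul, h0, zero_mul, add_zero, map_pow, aeval_X] at h2
    exact h2
  rw [← h1, aeval_eq_sum_range' (natDegree_rem_lt hk r)]
  rw [Finset.sum_range]
  apply Finset.sum_congr rfl
  intro j _
  simp [expVec]

lemma expVec_mem {k : ℕ} (hk : 0 < k) (r : ℕ) : expVec k r ∈ A k := by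
  show (∑ j, (expVec k r j : ℂ) * zeta k ^ (j : ℕ)) ^ k = 1
  rw [eval_rem hk, ← pow_mul, mul_comm, pow_mul, (zeta_prim hk).pow_eq_one, one_pow]

lemma vec_inj {k : ℕ} (hk : 0 < k) {a b : Fin (Nat.totient k) → ℤ}
    (h : ∑ j, (a j : ℂ) * zeta k ^ (j : ℕ) = ∑ j, (b j : ℂ) * zeta k ^ (j : ℕ)) : a = b := by
  set P : ℤ[X] := ∑ j : Fin (Nat.totient k), C (a j - b j) * X ^ (j : ℕ) with hP
  have hdeg : P.degree < Nat.totient k := by
    rw [hP]
    apply (degree_sum_le _ _).trans_lt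
    rw [Finset.sup_lt_iff (by exact WithBot.bot_lt_coe _)]
    intro j _
    apply (degree_C_mul_X_pow_le _ _).trans_lt
    exact_mod_cast j.2
  have hev : aeval (zeta k) P = 0 := by
    rw [hP, map_sum]
    have : ∀ j ∈ (Finset.univ : Finset (Fin (Nat.totient k))),
        aeval (zeta k) (C (a j - b j) * X ^ (j : ℕ) : ℤ[X])
          = (a j : ℂ) * zeta k ^ (j : ℕ) - (b j : ℂ) * zeta k ^ (j : ℕ) := by
      intro j _
      simp
      ring
    rw [Finset.sum_congr rfl this, Finset.sum_sub_distrib, h, sub_self]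
  have hdvd : cyclotomic k ℤ ∣ P := by
    rw [cyclotomic_eq_minpoly (zeta_prim hk) hk]
    exact minpoly.isIntegrallyClosed_dvd ((zeta_prim hk).isIntegral hk) hev
  have hP0 : P = 0 := by
    by_contra hne
    have h1 := degree_le_of_dvd hdvd hne
    rw [degree_cyclotomic] at h1
    exact absurd hdeg (not_lt.mpr h1)
  funext s
  have h2 : P.coeff (s : ℕ) = a s - b s := by
    rw [hP, finsetSum_coeff]
    simp only [coeff_C_mul, coeff_X_pow]
    rw [Finset.sum_eq_single s]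
    · simp
    · intro j _ hj
      rw [if_neg (fun h => hj (Fin.ext h.symm)), mul_zero]
    · intro h; exact absurd (Finset.mem_univ s) h
  rw [hP0, coeff_zero] at h2
  linarith

lemma A_eq {k : ℕ} (hk : 0 < k) : A k = Set.range (fun r : Fin k => expVec k r) := by
  ext a
  constructor
  · intro ha
    have ha' : (∑ j, (a j : ℂ) * zeta k ^ (j : ℕ)) ^ k = 1 := ha
    have : NeZero k := ⟨hk.ne'⟩
    obtain ⟨r, hr, h⟩ := (zeta_prim hk).eq_pow_of_pow_eq_one ha'
    refine ⟨⟨r, hr⟩, ?_⟩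
    apply vec_inj hk
    rw [eval_rem hk, h]
  · rintro ⟨r, rfl⟩
    exact expVec_mem hk r

lemma expVec_inj {k : ℕ} (hk : 0 < k) : Function.Injective (fun r : Fin k => expVec k r) := by
  intro r s h
  have h' : expVec k r = expVec k s := h
  have h1 := eval_rem hk r
  rw [h', eval_rem hk] at h1
  exact Fin.ext ((zeta_prim hk).pow_inj r.2 s.2 h1.symm)

lemma F_eq {k : ℕ} (hk : 0 < k) (x : Fin (Nat.totient k) → ℂ) :
    F k x = ∑ r ∈ Finset.range k, ∏ j, x j ^ expVec k r j := by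
  unfold F
  rw [A_eq hk, finsum_mem_range (expVec_inj hk), finsum_eq_sum_of_fintype]
  rw [Finset.sum_range]

open Q262.Shift in
lemma kill_value {N : ℕ} {k : ℕ} (hk : 0 < k) {c : ℕ → ZMod N}
    (hc : Kill (cyclotomic k (ZMod N)) c) (r : ℕ) :
    c r = ∑ j, (expVec k r j : ZMod N) * c (j : ℕ) := by
  have h1 : (X : (ZMod N)[X]) ^ r = ((X : ℤ[X]) ^ r %ₘ cyclotomic k ℤ).map (Int.castRingHom (ZMod N))
      + cyclotomic k (ZMod N) * ((X : ℤ[X]) ^ r /ₘ cyclotomic k ℤ).map (Int.castRingHom (ZMod N)) := by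
    have := modByMonic_add_div ((X : ℤ[X]) ^ r) (cyclotomic k ℤ)
    have h2 := congrArg (Polynomial.map (Int.castRingHom (ZMod N))) this
    rw [Polynomial.map_add, Polynomial.map_mul, map_cyclotomic, Polynomial.map_pow, map_X] at h2
    exact h2.symm
  have h2 : c r = aeval (E N) ((X : (ZMod N)[X]) ^ r) c 0 := by
    rw [map_pow, aeval_X, E_pow_apply, zero_add]
  have h3 : aeval (E N) (cyclotomic k (ZMod N) *
      ((X : ℤ[X]) ^ r /ₘ cyclotomic k ℤ).map (Int.castRingHom (ZMod N))) c = 0 :=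
    kill_of_dvd (dvd_mul_right _ _) hc
  rw [h2, h1, map_add, LinearMap.add_apply, h3, add_zero]
  rw [aeval_E_apply' _ _ _ (lt_of_le_of_lt natDegree_map_le (natDegree_rem_lt hk r))]
  rw [Finset.sum_range]
  apply Finset.sum_congr rfl
  intro j _
  simp [expVec]

lemma addChar_sum {ι G : Type*} [AddCommMonoid G] (ψ : AddChar G ℂ) (s : Finset ι)
    (f : ι → G) : ψ (∑ i ∈ s, f i) = ∏ i ∈ s, ψ (f i) := by
  classical
  induction s using Finset.induction_on with
  | empty => simp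
  | insert a s ha ih => rw [Finset.sum_insert ha, Finset.prod_insert ha, AddChar.map_add_eq_mul, ih]

open Q262.Shift in
lemma exists_zero {k : ℕ} (hk : 2 ≤ k) :
    ∃ x : Fin (Nat.totient k) → ℂ, (∀ j, ‖x j‖ = 1) ∧ F k x = 0 := by
  have hk0 : 0 < k := by omega
  obtain ⟨N, hN, c, hc, hsum⟩ := exists_good k hk
  refine ⟨fun j => ZMod.stdAddChar (c j), ?_, ?_⟩
  · intro j
    exact AddChar.norm_apply _ _
  · rw [F_eq hk0, ← hsum]
    apply Finset.sum_congr rfl
    intro r _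
    rw [kill_value hk0 hc r, addChar_sum]
    apply Finset.prod_congr rfl
    intro j _
    rw [← AddChar.map_zsmul_eq_zpow, zsmul_eq_mul]

theorem exists_norm_one {k : ℕ} (hk : 1 ≤ k) :
    ∃ x : Fin (Nat.totient k) → ℂ, (∀ j, ‖x j‖ = 1) ∧ ‖F k x‖ = 1 := by
  rcases Nat.lt_or_ge k 2 with h | h
  · have hk1 : k = 1 := by omega
    subst hk1
    refine ⟨fun _ => 1, fun _ => by simp, ?_⟩
    rw [F_eq Nat.one_pos]
    simp
  · obtain ⟨x, hx1, hx0⟩ := exists_zero h
    -- path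
    set p : ℝ → Fin (Nat.totient k) → ℂ :=
      fun t j => Complex.exp ((t * Complex.arg (x j) : ℝ) * Complex.I) with hp
    have hpn : ∀ t j, ‖p t j‖ = 1 := fun t j => Complex.norm_exp_ofReal_mul_I _
    have hp1 : p 1 = x := by
      funext j
      simp only [hp, one_mul]
      have := Complex.norm_mul_exp_arg_mul_I (x j)
      rw [hx1 j] at this
      simpa using this
    have hp0 : F k (p 0) = k := by
      rw [F_eq hk]
      simp [hp]
    have hcont : Continuous (fun t => ‖F k (p t)‖) := by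
      apply Continuous.norm
      have : (fun t => F k (p t)) = fun t => ∑ r ∈ Finset.range k, ∏ j, p t j ^ expVec k r j := by
        funext t; exact F_eq hk _
      rw [this]
      apply continuous_finsetSum
      intro r _
      apply continuous_finsetProd
      intro j _
      apply Continuous.zpow₀
      · simp only [hp]; fun_prop
      · intro t
        exact Or.inl (Complex.exp_ne_zero _)
    have hivt := intermediate_value_Icc' (zero_le_one (α := ℝ)) hcont.continuousOn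
    have hmem : (1 : ℝ) ∈ Set.Icc ‖F k (p 1)‖ ‖F k (p 0)‖ := by
      rw [hp1, hx0, hp0]
      constructor
      · simp
      · rw [Complex.norm_natCast]; exact_mod_cast hk
    obtain ⟨t, _, ht⟩ := hivt hmem
    exact ⟨p t, hpn t, ht⟩

end Q262.CycloVar
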