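import Mathlib

/-!
Heights of integer polynomials and of the divisors of `X ^ n - 1`.
-/

set_option autoImplicit false

open Polynomial Finset

namespace Q262.Hgt

/-- The height of an integer polynomial: the largest absolute value of a coefficient. -/
def height (f : ℤ[X]) : ℕ := f.support.sup fun i => (f.coeff i).natAbs

/-- The set of the heights of all divisors of `X ^ n - 1` in `ℤ[X]`. -/
def divisorHeights (n : ℕ) : Set ℕ := {h | ∃ f : ℤ[X], f ∣ X ^ n - 1 ∧ height f = h}

/-- `B(n)`: the largest height of a divisor of `X ^ n - 1` in `ℤ[X]`. -/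
noncomputable def maxDivisorHeight (n : ℕ) : ℕ := sSup (divisorHeights n)

theorem natAbs_coeff_le (f : ℤ[X]) (n : ℕ) : (f.coeff n).natAbs ≤ height f := by
  by_cases h : f.coeff n = 0
  · simp [h]
  · exact Finset.le_sup (f := fun i => (f.coeff i).natAbs) (mem_support_iff.2 h)

theorem abs_coeff_le (f : ℤ[X]) (n : ℕ) : |f.coeff n| ≤ height f := by
  have := natAbs_coeff_le f n
  rw [Int.abs_eq_natAbs]
  exact_mod_cast this

theorem height_le_iff (f : ℤ[X]) (N : ℕ) : height f ≤ N ↔ ∀ n, |f.coeff n| ≤ N := by
  constructor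
  · intro h n
    exact (abs_coeff_le f n).trans (by exact_mod_cast h)
  · intro h
    refine Finset.sup_le fun n _ => ?_
    have := h n
    rw [Int.abs_eq_natAbs] at this
    exact_mod_cast this

theorem exists_coeff (f : ℤ[X]) : ∃ n, |f.coeff n| = height f := by
  rcases f.support.eq_empty_or_nonempty with h | h
  · refine ⟨0, ?_⟩
    have h0 : f = 0 := Polynomial.support_eq_empty.1 h
    simp [h0, height]
  · obtain ⟨n, _, hn⟩ := Finset.exists_mem_eq_sup f.support h (fun i => (f.coeff i).natAbs)
    refine ⟨n, ?_⟩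
    rw [Int.abs_eq_natAbs, height, hn]

theorem height_neg (f : ℤ[X]) : height (-f) = height f := by
  apply le_antisymm <;> rw [height_le_iff] <;> intro n
  · simpa using abs_coeff_le f n
  · simpa using abs_coeff_le (-f) n

theorem height_assoc {f g : ℤ[X]} (h : Associated f g) : height f = height g := by
  obtain ⟨u, hu⟩ := h
  have hu' := Polynomial.isUnit_iff.1 u.isUnit
  obtain ⟨r, hr, hru⟩ := hu'
  rcases Int.isUnit_iff.1 hr with rfl | rfl
  · rw [← hu, ← hru]; simp
  · rw [← hu, ← hru]; simp [height_neg]

/-- A divisor of a product of primes is associated to a partial product. -/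
theorem dvd_prod_assoc {ι : Type*} [DecidableEq ι] (s : Finset ι) (P : ι → ℤ[X])
    (hP : ∀ i ∈ s, Prime (P i)) : ∀ f : ℤ[X], f ∣ ∏ i ∈ s, P i →
      ∃ t ⊆ s, Associated f (∏ i ∈ t, P i) := by
  induction s using Finset.induction_on with
  | empty =>
    intro f hf
    refine ⟨∅, subset_rfl, ?_⟩
    simp only [Finset.prod_empty] at hf ⊢
    exact associated_one_iff_isUnit.2 (isUnit_of_dvd_one hf)
  | insert a s ha ih =>
    intro f hf
    rw [Finset.prod_insert ha] at hf
    have hPs : ∀ i ∈ s, Prime (P i) := fun i hi => hP i (Finset.mem_insert_of_mem hi)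
    have hPa : Prime (P a) := hP a (Finset.mem_insert_self _ _)
    by_cases hd : P a ∣ f
    · obtain ⟨g, rfl⟩ := hd
      have hg : g ∣ ∏ i ∈ s, P i := (mul_dvd_mul_iff_left hPa.ne_zero).1 hf
      obtain ⟨t, hts, hassoc⟩ := ih hPs g hg
      refine ⟨insert a t, Finset.insert_subset_insert _ hts, ?_⟩
      rw [Finset.prod_insert (fun h => ha (hts h))]
      exact hassoc.mul_left _
    · have hrel : IsRelPrime f (P a) := by
        intro c hcf hca
        rcases hPa.irreducible.dvd_iff.1 hca with h | h
        · exact h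
        · exact absurd (h.dvd.trans hcf) hd
      have hfs : f ∣ ∏ i ∈ s, P i := hrel.dvd_of_dvd_mul_left hf
      obtain ⟨t, hts, hassoc⟩ := ih hPs f hfs
      exact ⟨t, hts.trans (Finset.subset_insert _ _), hassoc⟩

theorem height_one : height 1 = 1 := by
  apply le_antisymm
  · rw [height_le_iff]
    intro n
    rw [coeff_one]
    split_ifs <;> simp
  · have := abs_coeff_le (1 : ℤ[X]) 0
    simp at this
    exact this

/-- Bound for the height of `A(x) g(x^q)` in terms of the sums of `|A_i|` over the residue classes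
mod `q`. -/
theorem height_mul_expand_le {q : ℕ} (hq : 0 < q) (A g : ℤ[X]) (N : ℕ)
    (hA : ∀ n, ∑ i ∈ (range (n + 1)).filter (fun i => q ∣ n - i), |A.coeff i| ≤ N) :
    height (A * expand ℤ q g) ≤ N * height g := by
  rw [height_le_iff]
  intro n
  rw [coeff_mul, Finset.Nat.sum_antidiagonal_eq_sum_range_succ_mk]
  calc |∑ k ∈ range n.succ, A.coeff k * (expand ℤ q g).coeff (n - k)|
      ≤ ∑ k ∈ range n.succ, |A.coeff k * (expand ℤ q g).coeff (n - k)| :=
        Finset.abs_sum_le_sum_abs _ _
    _ ≤ ∑ k ∈ range n.succ, (if q ∣ n - k then |A.coeff k| * height g else 0) := by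
        apply Finset.sum_le_sum
        intro k _
        rw [coeff_expand hq, abs_mul]
        split_ifs with h
        · exact mul_le_mul_of_nonneg_left (abs_coeff_le g _) (abs_nonneg _)
        · simp
    _ = (∑ i ∈ (range (n + 1)).filter (fun i => q ∣ n - i), |A.coeff i|) * height g := by
        rw [Finset.sum_mul, Finset.sum_filter]
    _ ≤ ((N * height g : ℕ) : ℤ) := by
        push_cast
        exact mul_le_mul_of_nonneg_right (hA n) (by positivity)

/-- If `deg A < q` then `A(x) g(x^q)` has height at most `H(A) H(g)`. -/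
theorem height_mul_expand_le_of_degree {q : ℕ} (hq : 0 < q) (A g : ℤ[X]) (hA : A.natDegree < q) :
    height (A * expand ℤ q g) ≤ height A * height g := by
  apply height_mul_expand_le hq
  intro n
  -- only `i = n % q` can contribute
  have h1 : ∑ i ∈ (range (n + 1)).filter (fun i => q ∣ n - i), |A.coeff i|
      ≤ ∑ i ∈ {n % q}, |A.coeff i| := by
    have h2 : ∑ i ∈ (range (n + 1)).filter (fun i => q ∣ n - i), |A.coeff i|
        = ∑ i ∈ ((range (n + 1)).filter (fun i => q ∣ n - i)).filter (fun i => i < q),
          |A.coeff i| := by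
      rw [Finset.sum_filter (fun i => i < q)]
      apply Finset.sum_congr rfl
      intro i _
      split_ifs with h
      · rfl
      · rw [coeff_eq_zero_of_natDegree_lt (by omega), abs_zero]
    rw [h2]
    apply Finset.sum_le_sum_of_subset_of_nonneg
    · intro i hi
      simp only [Finset.mem_filter, Finset.mem_range, Finset.mem_singleton] at hi ⊢
      obtain ⟨⟨h3, h4⟩, h5⟩ := hi
      have h6 : n ≡ i [MOD q] := ((Nat.modEq_iff_dvd' (by omega)).2 h4).symm
      have h7 : n % q = i % q := h6
      rw [h7, Nat.mod_eq_of_lt h5]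
    · intro i _ _
      exact abs_nonneg _
  refine h1.trans ?_
  rw [Finset.sum_singleton]
  exact abs_coeff_le A _

end Q262.Hgt
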