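import Mathlib

/-!
Two finite linear systems on `ℤ/105` (generated by a script).
-/

set_option autoImplicit false

namespace Q262.Refl

/-- `2 Y(r)` for the special function `Y` on `ℤ/105`. -/
def Ytab : List ℤ := [-2, 2, 0, 2, 2, -4, 2, 2, -4, 2, 0, -4, -1, 1, 0, 2, 2, 2, -3, -2, 2, -4, -2, 0, 2, -4, 2, -1, -4, 2, 2, 0, -1, -3, 2, 0, 0, -2, 2, -3, 2, 2, 2, 2, 2, -2, 2, -1, 2, -2, 2, -4, 2, 2, 0, 2, 2, 0, 2, -4, 2, -4, 2, 2, 2, -4, 2, -1, 1, 1, 2, -2, 2, -4, 1, 2, -4, -4, 2, -4, 2, 2, 2, -3, 2, -4, 2, -4, 1, 2, -4, 2, 2, -2, 2, 2, 2, -1, 2, -4, 2, -2, 2, 2, -3]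

/-- A function on `0, …, 104` with vanishing line sums that vanishes where `Y = 1` is `0`. -/
theorem core_zero (Z : ℕ → ℝ)
    (h3 : ∀ r, r < 35 → Z r + Z (r + 35) + Z (r + 70) = 0)
    (h5 : ∀ r, r < 21 → Z r + Z (r + 21) + Z (r + 42) + Z (r + 63) + Z (r + 84) = 0)
    (h7 : ∀ r, r < 15 → Z r + Z (r + 15) + Z (r + 30) + Z (r + 45) + Z (r + 60) + Z (r + 75)
      + Z (r + 90) = 0)
    (hT : ∀ t ∈ [1, 3, 4, 6, 7, 9, 15, 16, 17, 20, 24, 26, 29, 30, 34, 38, 40, 41, 42, 43, 44, 46, 48, 50, 52, 53, 55, 56, 58, 60, 62, 63, 64, 66, 70, 72, 75, 78, 80, 81, 82, 84, 86, 89, 91, 92, 94, 95, 96, 98, 100, 102, 103], Z t = 0) :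
    ∀ s, s < 105 → Z s = 0 := by
  have z1 : Z 1 = 0 := hT 1 (by decide)
  have z3 : Z 3 = 0 := hT 3 (by decide)
  have z4 : Z 4 = 0 := hT 4 (by decide)
  have z6 : Z 6 = 0 := hT 6 (by decide)
  have z7 : Z 7 = 0 := hT 7 (by decide)
  have z9 : Z 9 = 0 := hT 9 (by decide)
  have z15 : Z 15 = 0 := hT 15 (by decide)
  have z16 : Z 16 = 0 := hT 16 (by decide)
  have z17 : Z 17 = 0 := hT 17 (by decide)
  have z20 : Z 20 = 0 := hT 20 (by decide)
  have z24 : Z 24 = 0 := hT 24 (by decide)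
  have z26 : Z 26 = 0 := hT 26 (by decide)
  have z29 : Z 29 = 0 := hT 29 (by decide)
  have z30 : Z 30 = 0 := hT 30 (by decide)
  have z34 : Z 34 = 0 := hT 34 (by decide)
  have z38 : Z 38 = 0 := hT 38 (by decide)
  have z40 : Z 40 = 0 := hT 40 (by decide)
  have z41 : Z 41 = 0 := hT 41 (by decide)
  have z42 : Z 42 = 0 := hT 42 (by decide)
  have z43 : Z 43 = 0 := hT 43 (by decide)
  have z44 : Z 44 = 0 := hT 44 (by decide)
  have z46 : Z 46 = 0 := hT 46 (by decide)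
  have z48 : Z 48 = 0 := hT 48 (by decide)
  have z50 : Z 50 = 0 := hT 50 (by decide)
  have z52 : Z 52 = 0 := hT 52 (by decide)
  have z53 : Z 53 = 0 := hT 53 (by decide)
  have z55 : Z 55 = 0 := hT 55 (by decide)
  have z56 : Z 56 = 0 := hT 56 (by decide)
  have z58 : Z 58 = 0 := hT 58 (by decide)
  have z60 : Z 60 = 0 := hT 60 (by decide)
  have z62 : Z 62 = 0 := hT 62 (by decide)
  have z63 : Z 63 = 0 := hT 63 (by decide)
  have z64 : Z 64 = 0 := hT 64 (by decide)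
  have z66 : Z 66 = 0 := hT 66 (by decide)
  have z70 : Z 70 = 0 := hT 70 (by decide)
  have z72 : Z 72 = 0 := hT 72 (by decide)
  have z75 : Z 75 = 0 := hT 75 (by decide)
  have z78 : Z 78 = 0 := hT 78 (by decide)
  have z80 : Z 80 = 0 := hT 80 (by decide)
  have z81 : Z 81 = 0 := hT 81 (by decide)
  have z82 : Z 82 = 0 := hT 82 (by decide)
  have z84 : Z 84 = 0 := hT 84 (by decide)
  have z86 : Z 86 = 0 := hT 86 (by decide)
  have z89 : Z 89 = 0 := hT 89 (by decide)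
  have z91 : Z 91 = 0 := hT 91 (by decide)
  have z92 : Z 92 = 0 := hT 92 (by decide)
  have z94 : Z 94 = 0 := hT 94 (by decide)
  have z95 : Z 95 = 0 := hT 95 (by decide)
  have z96 : Z 96 = 0 := hT 96 (by decide)
  have z98 : Z 98 = 0 := hT 98 (by decide)
  have z100 : Z 100 = 0 := hT 100 (by decide)
  have z102 : Z 102 = 0 := hT 102 (by decide)
  have z103 : Z 103 = 0 := hT 103 (by decide)
  have h3_3 := h3 3 (by norm_num)
  norm_num at h3_3
  have z73 : Z 73 = 0 := by linear_combination 1 * h3_3 - 1 * z3 - 1 * z38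
  have h3_5 := h3 5 (by norm_num)
  norm_num at h3_5
  have z5 : Z 5 = 0 := by linear_combination 1 * h3_5 - 1 * z40 - 1 * z75
  have h3_6 := h3 6 (by norm_num)
  norm_num at h3_6
  have z76 : Z 76 = 0 := by linear_combination 1 * h3_6 - 1 * z6 - 1 * z41
  have h3_7 := h3 7 (by norm_num)
  norm_num at h3_7
  have z77 : Z 77 = 0 := by linear_combination 1 * h3_7 - 1 * z7 - 1 * z42
  have h3_8 := h3 8 (by norm_num)
  norm_num at h3_8
  have z8 : Z 8 = 0 := by linear_combination 1 * h3_8 - 1 * z43 - 1 * z78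
  have h3_9 := h3 9 (by norm_num)
  norm_num at h3_9
  have z79 : Z 79 = 0 := by linear_combination 1 * h3_9 - 1 * z9 - 1 * z44
  have h3_11 := h3 11 (by norm_num)
  norm_num at h3_11
  have z11 : Z 11 = 0 := by linear_combination 1 * h3_11 - 1 * z46 - 1 * z81
  have h3_15 := h3 15 (by norm_num)
  norm_num at h3_15
  have z85 : Z 85 = 0 := by linear_combination 1 * h3_15 - 1 * z15 - 1 * z50
  have h3_16 := h3 16 (by norm_num)
  norm_num at h3_16
  have z51 : Z 51 = 0 := by linear_combination 1 * h3_16 - 1 * z16 - 1 * z86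
  have h3_17 := h3 17 (by norm_num)
  norm_num at h3_17
  have z87 : Z 87 = 0 := by linear_combination 1 * h3_17 - 1 * z17 - 1 * z52
  have h3_20 := h3 20 (by norm_num)
  norm_num at h3_20
  have z90 : Z 90 = 0 := by linear_combination 1 * h3_20 - 1 * z20 - 1 * z55
  have h3_21 := h3 21 (by norm_num)
  norm_num at h3_21
  have z21 : Z 21 = 0 := by linear_combination 1 * h3_21 - 1 * z56 - 1 * z91
  have h3_24 := h3 24 (by norm_num)
  norm_num at h3_24
  have z59 : Z 59 = 0 := by linear_combination 1 * h3_24 - 1 * z24 - 1 * z94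
  have h3_25 := h3 25 (by norm_num)
  norm_num at h3_25
  have z25 : Z 25 = 0 := by linear_combination 1 * h3_25 - 1 * z60 - 1 * z95
  have h3_26 := h3 26 (by norm_num)
  norm_num at h3_26
  have z61 : Z 61 = 0 := by linear_combination 1 * h3_26 - 1 * z26 - 1 * z96
  have h3_28 := h3 28 (by norm_num)
  norm_num at h3_28
  have z28 : Z 28 = 0 := by linear_combination 1 * h3_28 - 1 * z63 - 1 * z98
  have h3_29 := h3 29 (by norm_num)
  norm_num at h3_29
  have z99 : Z 99 = 0 := by linear_combination 1 * h3_29 - 1 * z29 - 1 * z64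
  have h3_30 := h3 30 (by norm_num)
  norm_num at h3_30
  have z65 : Z 65 = 0 := by linear_combination 1 * h3_30 - 1 * z30 - 1 * z100
  have h5_0 := h5 0 (by norm_num)
  norm_num at h5_0
  have z0 : Z 0 = 0 := by linear_combination 1 * h5_0 - 1 * z21 - 1 * z42 - 1 * z63 - 1 * z84
  have h5_1 := h5 1 (by norm_num)
  norm_num at h5_1
  have z22 : Z 22 = 0 := by linear_combination 1 * h5_1 - 1 * z1 - 1 * z43 - 1 * z64 - 1 * z85
  have h5_3 := h5 3 (by norm_num)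
  norm_num at h5_3
  have z45 : Z 45 = 0 := by linear_combination 1 * h5_3 - 1 * z3 - 1 * z24 - 1 * z66 - 1 * z87
  have h5_7 := h5 7 (by norm_num)
  norm_num at h5_7
  have z49 : Z 49 = 0 := by linear_combination 1 * h5_7 - 1 * z7 - 1 * z28 - 1 * z70 - 1 * z91
  have h5_8 := h5 8 (by norm_num)
  norm_num at h5_8
  have z71 : Z 71 = 0 := by linear_combination 1 * h5_8 - 1 * z8 - 1 * z29 - 1 * z50 - 1 * z92
  have h5_9 := h5 9 (by norm_num)
  norm_num at h5_9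
  have z93 : Z 93 = 0 := by linear_combination 1 * h5_9 - 1 * z9 - 1 * z30 - 1 * z51 - 1 * z72
  have h5_16 := h5 16 (by norm_num)
  norm_num at h5_16
  have z37 : Z 37 = 0 := by linear_combination 1 * h5_16 - 1 * z16 - 1 * z58 - 1 * z79 - 1 * z100
  have h5_17 := h5 17 (by norm_num)
  norm_num at h5_17
  have z101 : Z 101 = 0 := by linear_combination 1 * h5_17 - 1 * z17 - 1 * z38 - 1 * z59 - 1 * z80
  have h5_19 := h5 19 (by norm_num)
  norm_num at h5_19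
  have z19 : Z 19 = 0 := by linear_combination 1 * h5_19 - 1 * z40 - 1 * z61 - 1 * z82 - 1 * z103
  have h7_1 := h7 1 (by norm_num)
  norm_num at h7_1
  have z31 : Z 31 = 0 := by linear_combination 1 * h7_1 - 1 * z1 - 1 * z16 - 1 * z46 - 1 * z61 - 1 * z76 - 1 * z91
  have h7_5 := h7 5 (by norm_num)
  norm_num at h7_5
  have z35 : Z 35 = 0 := by linear_combination 1 * h7_5 - 1 * z5 - 1 * z20 - 1 * z50 - 1 * z65 - 1 * z80 - 1 * z95
  have h7_6 := h7 6 (by norm_num)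
  norm_num at h7_6
  have z36 : Z 36 = 0 := by linear_combination 1 * h7_6 - 1 * z6 - 1 * z21 - 1 * z51 - 1 * z66 - 1 * z81 - 1 * z96
  have h7_10 := h7 10 (by norm_num)
  norm_num at h7_10
  have z10 : Z 10 = 0 := by linear_combination 1 * h7_10 - 1 * z25 - 1 * z40 - 1 * z55 - 1 * z70 - 1 * z85 - 1 * z100
  have h3_2 := h3 2 (by norm_num)
  norm_num at h3_2
  have z2 : Z 2 = 0 := by linear_combination 1 * h3_2 - 1 * z37 - 1 * z72
  have h3_14 := h3 14 (by norm_num)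
  norm_num at h3_14
  have z14 : Z 14 = 0 := by linear_combination 1 * h3_14 - 1 * z49 - 1 * z84
  have h3_19 := h3 19 (by norm_num)
  norm_num at h3_19
  have z54 : Z 54 = 0 := by linear_combination 1 * h3_19 - 1 * z19 - 1 * z89
  have h3_22 := h3 22 (by norm_num)
  norm_num at h3_22
  have z57 : Z 57 = 0 := by linear_combination 1 * h3_22 - 1 * z22 - 1 * z92
  have h3_23 := h3 23 (by norm_num)
  norm_num at h3_23
  have z23 : Z 23 = 0 := by linear_combination 1 * h3_23 - 1 * z58 - 1 * z93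
  have h3_12 := h3 12 (by norm_num)
  norm_num at h3_12
  have h3_18 := h3 18 (by norm_num)
  norm_num at h3_18
  have h3_32 := h3 32 (by norm_num)
  norm_num at h3_32
  have h3_33 := h3 33 (by norm_num)
  norm_num at h3_33
  have h5_4 := h5 4 (by norm_num)
  norm_num at h5_4
  have h5_5 := h5 5 (by norm_num)
  norm_num at h5_5
  have h7_2 := h7 2 (by norm_num)
  norm_num at h7_2
  have h7_3 := h7 3 (by norm_num)
  norm_num at h7_3
  have z12 : Z 12 = 0 := by linear_combination 1 * h3_12 + (1/2) * h3_18 + (1/2) * h3_32 + (1/2) * h3_33 + (-1/2) * h5_4 + (-1/2) * h5_5 + (-1/2) * h7_2 + (-1/2) * h7_3 - (-1/2) * z2 - (-1/2) * z3 - (-1/2) * z4 - (-1/2) * z5 - (-1/2) * z17 - (-1/2) * z25 - (-1/2) * z26 - (-1/2) * z46 - (-1/2) * z48 - (1/2) * z53 - (-1/2) * z62 - (-1/2) * z63 - (-1/2) * z77 - (-1/2) * z78 - 1 * z82 - (-1/2) * z89 - (-1/2) * z92 - (-1/2) * z93 - (1/2) * z102 - (1/2) * z103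
  have h5_13 := h5 13 (by norm_num)
  norm_num at h5_13
  have h7_7 := h7 7 (by norm_num)
  norm_num at h7_7
  have z13 : Z 13 = 0 := by linear_combination (-1/2) * h3_18 + (1/2) * h3_32 + (-1/2) * h3_33 + (1/2) * h5_4 + (1/2) * h5_5 + 1 * h5_13 + (-1/2) * h7_2 + (1/2) * h7_3 + -1 * h7_7 - (-1/2) * z2 - (1/2) * z3 - (1/2) * z4 - (1/2) * z5 - -1 * z7 - (-1/2) * z17 - -1 * z22 - (1/2) * z25 - (1/2) * z26 - 1 * z34 - -1 * z37 - (1/2) * z46 - (1/2) * z48 - -1 * z52 - (-1/2) * z53 - 1 * z55 - (-1/2) * z62 - (1/2) * z63 - 1 * z76 - (-1/2) * z77 - (1/2) * z78 - -1 * z82 - (1/2) * z89 - (-1/2) * z92 - (1/2) * z93 - (1/2) * z102 - (-1/2) * z103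
  have z18 : Z 18 = 0 := by linear_combination (1/2) * h3_18 + (1/2) * h3_32 + (-1/2) * h3_33 + (-1/2) * h5_4 + (1/2) * h5_5 + (-1/2) * h7_2 + (1/2) * h7_3 - (-1/2) * z2 - (1/2) * z3 - (-1/2) * z4 - (1/2) * z5 - (-1/2) * z17 - (-1/2) * z25 - (1/2) * z26 - (-1/2) * z46 - (1/2) * z48 - (1/2) * z53 - (-1/2) * z62 - (1/2) * z63 - (-1/2) * z77 - (1/2) * z78 - (1/2) * z89 - (-1/2) * z92 - (1/2) * z93 - (1/2) * z102 - (-1/2) * z103
  have h3_27 := h3 27 (by norm_num)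
  norm_num at h3_27
  have z27 : Z 27 = 0 := by linear_combination (-1/2) * h3_18 + 1 * h3_27 + (1/2) * h3_32 + (-1/2) * h3_33 + (1/2) * h5_4 + (1/2) * h5_5 + (-1/2) * h7_2 + (1/2) * h7_3 + -1 * h7_7 - (-1/2) * z2 - (1/2) * z3 - (1/2) * z4 - (1/2) * z5 - -1 * z7 - (-1/2) * z17 - -1 * z22 - (1/2) * z25 - (1/2) * z26 - -1 * z37 - (1/2) * z46 - (1/2) * z48 - -1 * z52 - (-1/2) * z53 - (1/2) * z62 - (1/2) * z63 - (-1/2) * z77 - (1/2) * z78 - -1 * z82 - (1/2) * z89 - (-1/2) * z92 - (1/2) * z93 - (1/2) * z102 - (-1/2) * z103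
  have z32 : Z 32 = 0 := by linear_combination (1/2) * h3_18 + (1/2) * h3_32 + (1/2) * h3_33 + (-1/2) * h5_4 + (-1/2) * h5_5 + (1/2) * h7_2 + (-1/2) * h7_3 - (1/2) * z2 - (-1/2) * z3 - (-1/2) * z4 - (-1/2) * z5 - (1/2) * z17 - (-1/2) * z25 - (-1/2) * z26 - (-1/2) * z46 - (-1/2) * z48 - (1/2) * z53 - (1/2) * z62 - (-1/2) * z63 - (1/2) * z77 - (-1/2) * z78 - (-1/2) * z89 - (1/2) * z92 - (-1/2) * z93 - (1/2) * z102 - (1/2) * z103
  have z33 : Z 33 = 0 := by linear_combination (-1/2) * h3_18 + (-1/2) * h3_32 + (1/2) * h3_33 + (1/2) * h5_4 + (-1/2) * h5_5 + (1/2) * h7_2 + (1/2) * h7_3 - (1/2) * z2 - (1/2) * z3 - (1/2) * z4 - (-1/2) * z5 - (1/2) * z17 - (1/2) * z25 - (-1/2) * z26 - (1/2) * z46 - (1/2) * z48 - (-1/2) * z53 - (1/2) * z62 - (1/2) * z63 - (1/2) * z77 - (1/2) * z78 - (-1/2) * z89 - (1/2) * z92 - (1/2) * z93 - (-1/2) * z102 - (1/2) * z103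
  have h3_4 := h3 4 (by norm_num)
  norm_num at h3_4
  have h5_11 := h5 11 (by norm_num)
  norm_num at h5_11
  have z39 : Z 39 = 0 := by linear_combination 1 * h3_4 + (1/2) * h3_18 + (1/2) * h3_32 + (1/2) * h3_33 + (-1/2) * h5_4 + (-1/2) * h5_5 + -1 * h5_11 + (1/2) * h7_2 + (-1/2) * h7_3 - (1/2) * z2 - (-1/2) * z3 - (1/2) * z4 - (-1/2) * z5 - -1 * z11 - (1/2) * z17 - (-1/2) * z25 - (-1/2) * z26 - (-1/2) * z46 - (-1/2) * z48 - (-1/2) * z53 - (1/2) * z62 - (-1/2) * z63 - (1/2) * z77 - (-1/2) * z78 - (-1/2) * z89 - (1/2) * z92 - (-1/2) * z93 - -1 * z95 - (1/2) * z102 - (1/2) * z103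
  have z47 : Z 47 = 0 := by linear_combination (-1/2) * h3_18 + (-1/2) * h3_32 + (-1/2) * h3_33 + (1/2) * h5_4 + (1/2) * h5_5 + (1/2) * h7_2 + (1/2) * h7_3 - (1/2) * z2 - (1/2) * z3 - (1/2) * z4 - (1/2) * z5 - (1/2) * z17 - (1/2) * z25 - (1/2) * z26 - (1/2) * z46 - (1/2) * z48 - (-1/2) * z53 - (1/2) * z62 - (1/2) * z63 - (1/2) * z77 - (1/2) * z78 - (1/2) * z89 - (1/2) * z92 - (1/2) * z93 - (-1/2) * z102 - (-1/2) * z103
  have z67 : Z 67 = 0 := by linear_combination (-1/2) * h3_18 + (1/2) * h3_32 + (-1/2) * h3_33 + (1/2) * h5_4 + (1/2) * h5_5 + (-1/2) * h7_2 + (1/2) * h7_3 - (-1/2) * z2 - (1/2) * z3 - (1/2) * z4 - (1/2) * z5 - (-1/2) * z17 - (1/2) * z25 - (1/2) * z26 - (1/2) * z46 - (1/2) * z48 - (-1/2) * z53 - (-1/2) * z62 - (1/2) * z63 - (-1/2) * z77 - (1/2) * z78 - (1/2) * z89 - (-1/2) * z92 - (1/2) * z93 - (1/2) * z102 - (-1/2) * z103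
  have z68 : Z 68 = 0 := by linear_combination (1/2) * h3_18 + (1/2) * h3_32 + (1/2) * h3_33 + (-1/2) * h5_4 + (1/2) * h5_5 + (-1/2) * h7_2 + (-1/2) * h7_3 - (-1/2) * z2 - (-1/2) * z3 - (-1/2) * z4 - (1/2) * z5 - (-1/2) * z17 - (-1/2) * z25 - (1/2) * z26 - (-1/2) * z46 - (-1/2) * z48 - (1/2) * z53 - (-1/2) * z62 - (-1/2) * z63 - (-1/2) * z77 - (-1/2) * z78 - (1/2) * z89 - (-1/2) * z92 - (-1/2) * z93 - (1/2) * z102 - (1/2) * z103
  have h5_6 := h5 6 (by norm_num)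
  norm_num at h5_6
  have z69 : Z 69 = 0 := by linear_combination (1/2) * h3_18 + -1 * h3_27 + (-1/2) * h3_32 + (1/2) * h3_33 + (-1/2) * h5_4 + (-1/2) * h5_5 + 1 * h5_6 + (1/2) * h7_2 + (-1/2) * h7_3 + 1 * h7_7 - (1/2) * z2 - (-1/2) * z3 - (-1/2) * z4 - (-1/2) * z5 - 1 * z6 - 1 * z7 - (1/2) * z17 - 1 * z22 - (-1/2) * z25 - (-1/2) * z26 - 1 * z37 - (-1/2) * z46 - (1/2) * z48 - 1 * z52 - (1/2) * z53 - (-1/2) * z62 - (-1/2) * z63 - (1/2) * z77 - (-1/2) * z78 - 1 * z82 - (-1/2) * z89 - 1 * z90 - (1/2) * z92 - (-1/2) * z93 - (-1/2) * z102 - (1/2) * z103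
  have z74 : Z 74 = 0 := by linear_combination (-1/2) * h3_18 + (-1/2) * h3_32 + (-1/2) * h3_33 + (1/2) * h5_4 + (1/2) * h5_5 + 1 * h5_11 + (-1/2) * h7_2 + (1/2) * h7_3 - (-1/2) * z2 - (1/2) * z3 - (1/2) * z4 - (1/2) * z5 - 1 * z11 - (-1/2) * z17 - (1/2) * z25 - (1/2) * z26 - (1/2) * z46 - (1/2) * z48 - (1/2) * z53 - (-1/2) * z62 - (1/2) * z63 - (-1/2) * z77 - (1/2) * z78 - (1/2) * z89 - (-1/2) * z92 - (1/2) * z93 - 1 * z95 - (-1/2) * z102 - (-1/2) * z103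
  have h3_13 := h3 13 (by norm_num)
  norm_num at h3_13
  have z83 : Z 83 = 0 := by linear_combination 1 * h3_13 + (1/2) * h3_18 + (-1/2) * h3_32 + (1/2) * h3_33 + (-1/2) * h5_4 + (-1/2) * h5_5 + -1 * h5_13 + (1/2) * h7_2 + (-1/2) * h7_3 + 1 * h7_7 - (1/2) * z2 - (-1/2) * z3 - (-1/2) * z4 - (-1/2) * z5 - 1 * z7 - (1/2) * z17 - 1 * z22 - (-1/2) * z25 - (-1/2) * z26 - -1 * z34 - 1 * z37 - (-1/2) * z46 - (1/2) * z48 - 1 * z52 - (1/2) * z53 - -1 * z55 - (1/2) * z62 - (-1/2) * z63 - -1 * z76 - (1/2) * z77 - (-1/2) * z78 - 1 * z82 - (-1/2) * z89 - (1/2) * z92 - (-1/2) * z93 - (-1/2) * z102 - (1/2) * z103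
  have z88 : Z 88 = 0 := by linear_combination (1/2) * h3_18 + (-1/2) * h3_32 + (1/2) * h3_33 + (1/2) * h5_4 + (-1/2) * h5_5 + (1/2) * h7_2 + (-1/2) * h7_3 - (1/2) * z2 - (-1/2) * z3 - (1/2) * z4 - (-1/2) * z5 - (1/2) * z17 - (1/2) * z25 - (-1/2) * z26 - (1/2) * z46 - (-1/2) * z48 - (1/2) * z53 - (1/2) * z62 - (-1/2) * z63 - (1/2) * z77 - (-1/2) * z78 - (-1/2) * z89 - (1/2) * z92 - (-1/2) * z93 - (-1/2) * z102 - (1/2) * z103
  have z97 : Z 97 = 0 := by linear_combination (1/2) * h3_18 + (-1/2) * h3_32 + (1/2) * h3_33 + (-1/2) * h5_4 + (-1/2) * h5_5 + (1/2) * h7_2 + (-1/2) * h7_3 + 1 * h7_7 - (1/2) * z2 - (-1/2) * z3 - (-1/2) * z4 - (-1/2) * z5 - 1 * z7 - (1/2) * z17 - 1 * z22 - (-1/2) * z25 - (-1/2) * z26 - 1 * z37 - (-1/2) * z46 - (-1/2) * z48 - 1 * z52 - (1/2) * z53 - (1/2) * z62 - (-1/2) * z63 - (1/2) * z77 - (-1/2) * z78 - 1 * z82 - (-1/2) * z89 - (1/2) * z92 - (-1/2) * z93 - (-1/2) * z102 - (1/2) * z103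
  have h5_20 := h5 20 (by norm_num)
  norm_num at h5_20
  have z104 : Z 104 = 0 := by linear_combination -1 * h3_13 + (-1/2) * h3_18 + (1/2) * h3_32 + (-1/2) * h3_33 + (1/2) * h5_4 + (1/2) * h5_5 + 1 * h5_13 + 1 * h5_20 + (-1/2) * h7_2 + (1/2) * h7_3 + -1 * h7_7 - (-1/2) * z2 - (1/2) * z3 - (1/2) * z4 - (1/2) * z5 - -1 * z7 - (-1/2) * z17 - 1 * z20 - -1 * z22 - (1/2) * z25 - (1/2) * z26 - 1 * z34 - -1 * z37 - 1 * z41 - (1/2) * z46 - (-1/2) * z48 - -1 * z52 - (-1/2) * z53 - 1 * z55 - (1/2) * z62 - (1/2) * z63 - 1 * z76 - (-1/2) * z77 - (1/2) * z78 - -1 * z82 - (1/2) * z89 - (-1/2) * z92 - (1/2) * z93 - (1/2) * z102 - (-1/2) * z103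
  intro s hs
  interval_cases s
  · exact z0
  · exact z1
  · exact z2
  · exact z3
  · exact z4
  · exact z5
  · exact z6
  · exact z7
  · exact z8
  · exact z9
  · exact z10
  · exact z11
  · exact z12
  · exact z13
  · exact z14
  · exact z15
  · exact z16
  · exact z17
  · exact z18
  · exact z19
  · exact z20
  · exact z21
  · exact z22
  · exact z23
  · exact z24
  · exact z25
  · exact z26
  · exact z27
  · exact z28
  · exact z29
  · exact z30
  · exact z31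
  · exact z32
  · exact z33
  · exact z34
  · exact z35
  · exact z36
  · exact z37
  · exact z38
  · exact z39
  · exact z40
  · exact z41
  · exact z42
  · exact z43
  · exact z44
  · exact z45
  · exact z46
  · exact z47
  · exact z48
  · exact z49
  · exact z50
  · exact z51
  · exact z52
  · exact z53
  · exact z54
  · exact z55
  · exact z56
  · exact z57
  · exact z58
  · exact z59
  · exact z60
  · exact z61
  · exact z62
  · exact z63
  · exact z64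
  · exact z65
  · exact z66
  · exact z67
  · exact z68
  · exact z69
  · exact z70
  · exact z71
  · exact z72
  · exact z73
  · exact z74
  · exact z75
  · exact z76
  · exact z77
  · exact z78
  · exact z79
  · exact z80
  · exact z81
  · exact z82
  · exact z83
  · exact z84
  · exact z85
  · exact z86
  · exact z87
  · exact z88
  · exact z89
  · exact z90
  · exact z91
  · exact z92
  · exact z93
  · exact z94
  · exact z95
  · exact z96
  · exact z97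
  · exact z98
  · exact z99
  · exact z100
  · exact z101
  · exact z102
  · exact z103
  · exact z104

/-- The recurrence given by `Φ_105` and the first 48 values determine `Y`. -/
theorem rec_values (Z : ℕ → ℝ)
    (hrec : ∀ n, Z n + Z (n + 1) + Z (n + 2) - Z (n + 5) - Z (n + 6) - 2 * Z (n + 7) - Z (n + 8) - Z (n + 9) + Z (n + 12) + Z (n + 13) + Z (n + 14) + Z (n + 15) + Z (n + 16) + Z (n + 17) - Z (n + 20) - Z (n + 22) - Z (n + 24) - Z (n + 26) - Z (n + 28) + Z (n + 31) + Z (n + 32) + Z (n + 33) + Z (n + 34) + Z (n + 35) + Z (n + 36) - Z (n + 39) - Z (n + 40) - 2 * Z (n + 41) - Z (n + 42) - Z (n + 43) + Z (n + 46) + Z (n + 47) + Z (n + 48) = 0)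
    (h0 : ∀ s, s < 48 → Z s = (Ytab.getD s 0 : ℝ) / 2) :
    ∀ s, s < 105 → Z s = (Ytab.getD s 0 : ℝ) / 2 := by
  have z0 : Z 0 = -1 := by rw [h0 0 (by norm_num)]; norm_num [Ytab]
  have z1 : Z 1 = 1 := by rw [h0 1 (by norm_num)]; norm_num [Ytab]
  have z2 : Z 2 = 0 := by rw [h0 2 (by norm_num)]; norm_num [Ytab]
  have z3 : Z 3 = 1 := by rw [h0 3 (by norm_num)]; norm_num [Ytab]
  have z4 : Z 4 = 1 := by rw [h0 4 (by norm_num)]; norm_num [Ytab]
  have z5 : Z 5 = -2 := by rw [h0 5 (by norm_num)]; norm_num [Ytab]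
  have z6 : Z 6 = 1 := by rw [h0 6 (by norm_num)]; norm_num [Ytab]
  have z7 : Z 7 = 1 := by rw [h0 7 (by norm_num)]; norm_num [Ytab]
  have z8 : Z 8 = -2 := by rw [h0 8 (by norm_num)]; norm_num [Ytab]
  have z9 : Z 9 = 1 := by rw [h0 9 (by norm_num)]; norm_num [Ytab]
  have z10 : Z 10 = 0 := by rw [h0 10 (by norm_num)]; norm_num [Ytab]
  have z11 : Z 11 = -2 := by rw [h0 11 (by norm_num)]; norm_num [Ytab]
  have z12 : Z 12 = (-1/2) := by rw [h0 12 (by norm_num)]; norm_num [Ytab]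
  have z13 : Z 13 = (1/2) := by rw [h0 13 (by norm_num)]; norm_num [Ytab]
  have z14 : Z 14 = 0 := by rw [h0 14 (by norm_num)]; norm_num [Ytab]
  have z15 : Z 15 = 1 := by rw [h0 15 (by norm_num)]; norm_num [Ytab]
  have z16 : Z 16 = 1 := by rw [h0 16 (by norm_num)]; norm_num [Ytab]
  have z17 : Z 17 = 1 := by rw [h0 17 (by norm_num)]; norm_num [Ytab]
  have z18 : Z 18 = (-3/2) := by rw [h0 18 (by norm_num)]; norm_num [Ytab]
  have z19 : Z 19 = -1 := by rw [h0 19 (by norm_num)]; norm_num [Ytab]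
  have z20 : Z 20 = 1 := by rw [h0 20 (by norm_num)]; norm_num [Ytab]
  have z21 : Z 21 = -2 := by rw [h0 21 (by norm_num)]; norm_num [Ytab]
  have z22 : Z 22 = -1 := by rw [h0 22 (by norm_num)]; norm_num [Ytab]
  have z23 : Z 23 = 0 := by rw [h0 23 (by norm_num)]; norm_num [Ytab]
  have z24 : Z 24 = 1 := by rw [h0 24 (by norm_num)]; norm_num [Ytab]
  have z25 : Z 25 = -2 := by rw [h0 25 (by norm_num)]; norm_num [Ytab]
  have z26 : Z 26 = 1 := by rw [h0 26 (by norm_num)]; norm_num [Ytab]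
  have z27 : Z 27 = (-1/2) := by rw [h0 27 (by norm_num)]; norm_num [Ytab]
  have z28 : Z 28 = -2 := by rw [h0 28 (by norm_num)]; norm_num [Ytab]
  have z29 : Z 29 = 1 := by rw [h0 29 (by norm_num)]; norm_num [Ytab]
  have z30 : Z 30 = 1 := by rw [h0 30 (by norm_num)]; norm_num [Ytab]
  have z31 : Z 31 = 0 := by rw [h0 31 (by norm_num)]; norm_num [Ytab]
  have z32 : Z 32 = (-1/2) := by rw [h0 32 (by norm_num)]; norm_num [Ytab]
  have z33 : Z 33 = (-3/2) := by rw [h0 33 (by norm_num)]; norm_num [Ytab]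
  have z34 : Z 34 = 1 := by rw [h0 34 (by norm_num)]; norm_num [Ytab]
  have z35 : Z 35 = 0 := by rw [h0 35 (by norm_num)]; norm_num [Ytab]
  have z36 : Z 36 = 0 := by rw [h0 36 (by norm_num)]; norm_num [Ytab]
  have z37 : Z 37 = -1 := by rw [h0 37 (by norm_num)]; norm_num [Ytab]
  have z38 : Z 38 = 1 := by rw [h0 38 (by norm_num)]; norm_num [Ytab]
  have z39 : Z 39 = (-3/2) := by rw [h0 39 (by norm_num)]; norm_num [Ytab]
  have z40 : Z 40 = 1 := by rw [h0 40 (by norm_num)]; norm_num [Ytab]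
  have z41 : Z 41 = 1 := by rw [h0 41 (by norm_num)]; norm_num [Ytab]
  have z42 : Z 42 = 1 := by rw [h0 42 (by norm_num)]; norm_num [Ytab]
  have z43 : Z 43 = 1 := by rw [h0 43 (by norm_num)]; norm_num [Ytab]
  have z44 : Z 44 = 1 := by rw [h0 44 (by norm_num)]; norm_num [Ytab]
  have z45 : Z 45 = -1 := by rw [h0 45 (by norm_num)]; norm_num [Ytab]
  have z46 : Z 46 = 1 := by rw [h0 46 (by norm_num)]; norm_num [Ytab]
  have z47 : Z 47 = (-1/2) := by rw [h0 47 (by norm_num)]; norm_num [Ytab]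
  have r0 := hrec 0
  norm_num at r0
  have z48 : Z 48 = 1 := by linear_combination r0 - (1) * z0 - (1) * z1 - (1) * z2 - (-1) * z5 - (-1) * z6 - (-2) * z7 - (-1) * z8 - (-1) * z9 - (1) * z12 - (1) * z13 - (1) * z14 - (1) * z15 - (1) * z16 - (1) * z17 - (-1) * z20 - (-1) * z22 - (-1) * z24 - (-1) * z26 - (-1) * z28 - (1) * z31 - (1) * z32 - (1) * z33 - (1) * z34 - (1) * z35 - (1) * z36 - (-1) * z39 - (-1) * z40 - (-2) * z41 - (-1) * z42 - (-1) * z43 - (1) * z46 - (1) * z47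
  have r1 := hrec 1
  norm_num at r1
  have z49 : Z 49 = -1 := by linear_combination r1 - (1) * z1 - (1) * z2 - (1) * z3 - (-1) * z6 - (-1) * z7 - (-2) * z8 - (-1) * z9 - (-1) * z10 - (1) * z13 - (1) * z14 - (1) * z15 - (1) * z16 - (1) * z17 - (1) * z18 - (-1) * z21 - (-1) * z23 - (-1) * z25 - (-1) * z27 - (-1) * z29 - (1) * z32 - (1) * z33 - (1) * z34 - (1) * z35 - (1) * z36 - (1) * z37 - (-1) * z40 - (-1) * z41 - (-2) * z42 - (-1) * z43 - (-1) * z44 - (1) * z47 - (1) * z48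
  have r2 := hrec 2
  norm_num at r2
  have z50 : Z 50 = 1 := by linear_combination r2 - (1) * z2 - (1) * z3 - (1) * z4 - (-1) * z7 - (-1) * z8 - (-2) * z9 - (-1) * z10 - (-1) * z11 - (1) * z14 - (1) * z15 - (1) * z16 - (1) * z17 - (1) * z18 - (1) * z19 - (-1) * z22 - (-1) * z24 - (-1) * z26 - (-1) * z28 - (-1) * z30 - (1) * z33 - (1) * z34 - (1) * z35 - (1) * z36 - (1) * z37 - (1) * z38 - (-1) * z41 - (-1) * z42 - (-2) * z43 - (-1) * z44 - (-1) * z45 - (1) * z48 - (1) * z49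
  have r3 := hrec 3
  norm_num at r3
  have z51 : Z 51 = -2 := by linear_combination r3 - (1) * z3 - (1) * z4 - (1) * z5 - (-1) * z8 - (-1) * z9 - (-2) * z10 - (-1) * z11 - (-1) * z12 - (1) * z15 - (1) * z16 - (1) * z17 - (1) * z18 - (1) * z19 - (1) * z20 - (-1) * z23 - (-1) * z25 - (-1) * z27 - (-1) * z29 - (-1) * z31 - (1) * z34 - (1) * z35 - (1) * z36 - (1) * z37 - (1) * z38 - (1) * z39 - (-1) * z42 - (-1) * z43 - (-2) * z44 - (-1) * z45 - (-1) * z46 - (1) * z49 - (1) * z50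
  have r4 := hrec 4
  norm_num at r4
  have z52 : Z 52 = 1 := by linear_combination r4 - (1) * z4 - (1) * z5 - (1) * z6 - (-1) * z9 - (-1) * z10 - (-2) * z11 - (-1) * z12 - (-1) * z13 - (1) * z16 - (1) * z17 - (1) * z18 - (1) * z19 - (1) * z20 - (1) * z21 - (-1) * z24 - (-1) * z26 - (-1) * z28 - (-1) * z30 - (-1) * z32 - (1) * z35 - (1) * z36 - (1) * z37 - (1) * z38 - (1) * z39 - (1) * z40 - (-1) * z43 - (-1) * z44 - (-2) * z45 - (-1) * z46 - (-1) * z47 - (1) * z50 - (1) * z51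
  have r5 := hrec 5
  norm_num at r5
  have z53 : Z 53 = 1 := by linear_combination r5 - (1) * z5 - (1) * z6 - (1) * z7 - (-1) * z10 - (-1) * z11 - (-2) * z12 - (-1) * z13 - (-1) * z14 - (1) * z17 - (1) * z18 - (1) * z19 - (1) * z20 - (1) * z21 - (1) * z22 - (-1) * z25 - (-1) * z27 - (-1) * z29 - (-1) * z31 - (-1) * z33 - (1) * z36 - (1) * z37 - (1) * z38 - (1) * z39 - (1) * z40 - (1) * z41 - (-1) * z44 - (-1) * z45 - (-2) * z46 - (-1) * z47 - (-1) * z48 - (1) * z51 - (1) * z52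
  have r6 := hrec 6
  norm_num at r6
  have z54 : Z 54 = 0 := by linear_combination r6 - (1) * z6 - (1) * z7 - (1) * z8 - (-1) * z11 - (-1) * z12 - (-2) * z13 - (-1) * z14 - (-1) * z15 - (1) * z18 - (1) * z19 - (1) * z20 - (1) * z21 - (1) * z22 - (1) * z23 - (-1) * z26 - (-1) * z28 - (-1) * z30 - (-1) * z32 - (-1) * z34 - (1) * z37 - (1) * z38 - (1) * z39 - (1) * z40 - (1) * z41 - (1) * z42 - (-1) * z45 - (-1) * z46 - (-2) * z47 - (-1) * z48 - (-1) * z49 - (1) * z52 - (1) * z53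
  have r7 := hrec 7
  norm_num at r7
  have z55 : Z 55 = 1 := by linear_combination r7 - (1) * z7 - (1) * z8 - (1) * z9 - (-1) * z12 - (-1) * z13 - (-2) * z14 - (-1) * z15 - (-1) * z16 - (1) * z19 - (1) * z20 - (1) * z21 - (1) * z22 - (1) * z23 - (1) * z24 - (-1) * z27 - (-1) * z29 - (-1) * z31 - (-1) * z33 - (-1) * z35 - (1) * z38 - (1) * z39 - (1) * z40 - (1) * z41 - (1) * z42 - (1) * z43 - (-1) * z46 - (-1) * z47 - (-2) * z48 - (-1) * z49 - (-1) * z50 - (1) * z53 - (1) * z54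
  have r8 := hrec 8
  norm_num at r8
  have z56 : Z 56 = 1 := by linear_combination r8 - (1) * z8 - (1) * z9 - (1) * z10 - (-1) * z13 - (-1) * z14 - (-2) * z15 - (-1) * z16 - (-1) * z17 - (1) * z20 - (1) * z21 - (1) * z22 - (1) * z23 - (1) * z24 - (1) * z25 - (-1) * z28 - (-1) * z30 - (-1) * z32 - (-1) * z34 - (-1) * z36 - (1) * z39 - (1) * z40 - (1) * z41 - (1) * z42 - (1) * z43 - (1) * z44 - (-1) * z47 - (-1) * z48 - (-2) * z49 - (-1) * z50 - (-1) * z51 - (1) * z54 - (1) * z55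
  have r9 := hrec 9
  norm_num at r9
  have z57 : Z 57 = 0 := by linear_combination r9 - (1) * z9 - (1) * z10 - (1) * z11 - (-1) * z14 - (-1) * z15 - (-2) * z16 - (-1) * z17 - (-1) * z18 - (1) * z21 - (1) * z22 - (1) * z23 - (1) * z24 - (1) * z25 - (1) * z26 - (-1) * z29 - (-1) * z31 - (-1) * z33 - (-1) * z35 - (-1) * z37 - (1) * z40 - (1) * z41 - (1) * z42 - (1) * z43 - (1) * z44 - (1) * z45 - (-1) * z48 - (-1) * z49 - (-2) * z50 - (-1) * z51 - (-1) * z52 - (1) * z55 - (1) * z56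
  have r10 := hrec 10
  norm_num at r10
  have z58 : Z 58 = 1 := by linear_combination r10 - (1) * z10 - (1) * z11 - (1) * z12 - (-1) * z15 - (-1) * z16 - (-2) * z17 - (-1) * z18 - (-1) * z19 - (1) * z22 - (1) * z23 - (1) * z24 - (1) * z25 - (1) * z26 - (1) * z27 - (-1) * z30 - (-1) * z32 - (-1) * z34 - (-1) * z36 - (-1) * z38 - (1) * z41 - (1) * z42 - (1) * z43 - (1) * z44 - (1) * z45 - (1) * z46 - (-1) * z49 - (-1) * z50 - (-2) * z51 - (-1) * z52 - (-1) * z53 - (1) * z56 - (1) * z57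
  have r11 := hrec 11
  norm_num at r11
  have z59 : Z 59 = -2 := by linear_combination r11 - (1) * z11 - (1) * z12 - (1) * z13 - (-1) * z16 - (-1) * z17 - (-2) * z18 - (-1) * z19 - (-1) * z20 - (1) * z23 - (1) * z24 - (1) * z25 - (1) * z26 - (1) * z27 - (1) * z28 - (-1) * z31 - (-1) * z33 - (-1) * z35 - (-1) * z37 - (-1) * z39 - (1) * z42 - (1) * z43 - (1) * z44 - (1) * z45 - (1) * z46 - (1) * z47 - (-1) * z50 - (-1) * z51 - (-2) * z52 - (-1) * z53 - (-1) * z54 - (1) * z57 - (1) * z58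
  have r12 := hrec 12
  norm_num at r12
  have z60 : Z 60 = 1 := by linear_combination r12 - (1) * z12 - (1) * z13 - (1) * z14 - (-1) * z17 - (-1) * z18 - (-2) * z19 - (-1) * z20 - (-1) * z21 - (1) * z24 - (1) * z25 - (1) * z26 - (1) * z27 - (1) * z28 - (1) * z29 - (-1) * z32 - (-1) * z34 - (-1) * z36 - (-1) * z38 - (-1) * z40 - (1) * z43 - (1) * z44 - (1) * z45 - (1) * z46 - (1) * z47 - (1) * z48 - (-1) * z51 - (-1) * z52 - (-2) * z53 - (-1) * z54 - (-1) * z55 - (1) * z58 - (1) * z59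
  have r13 := hrec 13
  norm_num at r13
  have z61 : Z 61 = -2 := by linear_combination r13 - (1) * z13 - (1) * z14 - (1) * z15 - (-1) * z18 - (-1) * z19 - (-2) * z20 - (-1) * z21 - (-1) * z22 - (1) * z25 - (1) * z26 - (1) * z27 - (1) * z28 - (1) * z29 - (1) * z30 - (-1) * z33 - (-1) * z35 - (-1) * z37 - (-1) * z39 - (-1) * z41 - (1) * z44 - (1) * z45 - (1) * z46 - (1) * z47 - (1) * z48 - (1) * z49 - (-1) * z52 - (-1) * z53 - (-2) * z54 - (-1) * z55 - (-1) * z56 - (1) * z59 - (1) * z60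
  have r14 := hrec 14
  norm_num at r14
  have z62 : Z 62 = 1 := by linear_combination r14 - (1) * z14 - (1) * z15 - (1) * z16 - (-1) * z19 - (-1) * z20 - (-2) * z21 - (-1) * z22 - (-1) * z23 - (1) * z26 - (1) * z27 - (1) * z28 - (1) * z29 - (1) * z30 - (1) * z31 - (-1) * z34 - (-1) * z36 - (-1) * z38 - (-1) * z40 - (-1) * z42 - (1) * z45 - (1) * z46 - (1) * z47 - (1) * z48 - (1) * z49 - (1) * z50 - (-1) * z53 - (-1) * z54 - (-2) * z55 - (-1) * z56 - (-1) * z57 - (1) * z60 - (1) * z61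
  have r15 := hrec 15
  norm_num at r15
  have z63 : Z 63 = 1 := by linear_combination r15 - (1) * z15 - (1) * z16 - (1) * z17 - (-1) * z20 - (-1) * z21 - (-2) * z22 - (-1) * z23 - (-1) * z24 - (1) * z27 - (1) * z28 - (1) * z29 - (1) * z30 - (1) * z31 - (1) * z32 - (-1) * z35 - (-1) * z37 - (-1) * z39 - (-1) * z41 - (-1) * z43 - (1) * z46 - (1) * z47 - (1) * z48 - (1) * z49 - (1) * z50 - (1) * z51 - (-1) * z54 - (-1) * z55 - (-2) * z56 - (-1) * z57 - (-1) * z58 - (1) * z61 - (1) * z62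
  have r16 := hrec 16
  norm_num at r16
  have z64 : Z 64 = 1 := by linear_combination r16 - (1) * z16 - (1) * z17 - (1) * z18 - (-1) * z21 - (-1) * z22 - (-2) * z23 - (-1) * z24 - (-1) * z25 - (1) * z28 - (1) * z29 - (1) * z30 - (1) * z31 - (1) * z32 - (1) * z33 - (-1) * z36 - (-1) * z38 - (-1) * z40 - (-1) * z42 - (-1) * z44 - (1) * z47 - (1) * z48 - (1) * z49 - (1) * z50 - (1) * z51 - (1) * z52 - (-1) * z55 - (-1) * z56 - (-2) * z57 - (-1) * z58 - (-1) * z59 - (1) * z62 - (1) * z63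
  have r17 := hrec 17
  norm_num at r17
  have z65 : Z 65 = -2 := by linear_combination r17 - (1) * z17 - (1) * z18 - (1) * z19 - (-1) * z22 - (-1) * z23 - (-2) * z24 - (-1) * z25 - (-1) * z26 - (1) * z29 - (1) * z30 - (1) * z31 - (1) * z32 - (1) * z33 - (1) * z34 - (-1) * z37 - (-1) * z39 - (-1) * z41 - (-1) * z43 - (-1) * z45 - (1) * z48 - (1) * z49 - (1) * z50 - (1) * z51 - (1) * z52 - (1) * z53 - (-1) * z56 - (-1) * z57 - (-2) * z58 - (-1) * z59 - (-1) * z60 - (1) * z63 - (1) * z64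
  have r18 := hrec 18
  norm_num at r18
  have z66 : Z 66 = 1 := by linear_combination r18 - (1) * z18 - (1) * z19 - (1) * z20 - (-1) * z23 - (-1) * z24 - (-2) * z25 - (-1) * z26 - (-1) * z27 - (1) * z30 - (1) * z31 - (1) * z32 - (1) * z33 - (1) * z34 - (1) * z35 - (-1) * z38 - (-1) * z40 - (-1) * z42 - (-1) * z44 - (-1) * z46 - (1) * z49 - (1) * z50 - (1) * z51 - (1) * z52 - (1) * z53 - (1) * z54 - (-1) * z57 - (-1) * z58 - (-2) * z59 - (-1) * z60 - (-1) * z61 - (1) * z64 - (1) * z65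
  have r19 := hrec 19
  norm_num at r19
  have z67 : Z 67 = (-1/2) := by linear_combination r19 - (1) * z19 - (1) * z20 - (1) * z21 - (-1) * z24 - (-1) * z25 - (-2) * z26 - (-1) * z27 - (-1) * z28 - (1) * z31 - (1) * z32 - (1) * z33 - (1) * z34 - (1) * z35 - (1) * z36 - (-1) * z39 - (-1) * z41 - (-1) * z43 - (-1) * z45 - (-1) * z47 - (1) * z50 - (1) * z51 - (1) * z52 - (1) * z53 - (1) * z54 - (1) * z55 - (-1) * z58 - (-1) * z59 - (-2) * z60 - (-1) * z61 - (-1) * z62 - (1) * z65 - (1) * z66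
  have r20 := hrec 20
  norm_num at r20
  have z68 : Z 68 = (1/2) := by linear_combination r20 - (1) * z20 - (1) * z21 - (1) * z22 - (-1) * z25 - (-1) * z26 - (-2) * z27 - (-1) * z28 - (-1) * z29 - (1) * z32 - (1) * z33 - (1) * z34 - (1) * z35 - (1) * z36 - (1) * z37 - (-1) * z40 - (-1) * z42 - (-1) * z44 - (-1) * z46 - (-1) * z48 - (1) * z51 - (1) * z52 - (1) * z53 - (1) * z54 - (1) * z55 - (1) * z56 - (-1) * z59 - (-1) * z60 - (-2) * z61 - (-1) * z62 - (-1) * z63 - (1) * z66 - (1) * z67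
  have r21 := hrec 21
  norm_num at r21
  have z69 : Z 69 = (1/2) := by linear_combination r21 - (1) * z21 - (1) * z22 - (1) * z23 - (-1) * z26 - (-1) * z27 - (-2) * z28 - (-1) * z29 - (-1) * z30 - (1) * z33 - (1) * z34 - (1) * z35 - (1) * z36 - (1) * z37 - (1) * z38 - (-1) * z41 - (-1) * z43 - (-1) * z45 - (-1) * z47 - (-1) * z49 - (1) * z52 - (1) * z53 - (1) * z54 - (1) * z55 - (1) * z56 - (1) * z57 - (-1) * z60 - (-1) * z61 - (-2) * z62 - (-1) * z63 - (-1) * z64 - (1) * z67 - (1) * z68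
  have r22 := hrec 22
  norm_num at r22
  have z70 : Z 70 = 1 := by linear_combination r22 - (1) * z22 - (1) * z23 - (1) * z24 - (-1) * z27 - (-1) * z28 - (-2) * z29 - (-1) * z30 - (-1) * z31 - (1) * z34 - (1) * z35 - (1) * z36 - (1) * z37 - (1) * z38 - (1) * z39 - (-1) * z42 - (-1) * z44 - (-1) * z46 - (-1) * z48 - (-1) * z50 - (1) * z53 - (1) * z54 - (1) * z55 - (1) * z56 - (1) * z57 - (1) * z58 - (-1) * z61 - (-1) * z62 - (-2) * z63 - (-1) * z64 - (-1) * z65 - (1) * z68 - (1) * z69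
  have r23 := hrec 23
  norm_num at r23
  have z71 : Z 71 = -1 := by linear_combination r23 - (1) * z23 - (1) * z24 - (1) * z25 - (-1) * z28 - (-1) * z29 - (-2) * z30 - (-1) * z31 - (-1) * z32 - (1) * z35 - (1) * z36 - (1) * z37 - (1) * z38 - (1) * z39 - (1) * z40 - (-1) * z43 - (-1) * z45 - (-1) * z47 - (-1) * z49 - (-1) * z51 - (1) * z54 - (1) * z55 - (1) * z56 - (1) * z57 - (1) * z58 - (1) * z59 - (-1) * z62 - (-1) * z63 - (-2) * z64 - (-1) * z65 - (-1) * z66 - (1) * z69 - (1) * z70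
  have r24 := hrec 24
  norm_num at r24
  have z72 : Z 72 = 1 := by linear_combination r24 - (1) * z24 - (1) * z25 - (1) * z26 - (-1) * z29 - (-1) * z30 - (-2) * z31 - (-1) * z32 - (-1) * z33 - (1) * z36 - (1) * z37 - (1) * z38 - (1) * z39 - (1) * z40 - (1) * z41 - (-1) * z44 - (-1) * z46 - (-1) * z48 - (-1) * z50 - (-1) * z52 - (1) * z55 - (1) * z56 - (1) * z57 - (1) * z58 - (1) * z59 - (1) * z60 - (-1) * z63 - (-1) * z64 - (-2) * z65 - (-1) * z66 - (-1) * z67 - (1) * z70 - (1) * z71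
  have r25 := hrec 25
  norm_num at r25
  have z73 : Z 73 = -2 := by linear_combination r25 - (1) * z25 - (1) * z26 - (1) * z27 - (-1) * z30 - (-1) * z31 - (-2) * z32 - (-1) * z33 - (-1) * z34 - (1) * z37 - (1) * z38 - (1) * z39 - (1) * z40 - (1) * z41 - (1) * z42 - (-1) * z45 - (-1) * z47 - (-1) * z49 - (-1) * z51 - (-1) * z53 - (1) * z56 - (1) * z57 - (1) * z58 - (1) * z59 - (1) * z60 - (1) * z61 - (-1) * z64 - (-1) * z65 - (-2) * z66 - (-1) * z67 - (-1) * z68 - (1) * z71 - (1) * z72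
  have r26 := hrec 26
  norm_num at r26
  have z74 : Z 74 = (1/2) := by linear_combination r26 - (1) * z26 - (1) * z27 - (1) * z28 - (-1) * z31 - (-1) * z32 - (-2) * z33 - (-1) * z34 - (-1) * z35 - (1) * z38 - (1) * z39 - (1) * z40 - (1) * z41 - (1) * z42 - (1) * z43 - (-1) * z46 - (-1) * z48 - (-1) * z50 - (-1) * z52 - (-1) * z54 - (1) * z57 - (1) * z58 - (1) * z59 - (1) * z60 - (1) * z61 - (1) * z62 - (-1) * z65 - (-1) * z66 - (-2) * z67 - (-1) * z68 - (-1) * z69 - (1) * z72 - (1) * z73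
  have r27 := hrec 27
  norm_num at r27
  have z75 : Z 75 = 1 := by linear_combination r27 - (1) * z27 - (1) * z28 - (1) * z29 - (-1) * z32 - (-1) * z33 - (-2) * z34 - (-1) * z35 - (-1) * z36 - (1) * z39 - (1) * z40 - (1) * z41 - (1) * z42 - (1) * z43 - (1) * z44 - (-1) * z47 - (-1) * z49 - (-1) * z51 - (-1) * z53 - (-1) * z55 - (1) * z58 - (1) * z59 - (1) * z60 - (1) * z61 - (1) * z62 - (1) * z63 - (-1) * z66 - (-1) * z67 - (-2) * z68 - (-1) * z69 - (-1) * z70 - (1) * z73 - (1) * z74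
  have r28 := hrec 28
  norm_num at r28
  have z76 : Z 76 = -2 := by linear_combination r28 - (1) * z28 - (1) * z29 - (1) * z30 - (-1) * z33 - (-1) * z34 - (-2) * z35 - (-1) * z36 - (-1) * z37 - (1) * z40 - (1) * z41 - (1) * z42 - (1) * z43 - (1) * z44 - (1) * z45 - (-1) * z48 - (-1) * z50 - (-1) * z52 - (-1) * z54 - (-1) * z56 - (1) * z59 - (1) * z60 - (1) * z61 - (1) * z62 - (1) * z63 - (1) * z64 - (-1) * z67 - (-1) * z68 - (-2) * z69 - (-1) * z70 - (-1) * z71 - (1) * z74 - (1) * z75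
  have r29 := hrec 29
  norm_num at r29
  have z77 : Z 77 = -2 := by linear_combination r29 - (1) * z29 - (1) * z30 - (1) * z31 - (-1) * z34 - (-1) * z35 - (-2) * z36 - (-1) * z37 - (-1) * z38 - (1) * z41 - (1) * z42 - (1) * z43 - (1) * z44 - (1) * z45 - (1) * z46 - (-1) * z49 - (-1) * z51 - (-1) * z53 - (-1) * z55 - (-1) * z57 - (1) * z60 - (1) * z61 - (1) * z62 - (1) * z63 - (1) * z64 - (1) * z65 - (-1) * z68 - (-1) * z69 - (-2) * z70 - (-1) * z71 - (-1) * z72 - (1) * z75 - (1) * z76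
  have r30 := hrec 30
  norm_num at r30
  have z78 : Z 78 = 1 := by linear_combination r30 - (1) * z30 - (1) * z31 - (1) * z32 - (-1) * z35 - (-1) * z36 - (-2) * z37 - (-1) * z38 - (-1) * z39 - (1) * z42 - (1) * z43 - (1) * z44 - (1) * z45 - (1) * z46 - (1) * z47 - (-1) * z50 - (-1) * z52 - (-1) * z54 - (-1) * z56 - (-1) * z58 - (1) * z61 - (1) * z62 - (1) * z63 - (1) * z64 - (1) * z65 - (1) * z66 - (-1) * z69 - (-1) * z70 - (-2) * z71 - (-1) * z72 - (-1) * z73 - (1) * z76 - (1) * z77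
  have r31 := hrec 31
  norm_num at r31
  have z79 : Z 79 = -2 := by linear_combination r31 - (1) * z31 - (1) * z32 - (1) * z33 - (-1) * z36 - (-1) * z37 - (-2) * z38 - (-1) * z39 - (-1) * z40 - (1) * z43 - (1) * z44 - (1) * z45 - (1) * z46 - (1) * z47 - (1) * z48 - (-1) * z51 - (-1) * z53 - (-1) * z55 - (-1) * z57 - (-1) * z59 - (1) * z62 - (1) * z63 - (1) * z64 - (1) * z65 - (1) * z66 - (1) * z67 - (-1) * z70 - (-1) * z71 - (-2) * z72 - (-1) * z73 - (-1) * z74 - (1) * z77 - (1) * z78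
  have r32 := hrec 32
  norm_num at r32
  have z80 : Z 80 = 1 := by linear_combination r32 - (1) * z32 - (1) * z33 - (1) * z34 - (-1) * z37 - (-1) * z38 - (-2) * z39 - (-1) * z40 - (-1) * z41 - (1) * z44 - (1) * z45 - (1) * z46 - (1) * z47 - (1) * z48 - (1) * z49 - (-1) * z52 - (-1) * z54 - (-1) * z56 - (-1) * z58 - (-1) * z60 - (1) * z63 - (1) * z64 - (1) * z65 - (1) * z66 - (1) * z67 - (1) * z68 - (-1) * z71 - (-1) * z72 - (-2) * z73 - (-1) * z74 - (-1) * z75 - (1) * z78 - (1) * z79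
  have r33 := hrec 33
  norm_num at r33
  have z81 : Z 81 = 1 := by linear_combination r33 - (1) * z33 - (1) * z34 - (1) * z35 - (-1) * z38 - (-1) * z39 - (-2) * z40 - (-1) * z41 - (-1) * z42 - (1) * z45 - (1) * z46 - (1) * z47 - (1) * z48 - (1) * z49 - (1) * z50 - (-1) * z53 - (-1) * z55 - (-1) * z57 - (-1) * z59 - (-1) * z61 - (1) * z64 - (1) * z65 - (1) * z66 - (1) * z67 - (1) * z68 - (1) * z69 - (-1) * z72 - (-1) * z73 - (-2) * z74 - (-1) * z75 - (-1) * z76 - (1) * z79 - (1) * z80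
  have r34 := hrec 34
  norm_num at r34
  have z82 : Z 82 = 1 := by linear_combination r34 - (1) * z34 - (1) * z35 - (1) * z36 - (-1) * z39 - (-1) * z40 - (-2) * z41 - (-1) * z42 - (-1) * z43 - (1) * z46 - (1) * z47 - (1) * z48 - (1) * z49 - (1) * z50 - (1) * z51 - (-1) * z54 - (-1) * z56 - (-1) * z58 - (-1) * z60 - (-1) * z62 - (1) * z65 - (1) * z66 - (1) * z67 - (1) * z68 - (1) * z69 - (1) * z70 - (-1) * z73 - (-1) * z74 - (-2) * z75 - (-1) * z76 - (-1) * z77 - (1) * z80 - (1) * z81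
  have r35 := hrec 35
  norm_num at r35
  have z83 : Z 83 = (-3/2) := by linear_combination r35 - (1) * z35 - (1) * z36 - (1) * z37 - (-1) * z40 - (-1) * z41 - (-2) * z42 - (-1) * z43 - (-1) * z44 - (1) * z47 - (1) * z48 - (1) * z49 - (1) * z50 - (1) * z51 - (1) * z52 - (-1) * z55 - (-1) * z57 - (-1) * z59 - (-1) * z61 - (-1) * z63 - (1) * z66 - (1) * z67 - (1) * z68 - (1) * z69 - (1) * z70 - (1) * z71 - (-1) * z74 - (-1) * z75 - (-2) * z76 - (-1) * z77 - (-1) * z78 - (1) * z81 - (1) * z82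
  have r36 := hrec 36
  norm_num at r36
  have z84 : Z 84 = 1 := by linear_combination r36 - (1) * z36 - (1) * z37 - (1) * z38 - (-1) * z41 - (-1) * z42 - (-2) * z43 - (-1) * z44 - (-1) * z45 - (1) * z48 - (1) * z49 - (1) * z50 - (1) * z51 - (1) * z52 - (1) * z53 - (-1) * z56 - (-1) * z58 - (-1) * z60 - (-1) * z62 - (-1) * z64 - (1) * z67 - (1) * z68 - (1) * z69 - (1) * z70 - (1) * z71 - (1) * z72 - (-1) * z75 - (-1) * z76 - (-2) * z77 - (-1) * z78 - (-1) * z79 - (1) * z82 - (1) * z83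
  have r37 := hrec 37
  norm_num at r37
  have z85 : Z 85 = -2 := by linear_combination r37 - (1) * z37 - (1) * z38 - (1) * z39 - (-1) * z42 - (-1) * z43 - (-2) * z44 - (-1) * z45 - (-1) * z46 - (1) * z49 - (1) * z50 - (1) * z51 - (1) * z52 - (1) * z53 - (1) * z54 - (-1) * z57 - (-1) * z59 - (-1) * z61 - (-1) * z63 - (-1) * z65 - (1) * z68 - (1) * z69 - (1) * z70 - (1) * z71 - (1) * z72 - (1) * z73 - (-1) * z76 - (-1) * z77 - (-2) * z78 - (-1) * z79 - (-1) * z80 - (1) * z83 - (1) * z84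
  have r38 := hrec 38
  norm_num at r38
  have z86 : Z 86 = 1 := by linear_combination r38 - (1) * z38 - (1) * z39 - (1) * z40 - (-1) * z43 - (-1) * z44 - (-2) * z45 - (-1) * z46 - (-1) * z47 - (1) * z50 - (1) * z51 - (1) * z52 - (1) * z53 - (1) * z54 - (1) * z55 - (-1) * z58 - (-1) * z60 - (-1) * z62 - (-1) * z64 - (-1) * z66 - (1) * z69 - (1) * z70 - (1) * z71 - (1) * z72 - (1) * z73 - (1) * z74 - (-1) * z77 - (-1) * z78 - (-2) * z79 - (-1) * z80 - (-1) * z81 - (1) * z84 - (1) * z85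
  have r39 := hrec 39
  norm_num at r39
  have z87 : Z 87 = -2 := by linear_combination r39 - (1) * z39 - (1) * z40 - (1) * z41 - (-1) * z44 - (-1) * z45 - (-2) * z46 - (-1) * z47 - (-1) * z48 - (1) * z51 - (1) * z52 - (1) * z53 - (1) * z54 - (1) * z55 - (1) * z56 - (-1) * z59 - (-1) * z61 - (-1) * z63 - (-1) * z65 - (-1) * z67 - (1) * z70 - (1) * z71 - (1) * z72 - (1) * z73 - (1) * z74 - (1) * z75 - (-1) * z78 - (-1) * z79 - (-2) * z80 - (-1) * z81 - (-1) * z82 - (1) * z85 - (1) * z86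
  have r40 := hrec 40
  norm_num at r40
  have z88 : Z 88 = (1/2) := by linear_combination r40 - (1) * z40 - (1) * z41 - (1) * z42 - (-1) * z45 - (-1) * z46 - (-2) * z47 - (-1) * z48 - (-1) * z49 - (1) * z52 - (1) * z53 - (1) * z54 - (1) * z55 - (1) * z56 - (1) * z57 - (-1) * z60 - (-1) * z62 - (-1) * z64 - (-1) * z66 - (-1) * z68 - (1) * z71 - (1) * z72 - (1) * z73 - (1) * z74 - (1) * z75 - (1) * z76 - (-1) * z79 - (-1) * z80 - (-2) * z81 - (-1) * z82 - (-1) * z83 - (1) * z86 - (1) * z87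
  have r41 := hrec 41
  norm_num at r41
  have z89 : Z 89 = 1 := by linear_combination r41 - (1) * z41 - (1) * z42 - (1) * z43 - (-1) * z46 - (-1) * z47 - (-2) * z48 - (-1) * z49 - (-1) * z50 - (1) * z53 - (1) * z54 - (1) * z55 - (1) * z56 - (1) * z57 - (1) * z58 - (-1) * z61 - (-1) * z63 - (-1) * z65 - (-1) * z67 - (-1) * z69 - (1) * z72 - (1) * z73 - (1) * z74 - (1) * z75 - (1) * z76 - (1) * z77 - (-1) * z80 - (-1) * z81 - (-2) * z82 - (-1) * z83 - (-1) * z84 - (1) * z87 - (1) * z88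
  have r42 := hrec 42
  norm_num at r42
  have z90 : Z 90 = -2 := by linear_combination r42 - (1) * z42 - (1) * z43 - (1) * z44 - (-1) * z47 - (-1) * z48 - (-2) * z49 - (-1) * z50 - (-1) * z51 - (1) * z54 - (1) * z55 - (1) * z56 - (1) * z57 - (1) * z58 - (1) * z59 - (-1) * z62 - (-1) * z64 - (-1) * z66 - (-1) * z68 - (-1) * z70 - (1) * z73 - (1) * z74 - (1) * z75 - (1) * z76 - (1) * z77 - (1) * z78 - (-1) * z81 - (-1) * z82 - (-2) * z83 - (-1) * z84 - (-1) * z85 - (1) * z88 - (1) * z89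
  have r43 := hrec 43
  norm_num at r43
  have z91 : Z 91 = 1 := by linear_combination r43 - (1) * z43 - (1) * z44 - (1) * z45 - (-1) * z48 - (-1) * z49 - (-2) * z50 - (-1) * z51 - (-1) * z52 - (1) * z55 - (1) * z56 - (1) * z57 - (1) * z58 - (1) * z59 - (1) * z60 - (-1) * z63 - (-1) * z65 - (-1) * z67 - (-1) * z69 - (-1) * z71 - (1) * z74 - (1) * z75 - (1) * z76 - (1) * z77 - (1) * z78 - (1) * z79 - (-1) * z82 - (-1) * z83 - (-2) * z84 - (-1) * z85 - (-1) * z86 - (1) * z89 - (1) * z90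
  have r44 := hrec 44
  norm_num at r44
  have z92 : Z 92 = 1 := by linear_combination r44 - (1) * z44 - (1) * z45 - (1) * z46 - (-1) * z49 - (-1) * z50 - (-2) * z51 - (-1) * z52 - (-1) * z53 - (1) * z56 - (1) * z57 - (1) * z58 - (1) * z59 - (1) * z60 - (1) * z61 - (-1) * z64 - (-1) * z66 - (-1) * z68 - (-1) * z70 - (-1) * z72 - (1) * z75 - (1) * z76 - (1) * z77 - (1) * z78 - (1) * z79 - (1) * z80 - (-1) * z83 - (-1) * z84 - (-2) * z85 - (-1) * z86 - (-1) * z87 - (1) * z90 - (1) * z91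
  have r45 := hrec 45
  norm_num at r45
  have z93 : Z 93 = -1 := by linear_combination r45 - (1) * z45 - (1) * z46 - (1) * z47 - (-1) * z50 - (-1) * z51 - (-2) * z52 - (-1) * z53 - (-1) * z54 - (1) * z57 - (1) * z58 - (1) * z59 - (1) * z60 - (1) * z61 - (1) * z62 - (-1) * z65 - (-1) * z67 - (-1) * z69 - (-1) * z71 - (-1) * z73 - (1) * z76 - (1) * z77 - (1) * z78 - (1) * z79 - (1) * z80 - (1) * z81 - (-1) * z84 - (-1) * z85 - (-2) * z86 - (-1) * z87 - (-1) * z88 - (1) * z91 - (1) * z92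
  have r46 := hrec 46
  norm_num at r46
  have z94 : Z 94 = 1 := by linear_combination r46 - (1) * z46 - (1) * z47 - (1) * z48 - (-1) * z51 - (-1) * z52 - (-2) * z53 - (-1) * z54 - (-1) * z55 - (1) * z58 - (1) * z59 - (1) * z60 - (1) * z61 - (1) * z62 - (1) * z63 - (-1) * z66 - (-1) * z68 - (-1) * z70 - (-1) * z72 - (-1) * z74 - (1) * z77 - (1) * z78 - (1) * z79 - (1) * z80 - (1) * z81 - (1) * z82 - (-1) * z85 - (-1) * z86 - (-2) * z87 - (-1) * z88 - (-1) * z89 - (1) * z92 - (1) * z93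
  have r47 := hrec 47
  norm_num at r47
  have z95 : Z 95 = 1 := by linear_combination r47 - (1) * z47 - (1) * z48 - (1) * z49 - (-1) * z52 - (-1) * z53 - (-2) * z54 - (-1) * z55 - (-1) * z56 - (1) * z59 - (1) * z60 - (1) * z61 - (1) * z62 - (1) * z63 - (1) * z64 - (-1) * z67 - (-1) * z69 - (-1) * z71 - (-1) * z73 - (-1) * z75 - (1) * z78 - (1) * z79 - (1) * z80 - (1) * z81 - (1) * z82 - (1) * z83 - (-1) * z86 - (-1) * z87 - (-2) * z88 - (-1) * z89 - (-1) * z90 - (1) * z93 - (1) * z94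
  have r48 := hrec 48
  norm_num at r48
  have z96 : Z 96 = 1 := by linear_combination r48 - (1) * z48 - (1) * z49 - (1) * z50 - (-1) * z53 - (-1) * z54 - (-2) * z55 - (-1) * z56 - (-1) * z57 - (1) * z60 - (1) * z61 - (1) * z62 - (1) * z63 - (1) * z64 - (1) * z65 - (-1) * z68 - (-1) * z70 - (-1) * z72 - (-1) * z74 - (-1) * z76 - (1) * z79 - (1) * z80 - (1) * z81 - (1) * z82 - (1) * z83 - (1) * z84 - (-1) * z87 - (-1) * z88 - (-2) * z89 - (-1) * z90 - (-1) * z91 - (1) * z94 - (1) * z95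
  have r49 := hrec 49
  norm_num at r49
  have z97 : Z 97 = (-1/2) := by linear_combination r49 - (1) * z49 - (1) * z50 - (1) * z51 - (-1) * z54 - (-1) * z55 - (-2) * z56 - (-1) * z57 - (-1) * z58 - (1) * z61 - (1) * z62 - (1) * z63 - (1) * z64 - (1) * z65 - (1) * z66 - (-1) * z69 - (-1) * z71 - (-1) * z73 - (-1) * z75 - (-1) * z77 - (1) * z80 - (1) * z81 - (1) * z82 - (1) * z83 - (1) * z84 - (1) * z85 - (-1) * z88 - (-1) * z89 - (-2) * z90 - (-1) * z91 - (-1) * z92 - (1) * z95 - (1) * z96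
  have r50 := hrec 50
  norm_num at r50
  have z98 : Z 98 = 1 := by linear_combination r50 - (1) * z50 - (1) * z51 - (1) * z52 - (-1) * z55 - (-1) * z56 - (-2) * z57 - (-1) * z58 - (-1) * z59 - (1) * z62 - (1) * z63 - (1) * z64 - (1) * z65 - (1) * z66 - (1) * z67 - (-1) * z70 - (-1) * z72 - (-1) * z74 - (-1) * z76 - (-1) * z78 - (1) * z81 - (1) * z82 - (1) * z83 - (1) * z84 - (1) * z85 - (1) * z86 - (-1) * z89 - (-1) * z90 - (-2) * z91 - (-1) * z92 - (-1) * z93 - (1) * z96 - (1) * z97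
  have r51 := hrec 51
  norm_num at r51
  have z99 : Z 99 = -2 := by linear_combination r51 - (1) * z51 - (1) * z52 - (1) * z53 - (-1) * z56 - (-1) * z57 - (-2) * z58 - (-1) * z59 - (-1) * z60 - (1) * z63 - (1) * z64 - (1) * z65 - (1) * z66 - (1) * z67 - (1) * z68 - (-1) * z71 - (-1) * z73 - (-1) * z75 - (-1) * z77 - (-1) * z79 - (1) * z82 - (1) * z83 - (1) * z84 - (1) * z85 - (1) * z86 - (1) * z87 - (-1) * z90 - (-1) * z91 - (-2) * z92 - (-1) * z93 - (-1) * z94 - (1) * z97 - (1) * z98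
  have r52 := hrec 52
  norm_num at r52
  have z100 : Z 100 = 1 := by linear_combination r52 - (1) * z52 - (1) * z53 - (1) * z54 - (-1) * z57 - (-1) * z58 - (-2) * z59 - (-1) * z60 - (-1) * z61 - (1) * z64 - (1) * z65 - (1) * z66 - (1) * z67 - (1) * z68 - (1) * z69 - (-1) * z72 - (-1) * z74 - (-1) * z76 - (-1) * z78 - (-1) * z80 - (1) * z83 - (1) * z84 - (1) * z85 - (1) * z86 - (1) * z87 - (1) * z88 - (-1) * z91 - (-1) * z92 - (-2) * z93 - (-1) * z94 - (-1) * z95 - (1) * z98 - (1) * z99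
  have r53 := hrec 53
  norm_num at r53
  have z101 : Z 101 = -1 := by linear_combination r53 - (1) * z53 - (1) * z54 - (1) * z55 - (-1) * z58 - (-1) * z59 - (-2) * z60 - (-1) * z61 - (-1) * z62 - (1) * z65 - (1) * z66 - (1) * z67 - (1) * z68 - (1) * z69 - (1) * z70 - (-1) * z73 - (-1) * z75 - (-1) * z77 - (-1) * z79 - (-1) * z81 - (1) * z84 - (1) * z85 - (1) * z86 - (1) * z87 - (1) * z88 - (1) * z89 - (-1) * z92 - (-1) * z93 - (-2) * z94 - (-1) * z95 - (-1) * z96 - (1) * z99 - (1) * z100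
  have r54 := hrec 54
  norm_num at r54
  have z102 : Z 102 = 1 := by linear_combination r54 - (1) * z54 - (1) * z55 - (1) * z56 - (-1) * z59 - (-1) * z60 - (-2) * z61 - (-1) * z62 - (-1) * z63 - (1) * z66 - (1) * z67 - (1) * z68 - (1) * z69 - (1) * z70 - (1) * z71 - (-1) * z74 - (-1) * z76 - (-1) * z78 - (-1) * z80 - (-1) * z82 - (1) * z85 - (1) * z86 - (1) * z87 - (1) * z88 - (1) * z89 - (1) * z90 - (-1) * z93 - (-1) * z94 - (-2) * z95 - (-1) * z96 - (-1) * z97 - (1) * z100 - (1) * z101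
  have r55 := hrec 55
  norm_num at r55
  have z103 : Z 103 = 1 := by linear_combination r55 - (1) * z55 - (1) * z56 - (1) * z57 - (-1) * z60 - (-1) * z61 - (-2) * z62 - (-1) * z63 - (-1) * z64 - (1) * z67 - (1) * z68 - (1) * z69 - (1) * z70 - (1) * z71 - (1) * z72 - (-1) * z75 - (-1) * z77 - (-1) * z79 - (-1) * z81 - (-1) * z83 - (1) * z86 - (1) * z87 - (1) * z88 - (1) * z89 - (1) * z90 - (1) * z91 - (-1) * z94 - (-1) * z95 - (-2) * z96 - (-1) * z97 - (-1) * z98 - (1) * z101 - (1) * z102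
  have r56 := hrec 56
  norm_num at r56
  have z104 : Z 104 = (-3/2) := by linear_combination r56 - (1) * z56 - (1) * z57 - (1) * z58 - (-1) * z61 - (-1) * z62 - (-2) * z63 - (-1) * z64 - (-1) * z65 - (1) * z68 - (1) * z69 - (1) * z70 - (1) * z71 - (1) * z72 - (1) * z73 - (-1) * z76 - (-1) * z78 - (-1) * z80 - (-1) * z82 - (-1) * z84 - (1) * z87 - (1) * z88 - (1) * z89 - (1) * z90 - (1) * z91 - (1) * z92 - (-1) * z95 - (-1) * z96 - (-2) * z97 - (-1) * z98 - (-1) * z99 - (1) * z102 - (1) * z103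
  intro s hs
  interval_cases s
  · rw [z0]; norm_num [Ytab]
  · rw [z1]; norm_num [Ytab]
  · rw [z2]; norm_num [Ytab]
  · rw [z3]; norm_num [Ytab]
  · rw [z4]; norm_num [Ytab]
  · rw [z5]; norm_num [Ytab]
  · rw [z6]; norm_num [Ytab]
  · rw [z7]; norm_num [Ytab]
  · rw [z8]; norm_num [Ytab]
  · rw [z9]; norm_num [Ytab]
  · rw [z10]; norm_num [Ytab]
  · rw [z11]; norm_num [Ytab]
  · rw [z12]; norm_num [Ytab]
  · rw [z13]; norm_num [Ytab]
  · rw [z14]; norm_num [Ytab]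
  · rw [z15]; norm_num [Ytab]
  · rw [z16]; norm_num [Ytab]
  · rw [z17]; norm_num [Ytab]
  · rw [z18]; norm_num [Ytab]
  · rw [z19]; norm_num [Ytab]
  · rw [z20]; norm_num [Ytab]
  · rw [z21]; norm_num [Ytab]
  · rw [z22]; norm_num [Ytab]
  · rw [z23]; norm_num [Ytab]
  · rw [z24]; norm_num [Ytab]
  · rw [z25]; norm_num [Ytab]
  · rw [z26]; norm_num [Ytab]
  · rw [z27]; norm_num [Ytab]
  · rw [z28]; norm_num [Ytab]
  · rw [z29]; norm_num [Ytab]
  · rw [z30]; norm_num [Ytab]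
  · rw [z31]; norm_num [Ytab]
  · rw [z32]; norm_num [Ytab]
  · rw [z33]; norm_num [Ytab]
  · rw [z34]; norm_num [Ytab]
  · rw [z35]; norm_num [Ytab]
  · rw [z36]; norm_num [Ytab]
  · rw [z37]; norm_num [Ytab]
  · rw [z38]; norm_num [Ytab]
  · rw [z39]; norm_num [Ytab]
  · rw [z40]; norm_num [Ytab]
  · rw [z41]; norm_num [Ytab]
  · rw [z42]; norm_num [Ytab]
  · rw [z43]; norm_num [Ytab]
  · rw [z44]; norm_num [Ytab]
  · rw [z45]; norm_num [Ytab]
  · rw [z46]; norm_num [Ytab]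
  · rw [z47]; norm_num [Ytab]
  · rw [z48]; norm_num [Ytab]
  · rw [z49]; norm_num [Ytab]
  · rw [z50]; norm_num [Ytab]
  · rw [z51]; norm_num [Ytab]
  · rw [z52]; norm_num [Ytab]
  · rw [z53]; norm_num [Ytab]
  · rw [z54]; norm_num [Ytab]
  · rw [z55]; norm_num [Ytab]
  · rw [z56]; norm_num [Ytab]
  · rw [z57]; norm_num [Ytab]
  · rw [z58]; norm_num [Ytab]
  · rw [z59]; norm_num [Ytab]
  · rw [z60]; norm_num [Ytab]
  · rw [z61]; norm_num [Ytab]
  · rw [z62]; norm_num [Ytab]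
  · rw [z63]; norm_num [Ytab]
  · rw [z64]; norm_num [Ytab]
  · rw [z65]; norm_num [Ytab]
  · rw [z66]; norm_num [Ytab]
  · rw [z67]; norm_num [Ytab]
  · rw [z68]; norm_num [Ytab]
  · rw [z69]; norm_num [Ytab]
  · rw [z70]; norm_num [Ytab]
  · rw [z71]; norm_num [Ytab]
  · rw [z72]; norm_num [Ytab]
  · rw [z73]; norm_num [Ytab]
  · rw [z74]; norm_num [Ytab]
  · rw [z75]; norm_num [Ytab]
  · rw [z76]; norm_num [Ytab]
  · rw [z77]; norm_num [Ytab]
  · rw [z78]; norm_num [Ytab]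
  · rw [z79]; norm_num [Ytab]
  · rw [z80]; norm_num [Ytab]
  · rw [z81]; norm_num [Ytab]
  · rw [z82]; norm_num [Ytab]
  · rw [z83]; norm_num [Ytab]
  · rw [z84]; norm_num [Ytab]
  · rw [z85]; norm_num [Ytab]
  · rw [z86]; norm_num [Ytab]
  · rw [z87]; norm_num [Ytab]
  · rw [z88]; norm_num [Ytab]
  · rw [z89]; norm_num [Ytab]
  · rw [z90]; norm_num [Ytab]
  · rw [z91]; norm_num [Ytab]
  · rw [z92]; norm_num [Ytab]
  · rw [z93]; norm_num [Ytab]
  · rw [z94]; norm_num [Ytab]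
  · rw [z95]; norm_num [Ytab]
  · rw [z96]; norm_num [Ytab]
  · rw [z97]; norm_num [Ytab]
  · rw [z98]; norm_num [Ytab]
  · rw [z99]; norm_num [Ytab]
  · rw [z100]; norm_num [Ytab]
  · rw [z101]; norm_num [Ytab]
  · rw [z102]; norm_num [Ytab]
  · rw [z103]; norm_num [Ytab]
  · rw [z104]; norm_num [Ytab]

end Q262.Refl
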