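import Mathlib

/-!
Cyclotomic polytopes and reflexivity.
-/

set_option autoImplicit false

open Polynomial

namespace Q262.Refl

/-- The coefficient vector, in the basis `1, ζ, …, ζ^{d-1}` of `ℤ[ζ_k]` with `d = φ(k)`, of the root
of unity `ζ_k^r`: the coefficients of the remainder of `X^r` on division by the `k`-th cyclotomic
polynomial. -/
noncomputable def rootVector (k r : ℕ) : Fin (Nat.totient k) → ℝ :=
  fun s => ((((X : ℤ[X]) ^ r %ₘ cyclotomic k ℤ).coeff s : ℤ) : ℝ)

/-- The cyclopolytope `N_k`: the convex hull of the coefficient vectors of all `k`-th roots of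
unity. -/
noncomputable def cyclopolytope (k : ℕ) : Set (Fin (Nat.totient k) → ℝ) :=
  convexHull ℝ (Set.range fun r : Fin k => rootVector k r)

/-- The polar set `{y : ⟨x, y⟩ ≤ 1 for all x ∈ P}`. -/
def polarSet {d : ℕ} (P : Set (Fin d → ℝ)) : Set (Fin d → ℝ) :=
  {y | ∀ x ∈ P, x ⬝ᵥ y ≤ 1}

/-- The points of `ℤ^d`. -/
def IsLatticePoint {d : ℕ} (y : Fin d → ℝ) : Prop := ∀ i, ∃ n : ℤ, y i = n

/-- Reflexive polytopes: `P` is the convex hull of finitely many lattice points, the origin is an
interior point of `P` (so that `P` is `d`-dimensional), and all vertices (extreme points) of the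
polar of `P` are lattice points. -/
def IsReflexive {d : ℕ} (P : Set (Fin d → ℝ)) : Prop :=
  (∃ V : Finset (Fin d → ℝ), (∀ v ∈ V, IsLatticePoint v) ∧ P = convexHull ℝ (V : Set (Fin d → ℝ))) ∧
  (0 : Fin d → ℝ) ∈ interior P ∧
  ∀ y ∈ Set.extremePoints ℝ (polarSet P), IsLatticePoint y

end Q262.Refl
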