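import Pool.Agent.Q262.ReflDefs
import Pool.Agent.Q262.ReflData

/-!
The polar of the cyclopolytope `N_105` has a vertex that is not a lattice point.
-/

set_option autoImplicit false

open Polynomial Finset

namespace Q262.Refl

theorem cyc15 : cyclotomic 15 ℤ = X ^ 8 - X ^ 7 + X ^ 5 - X ^ 4 + X ^ 3 - X + 1 := by
  apply mul_right_cancel₀ (cyclotomic_ne_zero 3 ℤ)
  have h : expand ℤ 5 (cyclotomic 3 ℤ) = cyclotomic 15 ℤ * cyclotomic 3 ℤ :=
    cyclotomic_expand_eq_cyclotomic_mul (n := 3) Nat.prime_five (by norm_num) ℤ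
  rw [← h, cyclotomic_three]
  simp only [map_add, map_pow, expand_X, map_one]
  ring

theorem cyc105 : cyclotomic 105 ℤ =
    X ^ 48 + X ^ 47 + X ^ 46 - X ^ 43 - X ^ 42 - 2 * X ^ 41 - X ^ 40 - X ^ 39 + X ^ 36 + X ^ 35
      + X ^ 34 + X ^ 33 + X ^ 32 + X ^ 31 - X ^ 28 - X ^ 26 - X ^ 24 - X ^ 22 - X ^ 20 + X ^ 17
      + X ^ 16 + X ^ 15 + X ^ 14 + X ^ 13 + X ^ 12 - X ^ 9 - X ^ 8 - 2 * X ^ 7 - X ^ 6 - X ^ 5
      + X ^ 2 + X + 1 := by
  apply mul_right_cancel₀ (cyclotomic_ne_zero 15 ℤ)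
  have h : expand ℤ 7 (cyclotomic 15 ℤ) = cyclotomic 105 ℤ * cyclotomic 15 ℤ :=
    cyclotomic_expand_eq_cyclotomic_mul (n := 15) (p := 7) (by norm_num) (by norm_num) ℤ
  rw [← h, cyc15]
  simp only [map_add, map_sub, map_pow, expand_X, map_one]
  ring

theorem tot105 : Nat.totient 105 = 48 := by
  rw [show (105 : ℕ) = 3 * 5 * 7 by norm_num, Nat.totient_mul (by norm_num),
    Nat.totient_mul (by norm_num), Nat.totient_prime Nat.prime_three,
    Nat.totient_prime Nat.prime_five, Nat.totient_prime (by norm_num)]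

/-- The linear functional `f ↦ ∑_{s < 48} (f mod Φ_105)_s z_s`. -/
noncomputable def L (z : ℕ → ℝ) (f : ℤ[X]) : ℝ :=
  ∑ s ∈ range 48, (((f %ₘ cyclotomic 105 ℤ).coeff s : ℤ) : ℝ) * z s

theorem L_add (z : ℕ → ℝ) (f g : ℤ[X]) : L z (f + g) = L z f + L z g := by
  unfold L
  rw [add_modByMonic, ← Finset.sum_add_distrib]
  apply Finset.sum_congr rfl
  intro s _
  rw [coeff_add]
  push_cast
  ring

theorem L_neg (z : ℕ → ℝ) (f : ℤ[X]) : L z (-f) = -L z f := by
  unfold L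
  rw [neg_modByMonic, ← Finset.sum_neg_distrib]
  apply Finset.sum_congr rfl
  intro s _
  rw [coeff_neg]
  push_cast
  ring

theorem L_sub (z : ℕ → ℝ) (f g : ℤ[X]) : L z (f - g) = L z f - L z g := by
  rw [sub_eq_add_neg, L_add, L_neg, sub_eq_add_neg]

theorem L_two (z : ℕ → ℝ) (f : ℤ[X]) : L z (2 * f) = 2 * L z f := by
  rw [two_mul, L_add, two_mul]

theorem L_dvd (z : ℕ → ℝ) (f : ℤ[X]) (h : cyclotomic 105 ℤ ∣ f) : L z f = 0 := by
  unfold L
  rw [(modByMonic_eq_zero_iff_dvd (cyclotomic.monic 105 ℤ)).2 h]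
  simp

theorem deg105 : (cyclotomic 105 ℤ).degree = 48 := by
  rw [degree_eq_natDegree (cyclotomic_ne_zero 105 ℤ), natDegree_cyclotomic, tot105]
  rfl

theorem L_X_pow (z : ℕ → ℝ) (s : ℕ) (hs : s < 48) : L z (X ^ s) = z s := by
  unfold L
  have h : (X ^ s : ℤ[X]) %ₘ cyclotomic 105 ℤ = X ^ s := by
    rw [modByMonic_eq_self_iff (cyclotomic.monic 105 ℤ), deg105, degree_X_pow]
    exact_mod_cast hs
  rw [h]
  simp only [coeff_X_pow]
  rw [Finset.sum_eq_single s]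
  · simp
  · intro b _ hb
    rw [if_neg hb]
    simp
  · intro h
    exact absurd (Finset.mem_range.2 hs) h

theorem line_dvd_gen (N m p : ℕ) (hmp : m * p = N) (hN : 0 < N) (hp : 1 < p) :
    cyclotomic N ℤ ∣ ∑ j ∈ range p, (X : ℤ[X]) ^ (m * j) := by
  have hm : 0 < m := by
    rcases Nat.eq_zero_or_pos m with h | h
    · rw [h] at hmp; omega
    · exact h
  have h1 : m ∈ Nat.properDivisors N := by
    rw [Nat.mem_properDivisors]
    refine ⟨⟨p, hmp.symm⟩, ?_⟩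
    nlinarith
  have h2 := X_pow_sub_one_mul_cyclotomic_dvd_X_pow_sub_one_of_dvd ℤ h1
  have h3 : (X : ℤ[X]) ^ N - 1 = (X ^ m - 1) * ∑ j ∈ range p, (X : ℤ[X]) ^ (m * j) := by
    have h4 := mul_geom_sum ((X : ℤ[X]) ^ m) p
    rw [← pow_mul, hmp] at h4
    rw [← h4]
    congr 1
    apply Finset.sum_congr rfl
    intro j _
    rw [← pow_mul]
  rw [h3] at h2
  have h5 : (X ^ m - 1 : ℤ[X]) ≠ 0 := by
    rw [← C_1]; exact X_pow_sub_C_ne_zero hm 1
  exact (mul_dvd_mul_iff_left h5).1 h2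

theorem line_dvd (m p : ℕ) (hmp : m * p = 105) (hp : 1 < p) :
    cyclotomic 105 ℤ ∣ ∑ j ∈ range p, (X : ℤ[X]) ^ (m * j) :=
  line_dvd_gen 105 m p hmp (by norm_num) hp

theorem L_sum (z : ℕ → ℝ) (ι : Type) (s : Finset ι) (f : ι → ℤ[X]) :
    L z (∑ i ∈ s, f i) = ∑ i ∈ s, L z (f i) := by
  classical
  induction s using Finset.induction_on with
  | empty =>
    rw [Finset.sum_empty, Finset.sum_empty]
    exact L_dvd z 0 (dvd_zero _)
  | insert a s ha ih => rw [Finset.sum_insert ha, Finset.sum_insert ha, L_add, ih]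

theorem line_sum (z : ℕ → ℝ) (m p : ℕ) (hmp : m * p = 105) (hp : 1 < p) (r : ℕ) :
    ∑ j ∈ range p, L z (X ^ (r + m * j)) = 0 := by
  rw [← L_sum]
  apply L_dvd
  have h : ∑ j ∈ range p, (X : ℤ[X]) ^ (r + m * j) = X ^ r * ∑ j ∈ range p, X ^ (m * j) := by
    rw [Finset.mul_sum]
    apply Finset.sum_congr rfl
    intro j _
    rw [pow_add]
  rw [h]
  exact (line_dvd m p hmp hp).mul_left _

theorem rec105 (z : ℕ → ℝ) (n : ℕ) :
    L z (X ^ n) + L z (X ^ (n + 1)) + L z (X ^ (n + 2)) - L z (X ^ (n + 5)) - L z (X ^ (n + 6))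
      - 2 * L z (X ^ (n + 7)) - L z (X ^ (n + 8)) - L z (X ^ (n + 9)) + L z (X ^ (n + 12))
      + L z (X ^ (n + 13)) + L z (X ^ (n + 14)) + L z (X ^ (n + 15)) + L z (X ^ (n + 16))
      + L z (X ^ (n + 17)) - L z (X ^ (n + 20)) - L z (X ^ (n + 22)) - L z (X ^ (n + 24))
      - L z (X ^ (n + 26)) - L z (X ^ (n + 28)) + L z (X ^ (n + 31)) + L z (X ^ (n + 32))
      + L z (X ^ (n + 33)) + L z (X ^ (n + 34)) + L z (X ^ (n + 35)) + L z (X ^ (n + 36))
      - L z (X ^ (n + 39)) - L z (X ^ (n + 40)) - 2 * L z (X ^ (n + 41)) - L z (X ^ (n + 42))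
      - L z (X ^ (n + 43)) + L z (X ^ (n + 46)) + L z (X ^ (n + 47)) + L z (X ^ (n + 48)) = 0 := by
  have h : L z (X ^ n * cyclotomic 105 ℤ) = 0 := L_dvd z _ (dvd_mul_left _ _)
  rw [cyc105] at h
  rw [← h]
  simp only [← L_two, ← L_add, ← L_sub]
  congr 1
  ring

/-- The special point, with coordinates in `½ ℤ`. -/
noncomputable def ypt : Fin (Nat.totient 105) → ℝ := fun s => (Ytab.getD (s : ℕ) 0 : ℝ) / 2

/-- Extension of a vector by zero. -/
noncomputable def ext (y : Fin (Nat.totient 105) → ℝ) (s : ℕ) : ℝ :=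
  if h : s < Nat.totient 105 then y ⟨s, h⟩ else 0

theorem dot_eq (y : Fin (Nat.totient 105) → ℝ) (r : ℕ) :
    rootVector 105 r ⬝ᵥ y = L (ext y) (X ^ r) := by
  unfold L dotProduct rootVector
  have h : ∀ s : Fin (Nat.totient 105), ((((X : ℤ[X]) ^ r %ₘ cyclotomic 105 ℤ).coeff s : ℤ) : ℝ) * y s
      = (fun s : ℕ => ((((X : ℤ[X]) ^ r %ₘ cyclotomic 105 ℤ).coeff s : ℤ) : ℝ) * ext y s) s := by
    intro s
    simp only [ext]
    rw [dif_pos s.2]
  rw [Finset.sum_congr rfl (fun s _ => h s), Fin.sum_univ_eq_sum_range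
    (fun s : ℕ => ((((X : ℤ[X]) ^ r %ₘ cyclotomic 105 ℤ).coeff s : ℤ) : ℝ) * ext y s), tot105]

theorem y_values (s : ℕ) (hs : s < 105) : L (ext ypt) (X ^ s) = (Ytab.getD s 0 : ℝ) / 2 := by
  apply rec_values (fun s => L (ext ypt) (X ^ s)) _ _ s hs
  · intro n
    exact rec105 (ext ypt) n
  · intro s hs
    show L (ext ypt) (X ^ s) = _
    rw [L_X_pow _ s hs, ext, dif_pos (by rw [tot105]; exact hs)]
    rfl

theorem u_zero (u : Fin (Nat.totient 105) → ℝ)
    (hT : ∀ t, t < 105 → Ytab.getD t 0 = 2 → L (ext u) (X ^ t) = 0) : u = 0 := by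
  have h := core_zero (fun s => L (ext u) (X ^ s)) ?_ ?_ ?_ ?_
  · funext s
    have h1 := h s (by have := s.2; have h2 := tot105; omega)
    change L (ext u) (X ^ (s : ℕ)) = 0 at h1
    rw [L_X_pow _ s (by have := s.2; have h2 := tot105; omega), ext, dif_pos s.2] at h1
    exact h1
  · intro r _
    have := line_sum (ext u) 35 3 (by norm_num) (by norm_num) r
    simpa [Finset.sum_range_succ] using this
  · intro r _
    have := line_sum (ext u) 21 5 (by norm_num) (by norm_num) r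
    simpa [Finset.sum_range_succ] using this
  · intro r _
    have := line_sum (ext u) 15 7 (by norm_num) (by norm_num) r
    simpa [Finset.sum_range_succ] using this
  · intro t ht
    have hall : ∀ t ∈ ([1, 3, 4, 6, 7, 9, 15, 16, 17, 20, 24, 26, 29, 30, 34, 38, 40, 41, 42, 43, 44, 46, 48, 50, 52, 53, 55, 56, 58, 60, 62, 63, 64, 66, 70, 72, 75, 78, 80, 81, 82, 84, 86, 89, 91, 92, 94, 95, 96, 98, 100, 102, 103] : List ℕ), t < 105 ∧ Ytab.getD t 0 = 2 := by
      decide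
    exact hT t (hall t ht).1 (hall t ht).2

theorem mem_polar (y : Fin (Nat.totient 105) → ℝ) :
    y ∈ polarSet (cyclopolytope 105) ↔ ∀ r, r < 105 → L (ext y) (X ^ r) ≤ 1 := by
  constructor
  · intro h r hr
    rw [← dot_eq]
    apply h
    exact subset_convexHull ℝ _ ⟨⟨r, hr⟩, rfl⟩
  · intro h x hx
    have hconv : Convex ℝ {x : Fin (Nat.totient 105) → ℝ | x ⬝ᵥ y ≤ 1} := by
      intro a ha b hb α β hα hβ hαβ
      simp only [Set.mem_ofPred_eq, add_dotProduct, smul_dotProduct, smul_eq_mul] at ha hb ⊢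
      nlinarith
    have hsub : cyclopolytope 105 ⊆ {x : Fin (Nat.totient 105) → ℝ | x ⬝ᵥ y ≤ 1} := by
      apply convexHull_min _ hconv
      rintro _ ⟨r, rfl⟩
      simp only [Set.mem_ofPred_eq]
      rw [dot_eq]
      exact h r r.2
    exact hsub hx

theorem ypt_extreme : ypt ∈ Set.extremePoints ℝ (polarSet (cyclopolytope 105)) := by
  have hY : ∀ r, r < 105 → Ytab.getD r 0 ≤ 2 := by decide
  have hmem : ypt ∈ polarSet (cyclopolytope 105) := by
    rw [mem_polar]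
    intro r hr
    rw [y_values r hr]
    have h1 : ((Ytab.getD r 0 : ℤ) : ℝ) ≤ 2 := by exact_mod_cast hY r hr
    linarith
  rw [mem_extremePoints]
  refine ⟨hmem, ?_⟩
  intro x1 h1 x2 h2 hseg
  obtain ⟨α, β, hα, hβ, hαβ, hy⟩ := hseg
  have key : x1 - x2 = 0 := by
    apply u_zero
    intro t ht hYt
    rw [← dot_eq]
    have e1 := (mem_polar x1).1 h1 t ht
    have e2 := (mem_polar x2).1 h2 t ht
    have e3 := y_values t ht
    rw [hYt] at e3
    rw [← dot_eq] at e1 e2 e3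
    rw [← hy] at e3
    rw [dotProduct_add, dotProduct_smul, dotProduct_smul, smul_eq_mul, smul_eq_mul] at e3
    rw [dotProduct_sub]
    have e4 : α * (rootVector 105 t ⬝ᵥ x1) + β * (rootVector 105 t ⬝ᵥ x2) = 1 := by
      rw [e3]; norm_num
    have a1 : rootVector 105 t ⬝ᵥ x1 = 1 := by
      by_contra hne
      have hlt := lt_of_le_of_ne e1 hne
      nlinarith
    have a2 : rootVector 105 t ⬝ᵥ x2 = 1 := by
      by_contra hne
      have hlt := lt_of_le_of_ne e2 hne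
      nlinarith
    rw [a1, a2]; ring
  have h12 : x1 = x2 := sub_eq_zero.1 key
  have hx1 : x1 = ypt := by
    rw [← hy, ← h12, ← add_smul, hαβ, one_smul]
  exact ⟨hx1, by rw [← h12]; exact hx1⟩

theorem ypt_not_lattice : ¬ IsLatticePoint ypt := by
  intro h
  have h12 : 12 < Nat.totient 105 := by rw [tot105]; norm_num
  obtain ⟨n, hn⟩ := h ⟨12, h12⟩
  have h1 : ypt ⟨12, h12⟩ = -1 / 2 := by
    simp only [ypt]
    norm_num [Ytab]
  rw [h1] at hn
  have h2 : (2 * n : ℝ) = -1 := by linarith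
  have h3 : 2 * n = -1 := by exact_mod_cast h2
  omega

end Q262.Refl
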