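import Mathlib

/-!
Sequences with values in `ZMod N` killed by a polynomial in the shift operator.
-/

namespace Q262.Shift

open Polynomial

variable {N : ℕ}

/-- The shift operator on sequences `ℕ → ZMod N`. -/
noncomputable def E (N : ℕ) : Module.End (ZMod N) (ℕ → ZMod N) :=
  LinearMap.funLeft (ZMod N) (ZMod N) (fun r : ℕ => r + 1)

lemma E_apply (c : ℕ → ZMod N) (r : ℕ) : E N c r = c (r + 1) := rfl

lemma E_pow_apply (j : ℕ) (c : ℕ → ZMod N) (r : ℕ) : (E N ^ j) c r = c (r + j) := by
  induction j generalizing c r with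
  | zero => simp
  | succ j ih =>
    rw [pow_succ, Module.End.mul_apply, ih]
    rw [E_apply]
    rfl

/-- The polynomial `f` kills the sequence `c`. -/
def Kill (f : (ZMod N)[X]) (c : ℕ → ZMod N) : Prop := aeval (E N) f c = 0

lemma aeval_E_apply (f : (ZMod N)[X]) (c : ℕ → ZMod N) (r : ℕ) :
    aeval (E N) f c r = ∑ j ∈ Finset.range (f.natDegree + 1), f.coeff j * c (r + j) := by
  rw [aeval_eq_sum_range]
  simp [LinearMap.sum_apply, E_pow_apply]

lemma aeval_E_apply' (f : (ZMod N)[X]) (c : ℕ → ZMod N) (r : ℕ) {n : ℕ} (hn : f.natDegree < n) :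
    aeval (E N) f c r = ∑ j ∈ Finset.range n, f.coeff j * c (r + j) := by
  rw [aeval_eq_sum_range' hn]
  simp [LinearMap.sum_apply, E_pow_apply]

lemma kill_of_dvd {f g : (ZMod N)[X]} {c : ℕ → ZMod N} (h : f ∣ g) (hf : Kill f c) : Kill g c := by
  obtain ⟨q, rfl⟩ := h
  unfold Kill at *
  rw [mul_comm, map_mul, Module.End.mul_apply, hf, map_zero]

lemma kill_add {f g : (ZMod N)[X]} {c : ℕ → ZMod N} (hf : Kill f c) (hg : Kill g c) :
    Kill (f + g) c := by
  unfold Kill at *
  rw [map_add, LinearMap.add_apply, hf, hg, add_zero]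

lemma kill_sub {f g : (ZMod N)[X]} {c : ℕ → ZMod N} (hf : Kill f c) (hg : Kill g c) :
    Kill (f - g) c := by
  unfold Kill at *
  rw [map_sub, LinearMap.sub_apply, hf, hg, sub_zero]

lemma kill_X_pow_sub_one_iff {n : ℕ} {c : ℕ → ZMod N} :
    Kill (X ^ n - 1 : (ZMod N)[X]) c ↔ ∀ r, c (r + n) = c r := by
  unfold Kill
  constructor
  · intro h r
    have := congrFun h r
    simp only [map_sub, map_pow, aeval_X, map_one, LinearMap.sub_apply, Pi.sub_apply,
      E_pow_apply, Module.End.one_apply, Pi.zero_apply] at this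
    exact sub_eq_zero.mp this
  · intro h
    funext r
    simp only [map_sub, map_pow, aeval_X, map_one, LinearMap.sub_apply, Pi.sub_apply,
      E_pow_apply, Module.End.one_apply, Pi.zero_apply]
    rw [h r, sub_self]

/-- `(expand p f)(E)` acts on `r ↦ c (r / p)` as `f(E)` on `c`. -/
lemma kill_expand_div {p : ℕ} (hp : 0 < p) {f : (ZMod N)[X]} {c : ℕ → ZMod N} (hf : Kill f c) :
    Kill (expand (ZMod N) p f) (fun r => c (r / p)) := by
  unfold Kill at *
  have key : ∀ g : (ZMod N)[X], ∀ r, aeval (E N) (expand (ZMod N) p g) (fun r => c (r / p)) r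
      = aeval (E N) g c (r / p) := by
    intro g
    induction g using Polynomial.induction_on' with
    | add a b ha hb => intro r; simp only [map_add, LinearMap.add_apply, Pi.add_apply, ha r, hb r]
    | monomial j a =>
      intro r
      rw [expand_monomial, aeval_monomial, aeval_monomial]
      simp only [Module.End.mul_apply, Module.algebraMap_end_apply, Pi.smul_apply, E_pow_apply]
      rw [Nat.add_mul_div_right _ _ hp]
  funext r
  rw [key, hf]
  rfl

end Q262.Shift
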