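import Pool.Agent.Q262.ShiftNZ

/-!
For every `k ≥ 2` there is a character of `ℤ[ζ_k]` whose sum over the `k`-th roots of unity is
zero, phrased with sequences killed by `Φ_k` in the shift operator.
-/

namespace Q262.Shift

open Polynomial

/-- There is a good sequence for `k` modulo `N`. -/
def Good (N : ℕ) [NeZero N] (k : ℕ) : Prop :=
  ∃ c : ℕ → ZMod N, Kill (cyclotomic k (ZMod N)) c ∧
    ∑ r ∈ Finset.range k, ZMod.stdAddChar (c r) = (0 : ℂ)

/-- Range of length `a * b` split as `r + a * t`. -/
lemma sum_range_mul_add {α : Type*} [AddCommMonoid α] (a b : ℕ) (f : ℕ → α) :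
    ∑ i ∈ Finset.range (a * b), f i
      = ∑ r ∈ Finset.range a, ∑ t ∈ Finset.range b, f (r + a * t) := by
  rw [Finset.sum_comm]
  induction b with
  | zero => simp
  | succ b ih =>
    rw [Nat.mul_succ, Finset.sum_range_add, Finset.sum_range_succ, ih]
    congr 1
    exact Finset.sum_congr rfl (fun x _ => by rw [add_comm])

lemma good_mul_prime {N : ℕ} [NeZero N] {k p : ℕ} (hp : p.Prime) (hpk : p ∣ k)
    (h : Good N k) : Good N (k * p) := by
  obtain ⟨c, hc, hsum⟩ := h
  refine ⟨fun r => c (r / p), ?_, ?_⟩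
  · rw [← cyclotomic_expand_eq_cyclotomic hp hpk]
    exact kill_expand_div hp.pos hc
  · rw [mul_comm, sum_range_mul_add]
    have : ∀ r ∈ Finset.range p, ∑ t ∈ Finset.range k,
        (ZMod.stdAddChar (c ((r + p * t) / p)) : ℂ) = 0 := by
      intro r hr
      rw [← hsum]
      apply Finset.sum_congr rfl
      intro t _
      rw [Nat.add_mul_div_left _ _ hp.pos, Nat.div_eq_of_lt (Finset.mem_range.mp hr), zero_add]
    exact Finset.sum_eq_zero this

/-- Multiplication by the index. -/
lemma aeval_mul_index {N : ℕ} (f : (ZMod N)[X]) (m : ℕ → ZMod N) (r : ℕ) :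
    aeval (E N) f (fun r => (r : ZMod N) * m r) r
      = r * aeval (E N) f m r + aeval (E N) (X * derivative f) m r := by
  induction f using Polynomial.induction_on' with
  | add a b ha hb =>
    simp only [map_add, LinearMap.add_apply, Pi.add_apply, ha, hb, mul_add]
    ring
  | monomial j a =>
    rcases Nat.eq_zero_or_pos j with rfl | hj
    · simp
      ring
    · rw [derivative_monomial, X_mul_monomial, Nat.sub_add_cancel hj, aeval_monomial,
        aeval_monomial]
      simp only [Module.End.mul_apply, Module.algebraMap_end_apply, Pi.smul_apply, E_pow_apply,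
        smul_eq_mul]
      push_cast
      ring

lemma kill_sq {N : ℕ} {f : (ZMod N)[X]} {m : ℕ → ZMod N} (hm : Kill f m) :
    Kill (f * f) (fun r => (r : ZMod N) * m r) := by
  have h1 : aeval (E N) f (fun r => (r : ZMod N) * m r) = aeval (E N) (X * derivative f) m := by
    funext r
    rw [aeval_mul_index, hm]
    simp
  unfold Kill
  rw [map_mul, Module.End.mul_apply, h1, ← Module.End.mul_apply, ← map_mul]
  exact kill_of_dvd (dvd_mul_right f (X * derivative f)) hm

lemma good_base {l : ℕ} [Fact l.Prime] (hl2 : l ≠ 2) (n : ℕ) (hn : 0 < n) (hln : ¬ l ∣ n) :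
    Good l (n * l) := by
  have hl : l.Prime := Fact.out
  obtain ⟨m, hm0, hm⟩ := exists_nowhere_zero hl hl2 n hn hln
  have hl3 : 3 ≤ l := by
    have := hl.two_le
    omega
  refine ⟨fun r => r * m r, ?_, ?_⟩
  · have h1 : cyclotomic (n * l) (ZMod l) = cyclotomic n (ZMod l) ^ (l - 1) := by
      exact cyclotomic_mul_prime_eq_pow_of_not_dvd (ZMod l) hln
    rw [h1]
    have h2 : cyclotomic n (ZMod l) * cyclotomic n (ZMod l) ∣ cyclotomic n (ZMod l) ^ (l - 1) := by
      rw [← pow_two]
      exact pow_dvd_pow _ (by omega)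
    exact kill_of_dvd h2 (kill_sq hm)
  · rw [sum_range_mul_add]
    apply Finset.sum_eq_zero
    intro r hr
    have hmper : ∀ r, m (r + n) = m r :=
      kill_X_pow_sub_one_iff.mp (kill_of_dvd (cyclotomic_dvd_X_pow_sub_one n) hm)
    have hper : ∀ j, m (r + n * j) = m r := by
      intro j
      induction j with
      | zero => simp
      | succ j ih => rw [Nat.mul_succ, ← add_assoc, hmper, ih]
    have hb : (n : ZMod l) * m r ≠ 0 := by
      apply mul_ne_zero _ (hm0 r)
      intro h0
      rw [ZMod.natCast_eq_zero_iff] at h0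
      exact hln h0
    have h3 : ∀ t ∈ Finset.range l,
        (ZMod.stdAddChar (((r + n * t : ℕ) : ZMod l) * m (r + n * t)) : ℂ)
          = ZMod.stdAddChar ((r : ZMod l) * m r)
            * ZMod.stdAddChar (((t : ℕ) : ZMod l) * ((n : ZMod l) * m r)) := by
      intro t _
      rw [hper, ← AddChar.map_add_eq_mul]
      congr 1
      push_cast
      ring
    rw [Finset.sum_congr rfl h3, ← Finset.mul_sum]
    have h4 : ∑ t ∈ Finset.range l,
        (ZMod.stdAddChar (((t : ℕ) : ZMod l) * ((n : ZMod l) * m r)) : ℂ)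
        = ∑ x : ZMod l, ZMod.stdAddChar (x * ((n : ZMod l) * m r)) := by
      apply Finset.sum_bij (fun (t : ℕ) (_ : t ∈ Finset.range l) => ((t : ℕ) : ZMod l))
      · intro a _; exact Finset.mem_univ _
      · intro a ha b hb hab
        have := (ZMod.natCast_eq_natCast_iff' a b l).mp hab
        rwa [Nat.mod_eq_of_lt (Finset.mem_range.mp ha),
          Nat.mod_eq_of_lt (Finset.mem_range.mp hb)] at this
      · intro b _
        exact ⟨b.val, Finset.mem_range.mpr (ZMod.val_lt b), ZMod.natCast_zmod_val b⟩
      · intro a _; rfl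
    rw [h4, AddChar.sum_mulShift _ (ZMod.isPrimitive_stdAddChar l), if_neg hb]
    simp

lemma good_two : Good 4 2 := by
  refine ⟨fun r => (-1) ^ r, ?_, ?_⟩
  · unfold Kill
    rw [cyclotomic_two]
    funext r
    simp only [map_add, aeval_X, map_one, LinearMap.add_apply, Pi.add_apply, E_apply,
      Module.End.one_apply, Pi.zero_apply]
    rw [pow_succ]
    ring
  · rw [Finset.sum_range_succ, Finset.sum_range_one]
    simp only [pow_zero, pow_one]
    rw [AddChar.map_neg_eq_inv]
    have h1 : (ZMod.stdAddChar (1 : ZMod 4) : ℂ) = Complex.I := by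
      rw [ZMod.stdAddChar_apply]
      have := ZMod.toCircle_intCast (N := 4) 1
      simp only [Int.cast_one] at this
      rw [this]
      have e : (2 * (Real.pi : ℂ) * Complex.I * 1 / 4) = (Real.pi : ℂ) / 2 * Complex.I := by ring
      push_cast
      rw [e, Complex.exp_mul_I]
      rw [Complex.cos_pi_div_two, Complex.sin_pi_div_two]
      simp
    rw [h1, Complex.inv_I]
    ring

/-- Main existence theorem. -/
theorem exists_good (k : ℕ) (hk : 2 ≤ k) : ∃ N : ℕ, ∃ _ : NeZero N, Good N k := by
  by_cases h : ∃ l, l.Prime ∧ l ≠ 2 ∧ l ∣ k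
  · obtain ⟨l, hl, hl2, hlk⟩ := h
    have := Fact.mk hl
    refine ⟨l, inferInstance, ?_⟩
    obtain ⟨a, n, hn, hkn⟩ : ∃ a n, ¬ l ∣ n ∧ k = l ^ a * n := by
      exact Nat.exists_eq_pow_mul_and_not_dvd (by omega) l hl.ne_one
    have hn0 : 0 < n := by
      rcases Nat.eq_zero_or_pos n with h0 | h0
      · subst h0; exact absurd (dvd_zero l) hn
      · exact h0
    have ha : a ≠ 0 := by
      rintro rfl
      rw [pow_zero, one_mul] at hkn
      exact hn (hkn ▸ hlk)
    obtain ⟨b, rfl⟩ := Nat.exists_eq_succ_of_ne_zero ha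
    have key : ∀ b : ℕ, Good l (n * l * l ^ b) := by
      intro b
      induction b with
      | zero => simpa using good_base hl2 n hn0 hn
      | succ b ih =>
        rw [pow_succ, ← mul_assoc]
        exact good_mul_prime hl (dvd_mul_of_dvd_left (dvd_mul_left l n) _) ih
    have := key b
    rwa [show n * l * l ^ b = k by rw [hkn, Nat.succ_eq_add_one, pow_succ]; ring] at this
  · push Not at h
    refine ⟨4, inferInstance, ?_⟩
    have h2 : ∃ a, k = 2 ^ a := by
      refine ⟨k.primeFactorsList.length, ?_⟩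
      exact Nat.eq_prime_pow_of_unique_prime_dvd (by omega)
        (fun {d} hd hdk => by
          by_contra hne
          exact h d hd hne hdk)
    obtain ⟨a, rfl⟩ := h2
    have ha : a ≠ 0 := by
      rintro rfl
      simp at hk
    obtain ⟨b, rfl⟩ := Nat.exists_eq_succ_of_ne_zero ha
    have key : ∀ b : ℕ, Good 4 (2 * 2 ^ b) := by
      intro b
      induction b with
      | zero => simpa using good_two
      | succ b ih =>
        rw [pow_succ, ← mul_assoc]
        exact good_mul_prime Nat.prime_two (dvd_mul_right 2 _) ih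
    have := key b
    rwa [show 2 * 2 ^ b = 2 ^ b.succ by rw [Nat.succ_eq_add_one, pow_succ]; ring] at this

end Q262.Shift
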