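import Pool.Agent.Q262.Shift

/-!
Nowhere zero sequences modulo an odd prime `l` killed by `Φ_n`, `n` coprime to `l`.
-/

namespace Q262.Shift

open Polynomial

variable {N : ℕ}

/-- Multiplying by a `p`-periodic sequence: `(expand p f)(E) (m * u) = u * (expand p f)(E) m`. -/
lemma kill_expand_mul {p : ℕ} {f : (ZMod N)[X]} {m u : ℕ → ZMod N}
    (hu : ∀ r, u (r + p) = u r) (hf : Kill (expand (ZMod N) p f) m) :
    Kill (expand (ZMod N) p f) (fun r => m r * u r) := by
  unfold Kill at *
  have hu' : ∀ j r, u (r + j * p) = u r := by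
    intro j
    induction j with
    | zero => intro r; simp
    | succ j ih => intro r; rw [Nat.succ_mul, ← add_assoc, hu, ih]
  have key : ∀ g : (ZMod N)[X], ∀ r, aeval (E N) (expand (ZMod N) p g) (fun r => m r * u r) r
      = u r * aeval (E N) (expand (ZMod N) p g) m r := by
    intro g
    induction g using Polynomial.induction_on' with
    | add a b ha hb =>
      intro r; simp only [map_add, LinearMap.add_apply, Pi.add_apply, ha r, hb r]; ring
    | monomial j a =>
      intro r
      rw [expand_monomial, aeval_monomial]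
      simp only [Module.End.mul_apply, Module.algebraMap_end_apply, Pi.smul_apply, E_pow_apply,
        smul_eq_mul]
      rw [hu']; ring
  funext r
  rw [key, hf]
  simp

/-- A `p`-periodic nowhere zero sequence mod an odd prime with zero sum over a period. -/
lemma exists_zero_sum {l p : ℕ} (hl : l.Prime) (hl2 : l ≠ 2) (hp : p.Prime) :
    ∃ u : ℕ → ZMod l, (∀ r, u r ≠ 0) ∧ (∀ r, u (r + p) = u r) ∧
      ∑ j ∈ Finset.range p, u j = 0 := by
  have := Fact.mk hl
  have h2 : (2 : ZMod l) ≠ 0 := by
    intro h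
    have : ((2 : ℕ) : ZMod l) = 0 := by exact_mod_cast h
    rw [ZMod.natCast_eq_zero_iff] at this
    exact hl2 ((Nat.prime_dvd_prime_iff_eq hl Nat.prime_two).mp this)
  rcases hp.eq_two_or_odd' with rfl | hodd
  · refine ⟨fun r => (-1) ^ r, fun r => by simp, fun r => by simp [pow_add], ?_⟩
    simp [Finset.sum_range_succ]
  · obtain ⟨k, hk⟩ := hodd
    have hk1 : 1 ≤ k := by
      rcases Nat.eq_zero_or_pos k with h | h
      · subst h; exact absurd hp (by simp at hk; subst hk; decide)
      · exact h
    -- sequence: value (-1)^(r % p) except value -2 at r % p = 2 shift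
    refine ⟨fun r => if r % p = 0 then -2 else if r % p = 1 then 1 else (-1) ^ (r % p),
      ?_, ?_, ?_⟩
    · intro r
      dsimp only
      split_ifs
      · simpa using h2
      · exact one_ne_zero
      · exact pow_ne_zero _ (by simp)
    · intro r
      simp
    · have hmod : ∀ j ∈ Finset.range p, (if j % p = 0 then (-2 : ZMod l) else
          if j % p = 1 then 1 else (-1) ^ (j % p)) = (if j = 0 then (-2 : ZMod l) else
          if j = 1 then 1 else (-1) ^ j) := by
        intro j hj
        rw [Nat.mod_eq_of_lt (Finset.mem_range.mp hj)]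
      rw [Finset.sum_congr rfl hmod]
      obtain ⟨k', rfl⟩ : ∃ k', k = k' + 1 := ⟨k - 1, by omega⟩
      have hp' : p = (2 * k' + 1) + 1 + 1 := by omega
      rw [hp', Finset.sum_range_succ', Finset.sum_range_succ']
      have h3 : ∑ x ∈ Finset.range (2 * k' + 1), (if x + 1 + 1 = 0 then (-2 : ZMod l) else
          if x + 1 + 1 = 1 then 1 else (-1) ^ (x + 1 + 1))
          = ∑ x ∈ Finset.range (2 * k' + 1), (-1 : ZMod l) ^ x := by
        apply Finset.sum_congr rfl
        intro x _
        rw [if_neg (by omega), if_neg (by omega), pow_succ, pow_succ]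
        ring
      rw [h3]
      have h4 : ∀ k : ℕ, ∑ x ∈ Finset.range (2 * k + 1), (-1 : ZMod l) ^ x = 1 := by
        intro k
        induction k with
        | zero => simp
        | succ k ih =>
          have e1 : (-1 : ZMod l) ^ (2 * k) = 1 := by rw [pow_mul]; simp
          rw [show 2 * (k + 1) + 1 = (2 * k + 1) + 1 + 1 by ring, Finset.sum_range_succ,
            Finset.sum_range_succ, ih]
          simp [pow_succ, e1]
      rw [h4]
      simp
      ring

/-- Sum of `u` over a progression with difference coprime to the period. -/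
lemma sum_progression {p : ℕ} (hp : 0 < p) {n : ℕ} (hn : n.Coprime p) {u : ℕ → ZMod N}
    (hu : ∀ r, u (r + p) = u r) (r : ℕ) :
    ∑ j ∈ Finset.range p, u (r + n * j) = ∑ j ∈ Finset.range p, u j := by
  have hmod : ∀ a, u (a % p) = u a := by
    intro a
    have : ∀ j b, u (b + p * j) = u b := by
      intro j
      induction j with
      | zero => intro b; simp
      | succ j ih => intro b; rw [Nat.mul_succ, ← add_assoc, hu, ih]
    conv_rhs => rw [← Nat.mod_add_div a p]
    rw [this]
  have hmaps : ∀ j ∈ Finset.range p, (r + n * j) % p ∈ Finset.range p :=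
    fun j _ => Finset.mem_range.mpr (Nat.mod_lt _ hp)
  have hinj : Set.InjOn (fun j => (r + n * j) % p) (Finset.range p : Set ℕ) := by
    intro a ha b hb hab
    simp only [Finset.coe_range, Set.mem_Iio] at ha hb
    have h1 : r + n * a ≡ r + n * b [MOD p] := hab
    have h2 : n * a ≡ n * b [MOD p] := Nat.ModEq.add_left_cancel' r h1
    have h3 : a ≡ b [MOD p] := Nat.ModEq.cancel_left_of_coprime (by rwa [Nat.gcd_comm]) h2
    have h4 := h3
    unfold Nat.ModEq at h4
    rwa [Nat.mod_eq_of_lt ha, Nat.mod_eq_of_lt hb] at h4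
  have himg : (Finset.range p).image (fun j => (r + n * j) % p) = Finset.range p := by
    apply Finset.eq_of_subset_of_card_le
    · intro x hx
      rw [Finset.mem_image] at hx
      obtain ⟨j, hj, rfl⟩ := hx
      exact hmaps j hj
    · rw [Finset.card_image_of_injOn hinj]
  calc ∑ j ∈ Finset.range p, u (r + n * j)
      = ∑ j ∈ Finset.range p, u ((r + n * j) % p) :=
        Finset.sum_congr rfl (fun j _ => (hmod _).symm)
    _ = ∑ j ∈ (Finset.range p).image (fun j => (r + n * j) % p), u j := by
        rw [Finset.sum_image hinj]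
    _ = _ := by rw [himg]

lemma cyclotomic_dvd_X_pow_sub_one (n : ℕ) : cyclotomic n (ZMod N) ∣ X ^ n - 1 :=
  cyclotomic.dvd_X_pow_sub_one n (ZMod N)

/-- The key product step. -/
lemma kill_product {l : ℕ} (hl : l.Prime) {p n : ℕ} (hp : p.Prime) (hpn : ¬ p ∣ n) (hpl : p ≠ l)
    {m u : ℕ → ZMod l} (hm : Kill (cyclotomic n (ZMod l)) m)
    (hu : ∀ r, u (r + p) = u r) (hsum : ∑ j ∈ Finset.range p, u j = 0) :
    Kill (cyclotomic (n * p) (ZMod l)) (fun r => m r * u r) := by
  have := Fact.mk hl
  set M : ℕ → ZMod l := fun r => m r * u r with hM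
  have hmper : ∀ r, m (r + n) = m r :=
    kill_X_pow_sub_one_iff.mp (kill_of_dvd (cyclotomic_dvd_X_pow_sub_one n) hm)
  -- first polynomial
  have h1 : Kill (cyclotomic (n * p) (ZMod l) * cyclotomic n (ZMod l)) M := by
    rw [← cyclotomic_expand_eq_cyclotomic_mul hp hpn]
    apply kill_expand_mul hu
    rw [cyclotomic_expand_eq_cyclotomic_mul hp hpn]
    exact kill_of_dvd (dvd_mul_left _ _) hm
  -- second polynomial
  have h2 : Kill (∑ j ∈ Finset.range p, (X ^ n : (ZMod l)[X]) ^ j) M := by
    unfold Kill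
    funext r
    rw [map_sum, LinearMap.sum_apply, Finset.sum_apply]
    have hterm : ∀ j ∈ Finset.range p, aeval (E l) ((X ^ n : (ZMod l)[X]) ^ j) M r
        = m r * u (r + n * j) := by
      intro j _
      rw [← pow_mul, map_pow, aeval_X, E_pow_apply]
      have hper : ∀ j, m (r + n * j) = m r := by
        intro j
        induction j with
        | zero => simp
        | succ j ih => rw [Nat.mul_succ, ← add_assoc, hmper, ih]
      simp only [hM]
      rw [hper]
    rw [Finset.sum_congr rfl hterm, ← Finset.mul_sum,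
      sum_progression hp.pos (Nat.Coprime.symm ((Nat.Prime.coprime_iff_not_dvd hp).mpr hpn)) hu,
      hsum, mul_zero]
    rfl
  -- Bezout
  have h3 : ((X ^ n : (ZMod l)[X]) - 1) ∣
      ((∑ j ∈ Finset.range p, (X ^ n : (ZMod l)[X]) ^ j) - C (p : ZMod l)) := by
    have : (∑ j ∈ Finset.range p, (X ^ n : (ZMod l)[X]) ^ j) - C (p : ZMod l)
        = ∑ j ∈ Finset.range p, ((X ^ n : (ZMod l)[X]) ^ j - 1) := by
      rw [Finset.sum_sub_distrib]
      simp
    rw [this]
    apply Finset.dvd_sum
    intro j _
    exact sub_one_dvd_pow_sub_one _ j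
  obtain ⟨h, hh⟩ := h3
  obtain ⟨q, hq⟩ := cyclotomic_dvd_X_pow_sub_one (N := l) n
  have h4 : Kill (C (p : ZMod l) * cyclotomic (n * p) (ZMod l)) M := by
    have e : C (p : ZMod l) * cyclotomic (n * p) (ZMod l)
        = (∑ j ∈ Finset.range p, (X ^ n : (ZMod l)[X]) ^ j) * cyclotomic (n * p) (ZMod l)
          - (cyclotomic (n * p) (ZMod l) * cyclotomic n (ZMod l)) * (q * h) := by
      have : (∑ j ∈ Finset.range p, (X ^ n : (ZMod l)[X]) ^ j)
          = C (p : ZMod l) + (X ^ n - 1) * h := by
        rw [← hh]; ring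
      rw [this, hq]
      ring
    rw [e]
    exact kill_sub (kill_of_dvd (dvd_mul_right _ _) h2) (kill_of_dvd (dvd_mul_right _ _) h1)
  have hp0 : (p : ZMod l) ≠ 0 := by
    intro h0
    rw [ZMod.natCast_eq_zero_iff] at h0
    exact hpl ((Nat.prime_dvd_prime_iff_eq hl hp).mp h0).symm
  have h5 : cyclotomic (n * p) (ZMod l)
      = (C (p : ZMod l) * cyclotomic (n * p) (ZMod l)) * C ((p : ZMod l)⁻¹) := by
    have : C (p : ZMod l) * C ((p : ZMod l)⁻¹) = 1 := by
      rw [← C_mul, mul_inv_cancel₀ hp0, C_1]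
    calc cyclotomic (n * p) (ZMod l) = (C (p : ZMod l) * C ((p : ZMod l)⁻¹)) *
          cyclotomic (n * p) (ZMod l) := by rw [this, one_mul]
      _ = _ := by ring
  rw [h5]
  exact kill_of_dvd (dvd_mul_right _ _) h4

/-- Existence of the nowhere zero sequences. -/
theorem exists_nowhere_zero {l : ℕ} (hl : l.Prime) (hl2 : l ≠ 2) (n : ℕ) (hn : 0 < n)
    (hln : ¬ l ∣ n) :
    ∃ m : ℕ → ZMod l, (∀ r, m r ≠ 0) ∧ Kill (cyclotomic n (ZMod l)) m := by
  have := Fact.mk hl
  induction n using induction_on_primes with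
  | zero => exact absurd hn (lt_irrefl 0)
  | one =>
    refine ⟨fun _ => 1, fun r => one_ne_zero, ?_⟩
    rw [cyclotomic_one]
    have := (kill_X_pow_sub_one_iff (N := l) (n := 1) (c := fun _ => 1)).mpr (fun r => rfl)
    simpa using this
  | prime_mul p n hp ih =>
    have hn0 : 0 < n := Nat.pos_of_mul_pos_left hn
    have hln' : ¬ l ∣ n := fun h => hln (dvd_mul_of_dvd_right h p)
    have hpl : p ≠ l := fun h => hln (h ▸ dvd_mul_right p n)
    obtain ⟨m, hm0, hm⟩ := ih hn0 hln'
    by_cases hpn : p ∣ n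
    · refine ⟨fun r => m (r / p), fun r => hm0 _, ?_⟩
      rw [mul_comm, ← cyclotomic_expand_eq_cyclotomic hp hpn]
      exact kill_expand_div hp.pos hm
    · obtain ⟨u, hu0, hu, hsum⟩ := exists_zero_sum hl hl2 hp
      refine ⟨fun r => m r * u r, fun r => mul_ne_zero (hm0 r) (hu0 r), ?_⟩
      rw [mul_comm]
      exact kill_product hl hp hpn hpl hm hu hsum

end Q262.Shift
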